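import Pool.Agent.T9h48.TSP.Main

/-!
# The lower bound, asymptotic form
-/

open Finset Filter

set_option autoImplicit false

namespace Pool.Agent.T9h48.TSP

open Pool.Agent.T9h48.SC

lemma pow_le_choose' (c : ℕ) (hc : 1 ≤ c) : ∀ k n : ℕ, c * k ≤ n → c ^ k ≤ n.choose k := by
  intro k
  induction k with
  | zero => intro n _; simp
  | succ k ih =>
    intro n h
    obtain ⟨n, rfl⟩ : ∃ n', n = n' + 1 :=
      ⟨n - 1, by have : 1 ≤ c * (k + 1) := Nat.mul_pos hc (Nat.succ_pos k); omega⟩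
    have h1 := ih n (by nlinarith)
    have h2 := Nat.add_one_mul_choose_eq n k
    refine Nat.le_of_mul_le_mul_right (?_ : c ^ (k + 1) * (k + 1) ≤ _) (Nat.succ_pos k)
    rw [← h2]
    calc c ^ (k + 1) * (k + 1) = (c * (k + 1)) * c ^ k := by ring
      _ ≤ (n + 1) * n.choose k := Nat.mul_le_mul h h1

set_option exponentiation.threshold 1000 in
lemma log_320000 : Real.log 320000 ≤ 12.68 := by
  have h1 : (320000 : ℝ) ^ 25 ≤ Real.exp 1 ^ 317 := by
    calc (320000 : ℝ) ^ 25 ≤ 2.7182818283 ^ 317 := by norm_num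
      _ ≤ _ := pow_le_pow_left₀ (by norm_num) Real.exp_one_gt_d9.le _
  have h2 := Real.log_le_log (by positivity) h1
  rw [Real.log_pow, Real.log_pow, Real.log_exp] at h2
  push_cast at h2
  linarith

set_option exponentiation.threshold 1000 in
lemma log_three : 1.098 ≤ Real.log 3 := by
  have h1 : Real.exp 1 ^ 549 ≤ (3 : ℝ) ^ 500 := by
    calc Real.exp 1 ^ 549 ≤ 2.7182818286 ^ 549 :=
          pow_le_pow_left₀ (Real.exp_pos _).le Real.exp_one_lt_d9.le _
      _ ≤ _ := by norm_num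
  have h2 := Real.log_le_log (by positivity) h1
  rw [Real.log_pow, Real.log_pow, Real.log_exp] at h2
  push_cast at h2
  linarith

/-- the numerical estimate -/
lemma numeric {n : ℕ} (hn : 1000000 ≤ n) :
    (1.02 : ℝ) ^ n * (2 * n) * (160000 + 1202) ^ n * (2 * 160000) ^ ((n + 1) / 200 + 5) ≤
      3 ^ (n / 12) * 160000 ^ n := by
  have hn' : (1000000 : ℝ) ≤ n := by exact_mod_cast hn
  have hpos : (0 : ℝ) < n := by linarith
  rw [← Real.log_le_log_iff (by positivity) (by positivity)]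
  rw [Real.log_mul (by positivity) (by positivity), Real.log_mul (by positivity) (by positivity),
    Real.log_mul (by positivity) (by positivity),
    Real.log_mul (x := 3 ^ (n / 12)) (by positivity) (by positivity),
    Real.log_pow, Real.log_pow, Real.log_pow, Real.log_pow, Real.log_pow]
  have h1 : Real.log 1.02 ≤ 0.02 := by
    have := Real.log_le_sub_one_of_pos (show (0 : ℝ) < 1.02 by norm_num)
    linarith
  have h2 : Real.log (160000 + 1202) ≤ Real.log 160000 + 0.0075125 := by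
    have e1 : (160000 + 1202 : ℝ) = 160000 * 1.0075125 := by norm_num
    rw [e1, Real.log_mul (by norm_num) (by norm_num)]
    have := Real.log_le_sub_one_of_pos (show (0 : ℝ) < 1.0075125 by norm_num)
    linarith
  have h3 : Real.log (2 * 160000) ≤ 12.68 := by
    have e1 : (2 * 160000 : ℝ) = 320000 := by norm_num
    rw [e1]
    exact log_320000
  have h4 : Real.log (2 * n) ≤ 2 * n / 10000 + 24 := by
    have e1 : (2 * (n : ℝ)) = (2 * n / 10000) * 10000 := by ring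
    have e2 : Real.log (2 * n / 10000) ≤ 2 * n / 10000 - 1 :=
      Real.log_le_sub_one_of_pos (by positivity)
    have e3 : Real.log 10000 ≤ 12.68 :=
      (Real.log_le_log (by norm_num) (by norm_num)).trans log_320000
    rw [e1, Real.log_mul (by positivity) (by norm_num)]
    linarith
  have h5 : (((n + 1) / 200 + 5 : ℕ) : ℝ) ≤ (n + 1) / 200 + 5 := by
    push_cast
    have : (((n + 1) / 200 : ℕ) : ℝ) ≤ ((n + 1 : ℕ) : ℝ) / ((200 : ℕ) : ℝ) := Nat.cast_div_le
    push_cast at this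
    linarith
  have h6 : (n : ℝ) / 12 - 1 ≤ ((n / 12 : ℕ) : ℝ) := by
    have e1 : n < 12 * (n / 12 + 1) := Nat.lt_mul_div_succ n (by norm_num)
    have e2 : (n : ℝ) < 12 * (((n / 12 : ℕ) : ℝ) + 1) := by exact_mod_cast e1
    linarith
  have h7 := log_three
  have f1 : (n : ℝ) * Real.log 1.02 ≤ n * 0.02 := mul_le_mul_of_nonneg_left h1 hpos.le
  have f2 : (n : ℝ) * Real.log (160000 + 1202) ≤ n * (Real.log 160000 + 0.0075125) :=
    mul_le_mul_of_nonneg_left h2 hpos.le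
  have f3 : (((n + 1) / 200 + 5 : ℕ) : ℝ) * Real.log (2 * 160000) ≤ ((n + 1) / 200 + 5) * 12.68 :=
    mul_le_mul h5 h3 (Real.log_nonneg (by norm_num)) (by positivity)
  have f4 : ((n : ℝ) / 12 - 1) * 1.098 ≤ ((n / 12 : ℕ) : ℝ) * Real.log 3 :=
    mul_le_mul h6 h7 (by norm_num) (Nat.cast_nonneg _)
  linarith

/-- **Pure dynamic programming cannot approximate the planar travelling salesman problem.** -/
theorem pure_dp {n : ℕ} (hn : 1000000 ≤ n) (C : TropCircuit (Fin n × Fin n))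
    (hC : Solves C (3 * n ^ 2) (1 + 1 / 1000)) : (1.02 : ℝ) ^ n ≤ C.numAdd := by
  obtain ⟨m, rfl⟩ : ∃ m, n = m + 1 := ⟨n - 1, by omega⟩
  set h := (m + 1 + 1) / 200 + 5 with hh
  have hh2 : (((m + 2 : ℕ) : ℝ)) / 200 < (((m + 2) / 200 : ℕ) : ℝ) + 1 := by
    rw [div_lt_iff₀ (by norm_num)]
    have e1 : m + 2 < 200 * ((m + 2) / 200 + 1) := Nat.lt_mul_div_succ _ (by norm_num)
    have e2 : ((m + 2 : ℕ) : ℝ) < 200 * ((((m + 2) / 200 : ℕ) : ℝ) + 1) := by exact_mod_cast e1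
    linarith
  have h1 := main_bound (m := m) (by omega) C (ρ := 1 + 1 / 1000) le_rfl (by norm_num) hC h (by
    rw [hh]
    push_cast at hh2 ⊢
    have e3 : (((m + 1 + 1) / 200 : ℕ) : ℝ) = (((m + 2) / 200 : ℕ) : ℝ) := rfl
    rw [e3]
    linarith) ((m + 1) / 12 + h) (by omega) (by omega) 400 (by norm_num)
  rw [Nat.add_sub_cancel] at h1
  have h2 := pow_le_choose' 12 (by norm_num) ((m + 1) / 12) (m + 1) (Nat.mul_div_le _ _)
  have h3 : 12 ^ ((m + 1) / 12) * (400 ^ (m + 1 - h)) ^ 2 ≤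
      2 * C.numAdd * (4 ^ ((m + 1) / 12) * 2 ^ h * (m + 1) * ((400 + 1) * (400 + 2)) ^ (m + 1)) :=
    (Nat.mul_le_mul_right _ h2).trans h1
  have h4 : (12 : ℝ) ^ ((m + 1) / 12) * (400 ^ (m + 1 - h)) ^ 2 ≤
      2 * C.numAdd * (4 ^ ((m + 1) / 12) * 2 ^ h * (m + 1) * ((400 + 1) * (400 + 2)) ^ (m + 1)) := by
    exact_mod_cast h3
  have h5 := numeric hn
  rw [← hh] at h5
  push_cast at h5
  have h6 : (3 : ℝ) ^ ((m + 1) / 12) * 160000 ^ (m + 1) ≤
      C.numAdd * ((2 * ((m : ℝ) + 1)) * (160000 + 1202) ^ (m + 1) * (2 * 160000) ^ h) := by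
    have e1 : (12 : ℝ) ^ ((m + 1) / 12) = 4 ^ ((m + 1) / 12) * 3 ^ ((m + 1) / 12) := by
      rw [← mul_pow]; norm_num
    have e2 : (160000 : ℝ) ^ (m + 1) = (400 ^ (m + 1 - h)) ^ 2 * 160000 ^ h := by
      rw [← pow_mul, mul_comm (m + 1 - h) 2, pow_mul, show (400 : ℝ) ^ 2 = 160000 by norm_num,
        ← pow_add]
      congr 1
      omega
    have hp : (0 : ℝ) < 4 ^ ((m + 1) / 12) := by positivity
    refine le_of_mul_le_mul_left (?_ : (4 : ℝ) ^ ((m + 1) / 12) * _ ≤ _) hp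
    calc (4 : ℝ) ^ ((m + 1) / 12) * (3 ^ ((m + 1) / 12) * 160000 ^ (m + 1))
        = ((12 : ℝ) ^ ((m + 1) / 12) * (400 ^ (m + 1 - h)) ^ 2) * 160000 ^ h := by
          rw [e1, e2]; ring
      _ ≤ (2 * C.numAdd * (4 ^ ((m + 1) / 12) * 2 ^ h * (m + 1) *
          ((400 + 1) * (400 + 2)) ^ (m + 1))) * 160000 ^ h :=
          mul_le_mul_of_nonneg_right h4 (by positivity)
      _ = _ := by
          rw [mul_pow 2 (160000 : ℝ) h, show ((400 + 1) * (400 + 2) : ℝ) = 160000 + 1202 by norm_num]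
          ring
  have hp : (0 : ℝ) < (2 * ((m : ℝ) + 1)) * (160000 + 1202) ^ (m + 1) * (2 * 160000) ^ h := by
    positivity
  refine le_of_mul_le_mul_right (?_ : _ * ((2 * ((m : ℝ) + 1)) * (160000 + 1202) ^ (m + 1) *
    (2 * 160000) ^ h) ≤ _) hp
  refine le_trans (le_of_eq ?_) (h5.trans h6)
  ring

end Pool.Agent.T9h48.TSP
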