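import Pool.Agent.T9h48.SC.TropDefs

/-!
# General facts on `(min, +)` circuits: monomials with their constants
-/

open Finset
open scoped ENNReal

set_option autoImplicit false

namespace Pool.Agent.T9h48.TSP

open Pool.Agent.T9h48.SC

variable {V : Type}

/-- the monomials produced at a node, with their constants -/
inductive PC (C : TropCircuit V) : V ⊕ ℝ≥0∞ ⊕ Fin C.size → Multiset V → ℝ≥0∞ → Prop
  | var (x : V) : PC C (Sum.inl x) {x} 0
  | const (c : ℝ≥0∞) : PC C (Sum.inr (Sum.inl c)) 0 c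
  | add (i : Fin C.size) (M N : Multiset V) (c d : ℝ≥0∞) : C.isAdd i = true →
      PC C (C.left i) M c → PC C (C.right i) N d → PC C (Sum.inr (Sum.inr i)) (M + N) (c + d)
  | minl (i : Fin C.size) (M : Multiset V) (c : ℝ≥0∞) : ¬ C.isAdd i = true →
      PC C (C.left i) M c → PC C (Sum.inr (Sum.inr i)) M c
  | minr (i : Fin C.size) (M : Multiset V) (c : ℝ≥0∞) : ¬ C.isAdd i = true →
      PC C (C.right i) M c → PC C (Sum.inr (Sum.inr i)) M c

/-- contexts -/
inductive CC (C : TropCircuit V) : V ⊕ ℝ≥0∞ ⊕ Fin C.size → Multiset V → ℝ≥0∞ → Prop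
  | out : CC C C.out 0 0
  | addl (i : Fin C.size) (R M : Multiset V) (c d : ℝ≥0∞) : C.isAdd i = true →
      CC C (Sum.inr (Sum.inr i)) R c → PC C (C.right i) M d → CC C (C.left i) (M + R) (d + c)
  | addr (i : Fin C.size) (R M : Multiset V) (c d : ℝ≥0∞) : C.isAdd i = true →
      CC C (Sum.inr (Sum.inr i)) R c → PC C (C.left i) M d → CC C (C.right i) (M + R) (d + c)
  | minl (i : Fin C.size) (R : Multiset V) (c : ℝ≥0∞) : ¬ C.isAdd i = true →
      CC C (Sum.inr (Sum.inr i)) R c → CC C (C.left i) R c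
  | minr (i : Fin C.size) (R : Multiset V) (c : ℝ≥0∞) : ¬ C.isAdd i = true →
      CC C (Sum.inr (Sum.inr i)) R c → CC C (C.right i) R c

variable {C : TropCircuit V}

lemma CC.produces {x : V ⊕ ℝ≥0∞ ⊕ Fin C.size} {R : Multiset V} {d : ℝ≥0∞} (h : CC C x R d) :
    ∀ M c, PC C x M c → PC C C.out (M + R) (c + d) := by
  induction h with
  | out => intro M c hM; rw [add_zero, add_zero]; exact hM
  | addl i R N c d hi _ hN ih =>
    intro M e hM
    have := ih _ _ (PC.add i M N e d hi hM hN)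
    rwa [add_assoc, add_assoc] at this
  | addr i R N c d hi _ hN ih =>
    intro M e hM
    have := ih _ _ (PC.add i N M d e hi hN hM)
    rwa [add_comm N M, add_assoc, add_comm d e, add_assoc] at this
  | minl i R d hi _ ih =>
    intro M c hM
    exact ih _ _ (PC.minl i M c hi hM)
  | minr i R d hi _ ih =>
    intro M c hM
    exact ih _ _ (PC.minr i M c hi hM)

/-- the value is at most the weight of a produced monomial plus its constant -/
lemma PC.le {x : V ⊕ ℝ≥0∞ ⊕ Fin C.size} {M : Multiset V} {c : ℝ≥0∞} (h : PC C x M c)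
    {w : V → ℝ≥0∞} {val : Fin C.size → ℝ≥0∞} (hv : C.IsRun w val) :
    TropCircuit.nodeVal w val x ≤ (M.map w).sum + c := by
  induction h with
  | var x => simp [TropCircuit.nodeVal]
  | const c => simp [TropCircuit.nodeVal]
  | add i M N c d hi _ _ ih1 ih2 =>
    have h3 := hv i
    rw [if_pos hi] at h3
    change val i ≤ _
    rw [h3, Multiset.map_add, Multiset.sum_add]
    calc _ ≤ ((M.map w).sum + c) + ((N.map w).sum + d) := add_le_add ih1 ih2
      _ = _ := by ring
  | minl i M c hi _ ih =>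
    have h3 := hv i
    rw [if_neg hi] at h3
    change val i ≤ _
    rw [h3]
    exact (min_le_left _ _).trans ih
  | minr i M c hi _ ih =>
    have h3 := hv i
    rw [if_neg hi] at h3
    change val i ≤ _
    rw [h3]
    exact (min_le_right _ _).trans ih

lemma attainC_aux {w : V → ℝ≥0∞} {val : Fin C.size → ℝ≥0∞} (hv : C.IsRun w val) (m : ℕ) :
    ∀ i : Fin C.size, (i : ℕ) < m →
      ∃ M c, PC C (Sum.inr (Sum.inr i)) M c ∧ (M.map w).sum + c ≤ val i := by
  induction m with
  | zero => intro i hi; omega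
  | succ m ih =>
    intro i hi
    have hnode : ∀ x : V ⊕ ℝ≥0∞ ⊕ Fin C.size, (∀ j, x = Sum.inr (Sum.inr j) → j < i) →
        ∃ M c, PC C x M c ∧ (M.map w).sum + c ≤ TropCircuit.nodeVal w val x := by
      intro x hx
      rcases x with x | c | j
      · exact ⟨{x}, 0, PC.var x, by simp [TropCircuit.nodeVal]⟩
      · exact ⟨0, c, PC.const c, by simp [TropCircuit.nodeVal]⟩
      · have hj := hx j rfl
        exact ih j (by have : (j : ℕ) < i := hj; omega)
    obtain ⟨M, c, hM, hM'⟩ := hnode _ (fun j hj => C.acyclic i j (Or.inl hj))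
    obtain ⟨N, d, hN, hN'⟩ := hnode _ (fun j hj => C.acyclic i j (Or.inr hj))
    have h3 := hv i
    by_cases hi : C.isAdd i = true
    · rw [if_pos hi] at h3
      refine ⟨M + N, c + d, PC.add i M N c d hi hM hN, ?_⟩
      rw [h3, Multiset.map_add, Multiset.sum_add]
      calc _ = ((M.map w).sum + c) + ((N.map w).sum + d) := by ring
        _ ≤ _ := add_le_add hM' hN'
    · rw [if_neg hi] at h3
      rcases le_total (TropCircuit.nodeVal w val (C.left i))
        (TropCircuit.nodeVal w val (C.right i)) with h | h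
      · rw [min_eq_left h] at h3
        exact ⟨M, c, PC.minl i M c hi hM, by rw [h3]; exact hM'⟩
      · rw [min_eq_right h] at h3
        exact ⟨N, d, PC.minr i N d hi hN, by rw [h3]; exact hN'⟩

/-- the value is attained by a monomial -/
lemma attainC {w : V → ℝ≥0∞} {val : Fin C.size → ℝ≥0∞} (hv : C.IsRun w val)
    (x : V ⊕ ℝ≥0∞ ⊕ Fin C.size) :
    ∃ M c, PC C x M c ∧ (M.map w).sum + c ≤ TropCircuit.nodeVal w val x := by
  rcases x with x | c | j
  · exact ⟨{x}, 0, PC.var x, by simp [TropCircuit.nodeVal]⟩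
  · exact ⟨0, c, PC.const c, by simp [TropCircuit.nodeVal]⟩
  · exact attainC_aux hv _ j (Nat.lt_succ_self _)

/-- the operand of an addition gate -/
def child (C : TropCircuit V) (g : {i : Fin C.size // C.isAdd i = true} × Bool) :
    V ⊕ ℝ≥0∞ ⊕ Fin C.size := if g.2 = true then C.left g.1.1 else C.right g.1.1

/-- a heavy monomial passes through an operand of an addition gate of medium weight -/
lemma PC.child (ω : V → ℕ) (hω : ∀ v, ω v ≤ 1) {x : V ⊕ ℝ≥0∞ ⊕ Fin C.size} {M : Multiset V}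
    {c : ℝ≥0∞} (h : PC C x M c) {τ : ℕ} (hτ : 1 ≤ τ) :
    ∀ R e, CC C x R e → 2 * τ < (M.map ω).sum →
    ∃ g A B a b, PC C (child C g) A a ∧ CC C (child C g) B b ∧ A + B = M + R ∧ a + b = c + e ∧
      τ < (A.map ω).sum ∧ (A.map ω).sum ≤ 2 * τ := by
  induction h with
  | var x =>
    intro R _ _ h
    rw [Multiset.map_singleton, Multiset.sum_singleton] at h
    have := hω x
    omega
  | const c => intro R _ _ h; simp at h
  | add i M N c d hi hM hN ih1 ih2 =>
    intro R e hR h
    rcases Nat.lt_or_ge (2 * τ) (M.map ω).sum with h1 | h1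
    · obtain ⟨g, A, B, a, b, a1, a2, a3, a3', a4⟩ := ih1 _ _ (CC.addl i R N e d hi hR hN) h1
      exact ⟨g, A, B, a, b, a1, a2, by rw [a3, add_assoc], by rw [a3', add_assoc], a4⟩
    rcases Nat.lt_or_ge (2 * τ) (N.map ω).sum with h2 | h2
    · obtain ⟨g, A, B, a, b, a1, a2, a3, a3', a4⟩ := ih2 _ _ (CC.addr i R M e c hi hR hM) h2
      exact ⟨g, A, B, a, b, a1, a2, by rw [a3, ← add_assoc, add_comm N M],
        by rw [a3', ← add_assoc, add_comm d c], a4⟩
    rw [Multiset.map_add, Multiset.sum_add] at h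
    rcases Nat.lt_or_ge τ (M.map ω).sum with h3 | h3
    · exact ⟨(⟨i, hi⟩, true), M, N + R, c, d + e, hM, CC.addl i R N e d hi hR hN,
        by rw [add_assoc], by rw [add_assoc], h3, h1⟩
    · exact ⟨(⟨i, hi⟩, false), N, M + R, d, c + e, hN, CC.addr i R M e c hi hR hM,
        by rw [← add_assoc, add_comm N M], by rw [← add_assoc, add_comm d c], by omega, h2⟩
  | minl i M c hi hM ih =>
    intro R e hR h
    exact ih R e (CC.minl i R e hi hR) h
  | minr i M c hi hM ih =>
    intro R e hR h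
    exact ih R e (CC.minr i R e hi hR) h

/-- a heavy monomial passes through a balanced addition gate -/
lemma PC.heavy (ω : V → ℕ) (hω : ∀ v, ω v ≤ 1) {x : V ⊕ ℝ≥0∞ ⊕ Fin C.size} {M : Multiset V}
    {c : ℝ≥0∞} (h : PC C x M c) {τ : ℕ} (hτ : 1 ≤ τ) : ∀ R e, CC C x R e → τ < (M.map ω).sum →
    ∃ i, C.isAdd i = true ∧ ∃ M1 M2 R' c1 c2 e', PC C (C.left i) M1 c1 ∧ PC C (C.right i) M2 c2 ∧
      CC C (Sum.inr (Sum.inr i)) R' e' ∧ M1 + M2 + R' = M + R ∧ c1 + c2 + e' = c + e ∧
      (M1.map ω).sum ≤ τ ∧ (M2.map ω).sum ≤ τ ∧ τ < (M1.map ω).sum + (M2.map ω).sum := by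
  induction h with
  | var x =>
    intro R _ _ h
    rw [Multiset.map_singleton, Multiset.sum_singleton] at h
    have := hω x
    omega
  | const c => intro R _ _ h; simp at h
  | add i M N c d hi hM hN ih1 ih2 =>
    intro R e hR h
    rcases Nat.lt_or_ge τ (M.map ω).sum with h1 | h1
    · obtain ⟨k, hk, M1, M2, R', c1, c2, e', a1, a2, a3, a4, a4', a5⟩ :=
        ih1 _ _ (CC.addl i R N e d hi hR hN) h1
      exact ⟨k, hk, M1, M2, R', c1, c2, e', a1, a2, a3, by rw [a4, add_assoc],
        by rw [a4', add_assoc], a5⟩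
    rcases Nat.lt_or_ge τ (N.map ω).sum with h2 | h2
    · obtain ⟨k, hk, M1, M2, R', c1, c2, e', a1, a2, a3, a4, a4', a5⟩ :=
        ih2 _ _ (CC.addr i R M e c hi hR hM) h2
      exact ⟨k, hk, M1, M2, R', c1, c2, e', a1, a2, a3, by rw [a4, ← add_assoc, add_comm N M],
        by rw [a4', ← add_assoc, add_comm d c], a5⟩
    · rw [Multiset.map_add, Multiset.sum_add] at h
      exact ⟨i, hi, M, N, R, c, d, e, hM, hN, hR, rfl, rfl, h1, h2, h⟩
  | minl i M c hi hM ih =>
    intro R e hR h
    exact ih R e (CC.minl i R e hi hR) h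
  | minr i M c hi hM ih =>
    intro R e hR h
    exact ih R e (CC.minr i R e hi hR) h

end Pool.Agent.T9h48.TSP
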