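import Pool.Agent.T9h48.SC.Perm

/-!
# Counting cyclic orders with a prescribed local structure
-/

open Finset

set_option autoImplicit false

namespace Pool.Agent.T9h48.TSP

open Pool.Agent.T9h48.SC

/-- the predecessor in the cyclic order given by `σ` -/
def prd {m : ℕ} (σ : Equiv.Perm (Fin (m + 1))) : Equiv.Perm (Fin (m + 1)) :=
  (σ.trans (Equiv.subRight 1)).trans σ.symm

lemma prd_apply {m : ℕ} (σ : Equiv.Perm (Fin (m + 1))) (w : Fin (m + 1)) :
    prd σ w = σ.symm (σ w - 1) := rfl

lemma prd_inj {m : ℕ} {σ σ' : Equiv.Perm (Fin (m + 1))} (h : prd σ = prd σ') (h0 : σ 0 = σ' 0) :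
    σ = σ' := by
  have h1 : ∀ k : Fin (m + 1), σ.symm (σ 0 - k) = σ'.symm (σ' 0 - k) := by
    intro k
    induction k using Fin.induction with
    | zero => simp
    | succ k ih =>
      have e1 : σ.symm (σ 0 - k.succ) = prd σ (σ.symm (σ 0 - k.castSucc)) := by
        rw [prd_apply, Equiv.apply_symm_apply, ← Fin.coeSucc_eq_succ, sub_sub]
      have e2 : σ'.symm (σ' 0 - k.succ) = prd σ' (σ'.symm (σ' 0 - k.castSucc)) := by
        rw [prd_apply, Equiv.apply_symm_apply, ← Fin.coeSucc_eq_succ, sub_sub]
      rw [e1, e2, ih, h]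
  have h2 : σ.symm = σ'.symm := by
    ext1 x
    have h3 := h1 (σ 0 - x)
    rw [← h0, sub_sub_cancel] at h3
    exact h3
  have h3 := congrArg Equiv.symm h2
  simpa using h3

lemma card_patterns {n : ℕ} (a : Fin n → ℕ) (𝒪 : Finset (Fin n → Bool)) (d K : ℕ) (hK : 1 ≤ K)
    (h : ∀ o ∈ 𝒪, (univ.filter fun w => a w ≠ 1 ∧ o w ≠ decide (a w = 2)).card ≤ d) :
    K ^ (n - d) * 𝒪.card ≤ 2 ^ (univ.filter fun w => a w = 1).card * (K + 1) ^ n := by
  classical
  set ψ : Fin n → Bool → ℕ := fun w b => if a w ≠ 1 ∧ b ≠ decide (a w = 2) then 1 else K with hψ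
  have h1 : ∏ w, ∑ b, ψ w b = ∑ o : Fin n → Bool, ∏ w, ψ w (o w) := Fintype.prod_sum _
  have h2 : ∏ w, ∑ b, ψ w b ≤ 2 ^ (univ.filter fun w => a w = 1).card * (K + 1) ^ n := by
    calc ∏ w, ∑ b, ψ w b ≤ ∏ w : Fin n, ((if a w = 1 then 2 else 1) * (K + 1)) := by
          refine prod_le_prod' fun w _ => ?_
          rw [Fintype.sum_bool]
          by_cases h1 : a w = 1
          · simp [hψ, h1]; omega
          · by_cases h2 : a w = 2
            · simp [hψ, h2]
            · simp [hψ, h1, h2]; omega
      _ = _ := by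
          rw [prod_mul_distrib, prod_const, card_univ, Fintype.card_fin, prod_ite, prod_const,
            prod_const_one, mul_one]
  have h3 : K ^ (n - d) * 𝒪.card ≤ ∑ o : Fin n → Bool, ∏ w, ψ w (o w) := by
    refine le_trans ?_ (sum_le_sum_of_subset (subset_univ 𝒪))
    rw [mul_comm, ← smul_eq_mul, ← sum_const]
    refine sum_le_sum fun o ho => ?_
    have h4 : ∏ w, ψ w (o w) =
        K ^ (univ.filter fun w => ¬ (a w ≠ 1 ∧ o w ≠ decide (a w = 2))).card := by
      rw [prod_ite, prod_const_one, prod_const, one_mul]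
    rw [h4]
    refine Nat.pow_le_pow_right hK ?_
    have h5 := card_filter_add_card_filter_not (s := (univ : Finset (Fin n)))
      (fun w => a w ≠ 1 ∧ o w ≠ decide (a w = 2))
    rw [card_univ, Fintype.card_fin] at h5
    have := h o ho
    omega
  exact h3.trans (h1 ▸ h2)

lemma choose_four {n t : ℕ} : ∀ k, 5 * (t + k) ≤ n → n.choose t * 4 ^ k ≤ n.choose (t + k) := by
  intro k
  induction k with
  | zero => intro _; simp
  | succ k ih =>
    intro h
    have h1 := ih (by omega)
    have h2 := Nat.choose_succ_right_eq n (t + k)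
    have h3 : n.choose (t + k) * (4 * (t + k + 1)) ≤ n.choose (t + k + 1) * (t + k + 1) := by
      rw [h2]
      exact Nat.mul_le_mul_left _ (by omega)
    have h4 : n.choose (t + k) * 4 ≤ n.choose (t + k + 1) :=
      Nat.le_of_mul_le_mul_right (by rw [mul_assoc]; exact h3) (Nat.succ_pos (t + k))
    calc n.choose t * 4 ^ (k + 1) = n.choose t * 4 ^ k * 4 := by ring
      _ ≤ n.choose (t + k) * 4 := Nat.mul_le_mul_right _ h1
      _ ≤ n.choose (t + k + 1) := h4

lemma fact_four {n t₁ t : ℕ} (h1 : t₁ ≤ t) (h2 : 5 * t ≤ n) :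
    4 ^ t * (t.factorial * (n - t).factorial) * n.choose t₁ ≤ 4 ^ t₁ * n.factorial := by
  obtain ⟨k, rfl⟩ := Nat.exists_eq_add_of_le h1
  have h3 := choose_four k h2
  have h4 : n.choose (t₁ + k) * (t₁ + k).factorial * (n - (t₁ + k)).factorial = n.factorial :=
    Nat.choose_mul_factorial_mul_factorial (by omega)
  rw [← h4, pow_add]
  calc 4 ^ t₁ * 4 ^ k * ((t₁ + k).factorial * (n - (t₁ + k)).factorial) * n.choose t₁
      = (n.choose t₁ * 4 ^ k) * (4 ^ t₁ * ((t₁ + k).factorial * (n - (t₁ + k)).factorial)) := by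
        ring
    _ ≤ n.choose (t₁ + k) * (4 ^ t₁ * ((t₁ + k).factorial * (n - (t₁ + k)).factorial)) :=
        Nat.mul_le_mul_right _ h3
    _ = _ := by ring

/-- the code of a pattern -/
def code (b : Bool) : Fin 3 := if b then 1 else 0

lemma code_inj {b c : Bool} : code b = code c ↔ b = c := by
  cases b <;> cases c <;> simp [code]

lemma prod_code {n : ℕ} (o : Fin n → Bool) :
    ∏ c, ((univ.filter fun w => code (o w) = c).card).factorial =
      (univ.filter fun w => o w = true).card.factorial *
        (n - (univ.filter fun w => o w = true).card).factorial := by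
  have h5 := card_filter_add_card_filter_not (s := (univ : Finset (Fin n)))
      (fun w => o w = true)
  rw [card_univ, Fintype.card_fin] at h5
  have e0 : (univ.filter fun w => code (o w) = 0) = univ.filter fun w => ¬ o w = true := by
    refine filter_congr fun w _ => ?_
    cases o w <;> simp [code]
  have e1 : (univ.filter fun w => code (o w) = 1) = univ.filter fun w => o w = true := by
    refine filter_congr fun w _ => ?_
    cases o w <;> simp [code]
  have e2 : (univ.filter fun w => code (o w) = 2) = ∅ := by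
    refine filter_eq_empty_iff.2 fun w _ => ?_
    cases o w <;> simp [code]
  rw [Fin.prod_univ_three, e0, e1, e2, card_empty, Nat.factorial_zero, mul_one, mul_comm]
  congr 2
  omega

/-- **The core inequality.** -/
theorem core_count {m : ℕ} (a : Fin (m + 1) → ℕ) (G : Finset (Equiv.Perm (Fin (m + 1))))
    (O : Equiv.Perm (Fin (m + 1)) → Fin (m + 1) → Bool)
    (Y : Equiv.Perm (Fin (m + 1)) → Finset (Fin (m + 1))) (d t₁ t₂ K : ℕ) (hK : 1 ≤ K)
    (hY : ∀ σ ∈ G, (Y σ).card ≤ d)
    (hO : ∀ σ ∈ G, ∀ w, w ∉ Y σ →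
      a w = (if O σ w = true then 1 else 0) + (if O σ (prd σ w) = true then 1 else 0))
    (hm1 : ∀ σ ∈ G, t₁ ≤ (univ.filter fun u => O σ u = true).card)
    (hm2 : ∀ σ ∈ G, (univ.filter fun u => O σ u = true).card ≤ t₂) (ht : 5 * t₂ ≤ m + 1) :
    (m + 1).choose t₁ * (K ^ (m + 1 - d)) ^ 2 * G.card ≤
      4 ^ t₁ * 2 ^ d * (m + 1) * ((K + 1) * (K + 2)) ^ (m + 1) * (m + 1).factorial := by
  classical
  set 𝒪 := G.image O with h𝒪
  set c := 2 ^ (univ.filter fun w => a w = 1).card with hc
  -- the number of patterns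
  have hpat : K ^ ((m + 1) - d) * 𝒪.card ≤ c * (K + 1) ^ (m + 1) := by
    refine card_patterns a 𝒪 d K hK ?_
    intro o ho
    obtain ⟨σ, hσ, rfl⟩ := mem_image.1 ho
    refine (card_le_card ?_).trans (hY σ hσ)
    intro w hw
    rw [mem_filter] at hw
    by_contra hwY
    have h1 := hO σ hσ w hwY
    obtain ⟨_, h2, h3⟩ := hw
    apply h3
    cases h4 : O σ w <;> cases h5 : O σ (prd σ w) <;> simp [h4, h5] at h1 <;> simp [h1]
    all_goals exact absurd h1 h2
  -- a single pattern
  have hone : ∀ o ∈ 𝒪, c * ((m + 1).choose t₁ * (K ^ ((m + 1) - d) * (G.filter fun σ => O σ = o).card)) ≤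
      4 ^ t₁ * 2 ^ d * (m + 1) * (K + 2) ^ (m + 1) * (m + 1).factorial := by
    intro o ho
    obtain ⟨σ0, hσ0, ho'⟩ := mem_image.1 ho
    set t := (univ.filter fun u => o u = true).card with ht'
    have ht1 : t₁ ≤ t := by rw [ht', ← ho']; exact hm1 σ0 hσ0
    have ht2 : t ≤ t₂ := by rw [ht', ← ho']; exact hm2 σ0 hσ0
    -- the mixed vertices
    have hc' : c ≤ 4 ^ t * 2 ^ d := by
      have h1 : (univ.filter fun w => a w = 1).card ≤ 2 * t + d := by
        have h2 : (univ.filter fun w => a w = 1) ⊆ (univ.filter fun w => o w = true) ∪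
            (univ.filter fun w => o (prd σ0 w) = true) ∪ Y σ0 := by
          intro w hw
          rw [mem_filter] at hw
          rw [mem_union, mem_union, mem_filter, mem_filter]
          by_contra hcon
          push Not at hcon
          obtain ⟨⟨h3, h4⟩, h5⟩ := hcon
          have h6 := hO σ0 hσ0 w h5
          rw [ho', if_neg (h3 (mem_univ _)), if_neg (h4 (mem_univ _)), hw.2] at h6
          omega
        have h3 : (univ.filter fun w => o (prd σ0 w) = true).card = t := by
          refine card_bij (fun w _ => prd σ0 w) ?_ ?_ ?_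
          · intro w hw
            rw [mem_filter] at hw ⊢
            exact ⟨mem_univ _, hw.2⟩
          · intro w _ w' _ h
            exact (prd σ0).injective h
          · intro w hw
            rw [mem_filter] at hw
            refine ⟨(prd σ0).symm w, ?_, by simp⟩
            rw [mem_filter]
            simpa using hw.2
        have h4 := card_le_card h2
        have h5 := card_union_le ((univ.filter fun w => o w = true) ∪
            (univ.filter fun w => o (prd σ0 w) = true)) (Y σ0)
        have h6 := card_union_le (univ.filter fun w => o w = true)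
            (univ.filter fun w => o (prd σ0 w) = true)
        have h7 := hY σ0 hσ0
        omega
      calc c ≤ 2 ^ (2 * t + d) := Nat.pow_le_pow_right (by norm_num) h1
        _ = 4 ^ t * 2 ^ d := by rw [pow_add, pow_mul]; norm_num
    -- the number of permutations
    set ino : Fin (m + 1) → Bool := fun w => if a w = 1 then !(o w) else o w with hino
    set Q := univ.filter fun q : Equiv.Perm (Fin (m + 1)) =>
      (univ.filter fun w => code (o (q w)) ≠ code (ino w)).card ≤ d with hQ
    have h1 : (G.filter fun σ => O σ = o).card ≤ (m + 1) * Q.card := by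
      have h2 : (G.filter fun σ => O σ = o).card ≤ ((univ : Finset (Fin (m + 1))) ×ˢ Q).card := by
        refine card_le_card_of_injOn (fun σ => (σ 0, prd σ)) ?_ ?_
        · intro σ hσ
          rw [mem_coe, mem_filter] at hσ
          rw [mem_coe, mem_product, hQ, mem_filter]
          refine ⟨mem_univ _, mem_univ _, ?_⟩
          refine (card_le_card ?_).trans (hY σ hσ.1)
          intro w hw
          rw [mem_filter] at hw
          by_contra hwY
          have h3 := hO σ hσ.1 w hwY
          rw [hσ.2] at h3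
          apply hw.2
          rw [code_inj, hino]
          dsimp only
          cases h4 : o w <;> cases h5 : o (prd σ w) <;> simp [h4, h5] at h3 <;> simp [h3]
        · intro σ _ σ' _ h
          rw [Prod.mk.injEq] at h
          exact prd_inj h.2 h.1
      rwa [card_product, card_univ, Fintype.card_fin] at h2
    have h2 : K ^ ((m + 1) - d) * Q.card ≤ (t.factorial * ((m + 1) - t).factorial) * (K + 2) ^ (m + 1) := by
      have h3 := card_good_le (fun w => code (o w)) (fun w => code (ino w)) K d hK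
      rw [Fintype.card_fin, prod_code] at h3
      exact h3
    have h3 := fact_four ht1 (by omega : 5 * t ≤ (m + 1))
    calc c * ((m + 1).choose t₁ * (K ^ ((m + 1) - d) * (G.filter fun σ => O σ = o).card))
        ≤ (4 ^ t * 2 ^ d) * ((m + 1).choose t₁ * (K ^ ((m + 1) - d) * ((m + 1) * Q.card))) := by
          gcongr
      _ = (4 ^ t * 2 ^ d) * ((m + 1).choose t₁ * ((m + 1) * (K ^ ((m + 1) - d) * Q.card))) := by ring
      _ ≤ (4 ^ t * 2 ^ d) * ((m + 1).choose t₁ * ((m + 1) * ((t.factorial * ((m + 1) - t).factorial) *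
          (K + 2) ^ (m + 1)))) := by gcongr
      _ = 2 ^ d * (m + 1) * (K + 2) ^ (m + 1) *
          (4 ^ t * (t.factorial * ((m + 1) - t).factorial) * (m + 1).choose t₁) := by ring
      _ ≤ 2 ^ d * (m + 1) * (K + 2) ^ (m + 1) * (4 ^ t₁ * (m + 1).factorial) := by gcongr
      _ = _ := by ring
  have hcard : G.card = ∑ o ∈ 𝒪, (G.filter fun σ => O σ = o).card :=
    card_eq_sum_card_image O G
  have hcpos : 0 < c := by positivity
  refine Nat.le_of_mul_le_mul_left (?_ : c * _ ≤ c * _) hcpos
  calc c * ((m + 1).choose t₁ * (K ^ (m + 1 - d)) ^ 2 * G.card)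
      = K ^ ((m + 1) - d) * ∑ o ∈ 𝒪, c * ((m + 1).choose t₁ *
          (K ^ ((m + 1) - d) * (G.filter fun σ => O σ = o).card)) := by
        rw [← mul_sum, ← mul_sum, ← mul_sum, ← hcard]; ring
    _ ≤ K ^ ((m + 1) - d) * ∑ o ∈ 𝒪, 4 ^ t₁ * 2 ^ d * (m + 1) * (K + 2) ^ (m + 1) * (m + 1).factorial := by
        refine Nat.mul_le_mul_left _ (sum_le_sum hone)
    _ = (K ^ ((m + 1) - d) * 𝒪.card) * (4 ^ t₁ * 2 ^ d * (m + 1) * (K + 2) ^ (m + 1) * (m + 1).factorial) := by
        rw [sum_const, smul_eq_mul]; ring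
    _ ≤ (c * (K + 1) ^ (m + 1)) * (4 ^ t₁ * 2 ^ d * (m + 1) * (K + 2) ^ (m + 1) * (m + 1).factorial) :=
        Nat.mul_le_mul_right _ hpat
    _ = _ := by rw [mul_pow (K + 1) (K + 2)]; ring

end Pool.Agent.T9h48.TSP
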