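import Pool.Agent.T9h48.SC.TropDefs

/-!
# Pure dynamic programming for the Euclidean travelling salesman problem: definitions
-/

open Finset
open scoped ENNReal

set_option autoImplicit false

namespace Pool.Agent.T9h48.TSP

open Pool.Agent.T9h48.SC

/-- The Euclidean distance of two points of `ℤ²`. -/
noncomputable def eucl (a b : ℤ × ℤ) : ℝ :=
  √(((a.1 - b.1 : ℤ) : ℝ) ^ 2 + ((a.2 - b.2 : ℤ) : ℝ) ^ 2)

/-- The length of the tour which visits the points in the order `p (τ 0)`, `p (τ 1)`, …,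
`p (τ (n - 1))`, `p (τ 0)`. -/
noncomputable def tourLen {n : ℕ} (p : Fin n → ℤ × ℤ) (τ : Equiv.Perm (Fin n)) : ℝ :=
  ∑ i, eucl (p (τ i)) (p (τ (finRotate n i)))

/-- The length of a shortest tour through the points `p 0`, …, `p (n - 1)`. -/
noncomputable def tsp {n : ℕ} (p : Fin n → ℤ × ℤ) : ℝ := ⨅ τ : Equiv.Perm (Fin n), tourLen p τ

/-- The input of the circuit: the exact distance of every pair of points. -/
noncomputable def dists {n : ℕ} (p : Fin n → ℤ × ℤ) (e : Fin n × Fin n) : ℝ≥0∞ :=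
  ENNReal.ofReal (eucl (p e.1) (p e.2))

/-- For all `n` distinct points of `{0, …, N}²` the output of the `(min, +)` circuit `C` on the table
of their distances is at least the length of a shortest tour and at most `ρ` times this length. -/
def Solves {n : ℕ} (C : TropCircuit (Fin n × Fin n)) (N : ℕ) (ρ : ℝ) : Prop :=
  ∀ p : Fin n → ℤ × ℤ, Function.Injective p →
    (∀ v, 0 ≤ (p v).1 ∧ (p v).1 ≤ N ∧ 0 ≤ (p v).2 ∧ (p v).2 ≤ N) →
    ∃ val, C.IsRun (dists p) val ∧
      ENNReal.ofReal (tsp p) ≤ TropCircuit.nodeVal (dists p) val C.out ∧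
      TropCircuit.nodeVal (dists p) val C.out ≤ ENNReal.ofReal (ρ * tsp p)

end Pool.Agent.T9h48.TSP
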