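import Pool.Agent.T9h48.TSP.Rect

/-!
# The size of exchangeable families of edge sets
-/

open Finset

set_option autoImplicit false

namespace Pool.Agent.T9h48.TSP

open Pool.Agent.T9h48.SC

variable {α : Type} [DecidableEq α]

open Classical in
/-- the partner of a vertex in a matching, other vertices are fixed -/
noncomputable def pm (A : Finset (Sym2 α)) (v : α) : α :=
  if h : ∃ w, s(v, w) ∈ A then h.choose else v

omit [DecidableEq α] in
lemma pm_mem {A : Finset (Sym2 α)} {v w : α} (h : s(v, w) ∈ A) : s(v, pm A v) ∈ A := by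
  have h1 : ∃ w, s(v, w) ∈ A := ⟨w, h⟩
  unfold pm
  rw [dif_pos h1]
  exact h1.choose_spec

lemma pm_eq {A : Finset (Sym2 α)} {v w : α} (h : s(v, w) ∈ A) (h1 : dg A v ≤ 1) : pm A v = w := by
  have h2 := pm_mem h
  rw [dg, card_le_one] at h1
  have h3 := h1 s(v, pm A v) (mem_filter.2 ⟨h2, Sym2.mem_mk_left _ _⟩) s(v, w)
    (mem_filter.2 ⟨h, Sym2.mem_mk_left _ _⟩)
  exact Sym2.congr_right.1 h3

omit [DecidableEq α] in
lemma pm_self {A : Finset (Sym2 α)} {v : α} (h : ∀ w, s(v, w) ∉ A) : pm A v = v := by
  unfold pm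
  rw [dif_neg]
  rintro ⟨w, hw⟩
  exact h w hw

lemma exists_edge {A : Finset (Sym2 α)} {v : α} (h : 1 ≤ dg A v) : ∃ w, s(v, w) ∈ A := by
  obtain ⟨e, he⟩ := card_pos.1 (show 0 < dg A v from h)
  rw [mem_filter] at he
  obtain ⟨w, rfl⟩ := he.2
  exact ⟨w, he.1⟩

section
variable {U : Finset α} {𝒜 : Fin 3 → Finset (Finset (Sym2 α))} {d : Fin 3 → α → ℕ}

lemma Rect.pm_one (h : Rect U 𝒜 d) {c : Fin 3} {A : Finset (Sym2 α)} (hA : A ∈ 𝒜 c) {v : α}
    (hv : v ∈ U) (hd : d c v = 1) : s(v, pm A v) ∈ A := by
  obtain ⟨w, hw⟩ := exists_edge (A := A) (v := v) (by rw [h.deg c A hA v hv, hd])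
  exact pm_mem hw

lemma Rect.pm_zero (h : Rect U 𝒜 d) {c : Fin 3} {A : Finset (Sym2 α)} (hA : A ∈ 𝒜 c) {v : α}
    (hv : v ∉ U ∨ d c v = 0) : pm A v = v := by
  refine pm_self fun w hw => ?_
  rcases hv with hv | hv
  · exact hv (h.sub c A hA _ hw v (Sym2.mem_mk_left _ _))
  · have hvU := h.sub c A hA _ hw v (Sym2.mem_mk_left _ _)
    have h1 := one_le_dg hw
    rw [h.deg c A hA v hvU, hv] at h1
    omega

open scoped Classical in
/-- the matchings of one part -/
lemma Rect.mt (h : Rect U 𝒜 d) {c : Fin 3} {W : Finset α} (hle : ∀ v ∈ U, d c v ≤ 1)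
    (hW : ∀ v, v ∈ W ↔ v ∈ U ∧ d c v = 1) : Mt W ((𝒜 c).image pm) := by
  have key : ∀ A ∈ 𝒜 c, ∀ v ∈ W, s(v, pm A v) ∈ A ∧ pm A v ∈ U := by
    intro A hA v hv
    rw [hW] at hv
    have h1 := h.pm_one hA hv.1 hv.2
    exact ⟨h1, h.sub c A hA _ h1 _ (Sym2.mem_mk_right _ _)⟩
  have hle' : ∀ A ∈ 𝒜 c, ∀ v ∈ U, dg A v ≤ 1 := by
    intro A hA v hv
    rw [h.deg c A hA v hv]
    exact hle v hv
  refine ⟨?_, ?_, ?_, ?_⟩
  · intro f hf v hv
    obtain ⟨A, hA, rfl⟩ := mem_image.1 hf
    obtain ⟨h1, h2⟩ := key A hA v hv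
    rw [hW]
    refine ⟨h2, le_antisymm (hle _ h2) ?_⟩
    rw [← h.deg c A hA _ h2]
    rw [Sym2.eq_swap] at h1
    exact one_le_dg h1
  · intro f hf v hv
    obtain ⟨A, hA, rfl⟩ := mem_image.1 hf
    obtain ⟨h1, h2⟩ := key A hA v hv
    intro h3
    rw [h3] at h1
    exact h.diag c A hA _ h1 rfl
  · intro f hf v hv
    obtain ⟨A, hA, rfl⟩ := mem_image.1 hf
    obtain ⟨h1, h2⟩ := key A hA v hv
    rw [Sym2.eq_swap] at h1
    exact pm_eq h1 (hle' A hA _ h2)
  · intro f hf g hg v hv
    obtain ⟨A, hA, rfl⟩ := mem_image.1 hf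
    obtain ⟨B, hB, rfl⟩ := mem_image.1 hg
    have h1 : v ∉ U ∨ d c v = 0 := by
      by_cases hvU : v ∈ U
      · right
        have := hle v hvU
        by_contra h2
        exact hv ((hW v).2 ⟨hvU, by omega⟩)
      · exact Or.inl hvU
    rw [h.pm_zero hA h1, h.pm_zero hB h1]

open scoped Classical in
lemma Rect.card_pm (h : Rect U 𝒜 d) {c : Fin 3} (hle : ∀ v ∈ U, d c v ≤ 1) :
    ((𝒜 c).image pm).card = (𝒜 c).card := by
  refine card_image_of_injOn ?_
  have key : ∀ A ∈ 𝒜 c, ∀ B ∈ 𝒜 c, pm A = pm B → A ⊆ B := by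
    intro A hA B hB hAB e he
    induction e using Sym2.ind with
    | _ v w =>
      have hvU := h.sub c A hA _ he v (Sym2.mem_mk_left _ _)
      have h1 : dg A v ≤ 1 := by
        rw [h.deg c A hA v hvU]
        exact hle v hvU
      have h2 := pm_eq he h1
      have h3 : d c v = 1 := by
        refine le_antisymm (hle v hvU) ?_
        rw [← h.deg c A hA v hvU]
        exact one_le_dg he
      have h4 := h.pm_one hB hvU h3
      rw [← hAB, h2] at h4
      exact h4
  intro A hA B hB hAB
  exact Subset.antisymm (key A hA B hB hAB) (key B hB A hA hAB.symm)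

open scoped Classical in
/-- the case without pure vertices -/
lemma Rect.mixed (h : Rect U 𝒜 d) (hle : ∀ v ∈ U, ∀ c, d c v ≤ 1) {x : α} (hx : x ∈ U)
    {i j k : Fin 3} (hc : ∀ c, c = i ∨ c = j ∨ c = k) (hij : i ≠ j) (hik : i ≠ k) (hjk : j ≠ k)
    (hxi : d i x = 1) (hxj : d j x = 1) :
    (𝒜 i).card * (𝒜 j).card * (𝒜 k).card ≤ Bd U.card := by
  have hsum : ∀ v ∈ U, d i v + d j v + d k v = 2 := by
    intro v hv
    have h1 := h.two v hv
    have h2 : (univ : Finset (Fin 3)) = {i, j, k} := by
      ext c
      simp [hc c]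
    rw [h2, sum_insert (by simp [hij, hik]), sum_insert (by simp [hjk]), sum_singleton] at h1
    omega
  have hxk : d k x = 0 := by
    have := hsum x hx
    omega
  have hst : St ((U.erase x).filter fun v => d k v = 0) ((U.erase x).filter fun v => d j v = 0)
      ((U.erase x).filter fun v => d i v = 0) x x ((𝒜 i).image pm) ((𝒜 j).image pm)
      ((𝒜 k).image pm) := by
    have hU : ((U.erase x).filter fun v => d k v = 0) ∪ ((U.erase x).filter fun v => d j v = 0) ∪
        ((U.erase x).filter fun v => d i v = 0) = U.erase x := by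
      ext v
      simp only [mem_union, mem_filter]
      constructor
      · rintro ((h1 | h1) | h1) <;> exact h1.1
      · intro h1
        have h2 := hsum v (mem_erase.1 h1).2
        have h3 := hle v (mem_erase.1 h1).2 i
        have h4 := hle v (mem_erase.1 h1).2 j
        have h5 := hle v (mem_erase.1 h1).2 k
        by_cases h6 : d k v = 0
        · exact Or.inl (Or.inl ⟨h1, h6⟩)
        · by_cases h7 : d j v = 0
          · exact Or.inl (Or.inr ⟨h1, h7⟩)
          · exact Or.inr ⟨h1, by omega⟩
    refine ⟨?_, ?_, ?_, ?_, ?_, ?_, ?_, ?_, ?_, ?_, ?_, ?_⟩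
    · rw [disjoint_left]
      intro v h1 h2
      rw [mem_filter] at h1 h2
      have h3 := hsum v (mem_erase.1 h1.1).2
      have h4 := hle v (mem_erase.1 h1.1).2 i
      omega
    · rw [disjoint_left]
      intro v h1 h2
      rw [mem_filter] at h1 h2
      have h3 := hsum v (mem_erase.1 h1.1).2
      have h4 := hle v (mem_erase.1 h1.1).2 j
      omega
    · rw [disjoint_left]
      intro v h1 h2
      rw [mem_filter] at h1 h2
      have h3 := hsum v (mem_erase.1 h1.1).2
      have h4 := hle v (mem_erase.1 h1.1).2 k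
      omega
    · rw [hU]; exact notMem_erase _ _
    · rw [hU]; exact notMem_erase _ _
    · refine h.mt (fun v hv => hle v hv i) fun v => ?_
      simp only [mem_insert, mem_union, mem_filter, mem_erase]
      constructor
      · rintro (rfl | ⟨⟨h1, h2⟩, h3⟩ | ⟨⟨h1, h2⟩, h3⟩)
        · exact ⟨hx, hxi⟩
        · have h4 := hsum v h2
          have h5 := hle v h2 j
          have h6 := hle v h2 i
          exact ⟨h2, by omega⟩
        · have h4 := hsum v h2
          have h5 := hle v h2 k
          have h6 := hle v h2 i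
          exact ⟨h2, by omega⟩
      · rintro ⟨h1, h2⟩
        by_cases h3 : v = x
        · exact Or.inl h3
        · have h4 := hsum v h1
          by_cases h5 : d k v = 0
          · exact Or.inr (Or.inl ⟨⟨h3, h1⟩, h5⟩)
          · exact Or.inr (Or.inr ⟨⟨h3, h1⟩, by omega⟩)
    · refine h.mt (fun v hv => hle v hv j) fun v => ?_
      simp only [mem_insert, mem_union, mem_filter, mem_erase]
      constructor
      · rintro (rfl | ⟨⟨h1, h2⟩, h3⟩ | ⟨⟨h1, h2⟩, h3⟩)
        · exact ⟨hx, hxj⟩
        · have h4 := hsum v h2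
          have h5 := hle v h2 i
          have h6 := hle v h2 j
          exact ⟨h2, by omega⟩
        · have h4 := hsum v h2
          have h5 := hle v h2 k
          have h6 := hle v h2 j
          exact ⟨h2, by omega⟩
      · rintro ⟨h1, h2⟩
        by_cases h3 : v = x
        · exact Or.inl h3
        · have h4 := hsum v h1
          by_cases h5 : d k v = 0
          · exact Or.inr (Or.inl ⟨⟨h3, h1⟩, h5⟩)
          · exact Or.inr (Or.inr ⟨⟨h3, h1⟩, by omega⟩)
    · refine h.mt (fun v hv => hle v hv k) fun v => ?_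
      simp only [mem_union, mem_filter, mem_erase]
      constructor
      · rintro (⟨⟨h1, h2⟩, h3⟩ | ⟨⟨h1, h2⟩, h3⟩)
        · have h4 := hsum v h2
          have h5 := hle v h2 i
          have h6 := hle v h2 k
          exact ⟨h2, by omega⟩
        · have h4 := hsum v h2
          have h5 := hle v h2 j
          have h6 := hle v h2 k
          exact ⟨h2, by omega⟩
      · rintro ⟨h1, h2⟩
        have h3 : v ≠ x := by
          rintro rfl
          omega
        have h4 := hsum v h1
        by_cases h5 : d j v = 0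
        · exact Or.inl ⟨⟨h3, h1⟩, h5⟩
        · exact Or.inr ⟨⟨h3, h1⟩, by omega⟩
    · intro f hf v hv
      obtain ⟨A, hA, rfl⟩ := mem_image.1 hf
      exact h.pm_zero hA (Or.inr (mem_filter.1 hv).2)
    · intro f hf v hv
      obtain ⟨A, hA, rfl⟩ := mem_image.1 hf
      exact h.pm_zero hA (Or.inr (mem_filter.1 hv).2)
    · intro f hf v hv
      obtain ⟨A, hA, rfl⟩ := mem_image.1 hf
      exact h.pm_zero hA (Or.inr (mem_filter.1 hv).2)
    · intro f hf g hg k' hk S hS hne
      rw [hU] at hS
      obtain ⟨A, hA, rfl⟩ := mem_image.1 hf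
      obtain ⟨B, hB, rfl⟩ := mem_image.1 hg
      obtain ⟨C, hC, rfl⟩ := mem_image.1 hk
      set X : Fin 3 → Finset (Sym2 α) := fun c => if c = i then A else if c = j then B else C
        with hX
      have hXi : X i = A := by simp [hX]
      have hXj : X j = B := by simp [hX, hij.symm]
      have hXk : X k = C := by simp [hX, hik.symm, hjk.symm]
      have hXm : ∀ c, X c ∈ 𝒜 c := by
        intro c
        rcases hc c with rfl | rfl | rfl
        · rw [hXi]; exact hA
        · rw [hXj]; exact hB
        · rw [hXk]; exact hC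
      obtain ⟨c, v, hv, y, hy, he⟩ := h.conn X hXm S (hS.trans (erase_subset _ _)) hne (by
        intro h1
        rw [← h1] at hx
        exact (mem_erase.1 (hS hx)).1 rfl)
      have hvU := (mem_erase.1 (hS hv)).2
      have h2 : pm (X c) v = y := pm_eq he (by rw [h.deg c _ (hXm c) v hvU]; exact hle v hvU c)
      refine ⟨v, hv, ?_⟩
      rcases hc c with rfl | rfl | rfl
      · rw [hXi] at h2; left; rw [h2]; exact hy
      · rw [hXj] at h2; right; left; rw [h2]; exact hy
      · rw [hXk] at h2; right; right; rw [h2]; exact hy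
  have hUc : ((U.erase x).filter fun v => d k v = 0).card +
      ((U.erase x).filter fun v => d j v = 0).card + ((U.erase x).filter fun v => d i v = 0).card =
      U.card - 1 := by
    rw [← card_erase_of_mem hx, ← card_union_of_disjoint hst.dAB,
      ← card_union_of_disjoint (disjoint_union_left.2 ⟨hst.dAC, hst.dBC⟩)]
    congr 1
    ext v
    simp only [mem_union, mem_filter]
    constructor
    · rintro ((h1 | h1) | h1) <;> exact h1.1
    · intro h1
      have h2 := hsum v (mem_erase.1 h1).2
      have h3 := hle v (mem_erase.1 h1).2 i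
      have h4 := hle v (mem_erase.1 h1).2 j
      have h5 := hle v (mem_erase.1 h1).2 k
      by_cases h6 : d k v = 0
      · exact Or.inl (Or.inl ⟨h1, h6⟩)
      · by_cases h7 : d j v = 0
        · exact Or.inl (Or.inr ⟨h1, h7⟩)
        · exact Or.inr ⟨h1, by omega⟩
  have h1 := St.bound _ _ _ _ _ _ _ _ _ hst hUc
  rw [h.card_pm fun v hv => hle v hv i, h.card_pm fun v hv => hle v hv j,
    h.card_pm fun v hv => hle v hv k] at h1
  have h2 : U.card - 1 + 1 = U.card := by
    have := card_pos.2 ⟨x, hx⟩
    omega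
  rwa [h2] at h1

/-- **The size of exchangeable families.** -/
theorem rect_bound (n : ℕ) : ∀ (U : Finset α) (𝒜 : Fin 3 → Finset (Finset (Sym2 α)))
    (d : Fin 3 → α → ℕ) (T : ℕ), Rect U 𝒜 d → U.card = n → (∃ x ∈ U, ∀ c, d c x ≤ 1) →
    n ≤ 2 * T → T ≤ n → (∀ c, ∑ v ∈ U, d c v ≤ 2 * T) →
    ∏ c, (𝒜 c).card ≤ T.factorial * (n - T).factorial := by
  induction n with
  | zero =>
    intro U 𝒜 d T _ hU hx
    obtain ⟨x, hx, _⟩ := hx
    rw [card_eq_zero] at hU
    rw [hU] at hx
    exact absurd hx (notMem_empty x)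
  | succ n ih =>
    intro U 𝒜 d T h hU hx hT1 hT2 hT3
    by_cases hne : ∀ c, (𝒜 c).Nonempty
    · by_cases hpure : ∃ u ∈ U, ∃ i, d i u = 2
      · obtain ⟨u, hu, i, hui⟩ := hpure
        obtain ⟨𝒜', h', hcard⟩ := h.suppress hne hx hu hui
        have hU' : (U.erase u).card = n := by rw [card_erase_of_mem hu, hU]; rfl
        obtain ⟨x, hxU, hx1⟩ := hx
        have hxu : x ≠ u := by
          rintro rfl
          have := hx1 i
          omega
        have hx' : ∃ x ∈ U.erase u, ∀ c, d c x ≤ 1 := ⟨x, mem_erase.2 ⟨hxu, hxU⟩, hx1⟩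
        have hsum : ∀ c, d c u + ∑ v ∈ U.erase u, d c v = ∑ v ∈ U, d c v := fun c =>
          add_sum_erase U (fun v => d c v) hu
        have htot : ∑ c, ∑ v ∈ U, d c v = 2 * (n + 1) := by
          rw [sum_comm, sum_congr rfl fun v hv => h.two v hv, sum_const, hU, smul_eq_mul, mul_comm]
        have hi := hsum i
        rw [hui] at hi
        by_cases hT : n ≤ 2 * (T - 1) ∧ (∀ c, ∑ v ∈ U.erase u, d c v ≤ 2 * (T - 1)) ∧ 1 ≤ T
        · have h1 := ih (U.erase u) 𝒜' d (T - 1) h' hU' hx' hT.1 (by omega) hT.2.1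
          have h2 : (∑ v ∈ U, d i v) - 2 ≤ 2 * T := by
            have := hT3 i
            omega
          have h3 : n - (T - 1) = n + 1 - T := by omega
          have h4 : T.factorial = T * (T - 1).factorial := by
            obtain ⟨t, rfl⟩ := Nat.exists_eq_add_of_le hT.2.2
            rw [show 1 + t - 1 = t by omega, show 1 + t = t + 1 by omega, Nat.factorial_succ]
          refine Nat.le_of_mul_le_mul_left (?_ : 2 * _ ≤ 2 * _) (by norm_num)
          calc 2 * ∏ c, (𝒜 c).card ≤ ((∑ v ∈ U, d i v) - 2) * ∏ c, (𝒜' c).card := hcard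
            _ ≤ (2 * T) * ((T - 1).factorial * (n - (T - 1)).factorial) := Nat.mul_le_mul h2 h1
            _ = _ := by rw [h3, h4]; ring
        · have hTn : T ≤ n ∧ (∑ v ∈ U, d i v) - 2 ≤ 2 * (n + 1 - T) := by
            have hT0 : 1 ≤ T := by omega
            by_cases hc1 : n ≤ 2 * (T - 1)
            · have hc2 : ¬ ∀ c, ∑ v ∈ U.erase u, d c v ≤ 2 * (T - 1) := fun h1 => hT ⟨hc1, h1, hT0⟩
              push Not at hc2
              obtain ⟨j, hj⟩ := hc2
              have hji : j ≠ i := by
                rintro rfl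
                have := hT3 j
                omega
              have hj2 := hsum j
              rw [d_le_of_two (h.two u hu) hui hji, zero_add] at hj2
              have hj3 : (∑ v ∈ U, d i v) + ∑ v ∈ U, d j v ≤ 2 * (n + 1) := by
                rw [← htot, ← sum_pair (f := fun c => ∑ v ∈ U, d c v) hji.symm]
                exact sum_le_sum_of_subset (subset_univ _)
              omega
            · have := hT3 i
              omega
          have h1 := ih (U.erase u) 𝒜' d T h' hU' hx' (by omega) hTn.1 (fun c => by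
            have e1 := hT3 c
            have e2 := hsum c
            omega)
          have h4 : (n + 1 - T).factorial = (n + 1 - T) * (n - T).factorial := by
            rw [show n + 1 - T = (n - T) + 1 by omega, Nat.factorial_succ]
          refine Nat.le_of_mul_le_mul_left (?_ : 2 * _ ≤ 2 * _) (by norm_num)
          calc 2 * ∏ c, (𝒜 c).card ≤ ((∑ v ∈ U, d i v) - 2) * ∏ c, (𝒜' c).card := hcard
            _ ≤ (2 * (n + 1 - T)) * (T.factorial * (n - T).factorial) := Nat.mul_le_mul hTn.2 h1
            _ = _ := by rw [h4]; ring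
      · -- no pure vertices
        push Not at hpure
        have hle : ∀ v ∈ U, ∀ c, d c v ≤ 1 := by
          intro v hv c
          have h1 : d c v ≤ 2 := by
            rw [← h.two v hv]
            exact single_le_sum (f := fun c => d c v) (fun _ _ => Nat.zero_le _) (mem_univ c)
          have := hpure v hv c
          omega
        obtain ⟨x, hxU, hx1⟩ := hx
        have h2 := h.two x hxU
        rw [Fin.sum_univ_three] at h2
        have hB : Bd (n + 1) ≤ T.factorial * (n + 1 - T).factorial := by
          unfold Bd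
          have h3 := fact_two' (x := (n + 1) / 2) (y := (n + 1 + 1) / 2) (τ := T) (by omega)
            (by omega) (by omega)
          rwa [show (n + 1) / 2 + (n + 1 + 1) / 2 - T = n + 1 - T by omega] at h3
        have e0 := hx1 0
        have e1 := hx1 1
        have e2 := hx1 2
        rw [Fin.prod_univ_three]
        by_cases h5 : d 2 x = 0
        · have h6 := h.mixed hle hxU (i := 0) (j := 1) (k := 2) (by decide) (by decide)
            (by decide) (by decide) (by omega) (by omega)
          rw [hU] at h6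
          exact h6.trans hB
        · by_cases h7 : d 1 x = 0
          · have h6 := h.mixed hle hxU (i := 0) (j := 2) (k := 1) (by decide) (by decide)
              (by decide) (by decide) (by omega) (by omega)
            rw [hU] at h6
            refine le_trans (le_of_eq ?_) (h6.trans hB)
            ring
          · have h6 := h.mixed hle hxU (i := 1) (j := 2) (k := 0) (by decide) (by decide)
              (by decide) (by decide) (by omega) (by omega)
            rw [hU] at h6
            refine le_trans (le_of_eq ?_) (h6.trans hB)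
            ring
    · push Not at hne
      obtain ⟨c, hc⟩ := hne
      rw [prod_eq_zero (mem_univ c) (by rw [hc, card_empty])]
      exact Nat.zero_le _

end

end Pool.Agent.T9h48.TSP
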