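import Pool.Agent.T9h48.TSP.Local
import Pool.Agent.T9h48.TSP.RectBound

/-!
# From multisets of pairs to edge sets
-/

open Finset

set_option autoImplicit false

namespace Pool.Agent.T9h48.TSP

variable {n : ℕ}

/-- the edges of a multiset of pairs, as a multiset -/
def edm (X : Multiset (Fin n × Fin n)) : Multiset (Sym2 (Fin n)) :=
  (X.filter fun e => e.1 ≠ e.2).map fun e => s(e.1, e.2)

/-- the edges of a multiset of pairs -/
def ed (X : Multiset (Fin n × Fin n)) : Finset (Sym2 (Fin n)) := (edm X).toFinset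

lemma mem_ed {X : Multiset (Fin n × Fin n)} {e : Sym2 (Fin n)} :
    e ∈ ed X ↔ ∃ p ∈ X, p.1 ≠ p.2 ∧ s(p.1, p.2) = e := by
  unfold ed edm
  rw [Multiset.mem_toFinset, Multiset.mem_map]
  constructor
  · rintro ⟨p, hp, h⟩
    rw [Multiset.mem_filter] at hp
    exact ⟨p, hp.1, hp.2, h⟩
  · rintro ⟨p, hp, h1, h2⟩
    exact ⟨p, Multiset.mem_filter.2 ⟨hp, h1⟩, h2⟩

lemma S_pos_of_mem {V : Type} {M : Multiset V} {f : V → ℕ} {e : V} (he : e ∈ M) (h : 1 ≤ f e) :
    1 ≤ S M f :=
  h.trans (Multiset.single_le_sum (fun _ _ => Nat.zero_le _) _ (Multiset.mem_map_of_mem f he))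

lemma exists_of_S_pos {V : Type} {M : Multiset V} {f : V → ℕ} (h : 1 ≤ S M f) :
    ∃ e ∈ M, 1 ≤ f e := by
  by_contra hcon
  push Not at hcon
  have h1 : S M f = 0 := by
    unfold S
    rw [Multiset.sum_eq_zero_iff]
    intro x hx
    obtain ⟨e, he, rfl⟩ := Multiset.mem_map.1 hx
    have := hcon e he
    omega
  omega

lemma S_eq_countP {V : Type} (M : Multiset V) (p : V → Prop) [DecidablePred p] :
    S M (fun e => if p e then 1 else 0) = M.countP p := by
  induction M using Multiset.induction with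
  | empty => simp [S]
  | cons a M ih =>
    unfold S at ih ⊢
    rw [Multiset.map_cons, Multiset.sum_cons, ih, Multiset.countP_cons, add_comm]

lemma edm_count (X : Multiset (Fin n × Fin n)) {x y : Fin n} (h : x ≠ y) :
    (edm X).count s(x, y) = S X (jn x y) := by
  unfold edm jn
  rw [S_eq_countP, Multiset.count_map, ← Multiset.countP_eq_card_filter, Multiset.countP_filter]
  refine Multiset.countP_congr rfl fun e _ => ?_
  simp only [eq_iff_iff]
  rw [Sym2.eq_iff]
  constructor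
  · rintro ⟨h1, h2⟩
    rcases h1 with ⟨h1, h3⟩ | ⟨h1, h3⟩
    · exact Or.inl ⟨h1.symm, h3.symm⟩
    · exact Or.inr ⟨h3.symm, h1.symm⟩
  · rintro (⟨h1, h2⟩ | ⟨h1, h2⟩)
    · exact ⟨Or.inl ⟨h1.symm, h2.symm⟩, by rw [h1, h2]; exact h⟩
    · exact ⟨Or.inr ⟨h2.symm, h1.symm⟩, by rw [h1, h2]; exact h.symm⟩

lemma edm_nodup {X : Multiset (Fin n × Fin n)} (h : ∀ x y : Fin n, x ≠ y → S X (jn x y) ≤ 1) :
    (edm X).Nodup := by
  rw [Multiset.nodup_iff_count_le_one]
  intro e
  induction e using Sym2.ind with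
  | _ x y =>
    by_cases hxy : x = y
    · subst hxy
      have h1 : s(x, x) ∉ edm X := by
        intro h2
        unfold edm at h2
        obtain ⟨p, hp, h3⟩ := Multiset.mem_map.1 h2
        rw [Multiset.mem_filter] at hp
        rw [Sym2.eq_iff] at h3
        rcases h3 with ⟨h3, h4⟩ | ⟨h3, h4⟩ <;> exact hp.2 (h3.trans h4.symm)
      rw [Multiset.count_eq_zero_of_notMem h1]
      exact Nat.zero_le _
    · rw [edm_count X hxy]
      exact h x y hxy

lemma ed_dg {X : Multiset (Fin n × Fin n)} (h : ∀ x y : Fin n, x ≠ y → S X (jn x y) ≤ 1)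
    (u : Fin n) : dg (ed X) u = S X (inc u) := by
  have h1 : dg (ed X) u = Multiset.card ((edm X).filter fun e => u ∈ e) := by
    unfold dg ed
    rw [← Multiset.toFinset_filter, Multiset.toFinset_card_of_nodup ((edm_nodup h).filter _)]
  rw [h1, ← Multiset.countP_eq_card_filter]
  unfold edm inc
  rw [S_eq_countP, Multiset.countP_map, ← Multiset.countP_eq_card_filter, Multiset.countP_filter]
  refine Multiset.countP_congr rfl fun e _ => ?_
  simp only [eq_iff_iff]
  rw [Sym2.mem_iff]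
  constructor
  · rintro ⟨h1, h2⟩
    exact ⟨h2, h1.imp Eq.symm Eq.symm⟩
  · rintro ⟨h1, h2⟩
    exact ⟨h2.imp Eq.symm Eq.symm, h1⟩

end Pool.Agent.T9h48.TSP
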