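import Pool.Agent.T9h48.TSP.Poly2
import Pool.Agent.T9h48.TSP.Edges

/-!
# The exact lower bound
-/

open Finset
open scoped ENNReal

set_option autoImplicit false

namespace Pool.Agent.T9h48.TSP

open Pool.Agent.T9h48.SC

section
variable {n : ℕ}

lemma jn_symm (x y : Fin n) (e : Fin n × Fin n) : jn x y e = jn y x e := by
  unfold jn
  simp only [or_comm]

/-- the light multigraph is the cycle -/
lemma tour_structure (q : Equiv.Perm (Fin n)) (hq1 : ∀ w, q w ≠ w) (hq2 : ∀ w, q (q w) ≠ w)
    (M : Multiset (Fin n × Fin n)) (hcut1 : ∀ u, 2 ≤ S M (inc u))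
    (hcut2 : ∀ u v, u ≠ v → 2 ≤ S M (cross (fun x => decide (x = u ∨ x = v))))
    (hlight : 20 * S M nl + 8 * S M (long q) ≤ 20 * n + 5) :
    S M nl = n ∧ S M (long q) = 0 ∧ (∀ u, S M (inc u) = 2) ∧ (∀ u, S M (jn (q u) u) = 1) := by
  have hsum : ∑ u, S M (inc u) = 2 * S M nl := by
    rw [S_sum, ← S_mul]
    exact congrArg (S M) (funext sum_inc)
  have h1 : 2 * n ≤ 2 * S M nl := by
    rw [← hsum]
    calc 2 * n = ∑ _u : Fin n, 2 := by
          rw [sum_const, card_univ, Fintype.card_fin, smul_eq_mul, mul_comm]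
      _ ≤ _ := sum_le_sum fun u _ => hcut1 u
  have h2 : S M nl = n := by omega
  have h3 : S M (long q) = 0 := by omega
  have h4 : ∀ u, S M (inc u) = 2 := by
    intro u
    by_contra hne
    have h5 : 3 ≤ S M (inc u) := by
      have := hcut1 u
      omega
    have h6 : ∑ _u : Fin n, 2 < ∑ u, S M (inc u) :=
      sum_lt_sum (fun u _ => hcut1 u) ⟨u, mem_univ u, h5⟩
    rw [sum_const, card_univ, Fintype.card_fin, smul_eq_mul, hsum] at h6
    omega
  have hlongAt : ∀ u, S M (longAt q u) = 0 := by
    intro u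
    have h5 : S M (longAt q u) ≤ S M (long q) := S_mono M fun e => by
      unfold longAt long
      split_ifs with h6 h7 h7
      · exact le_rfl
      · exact absurd h6.1 h7
      · exact Nat.zero_le _
      · exact le_rfl
    omega
  have hcr : ∀ u v, u ≠ v → S M (jn u v) ≤ 1 := by
    intro u v huv
    have h5 : S M (cross (fun x => decide (x = u ∨ x = v))) + 2 * S M (jn u v) =
        S M (inc u) + S M (inc v) := by
      rw [← S_mul, ← S_lin, ← S_lin]
      exact congrArg (S M) (funext (cross_two huv))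
    have h6 := hcut2 u v huv
    have h7 := h4 u
    have h8 := h4 v
    omega
  refine ⟨h2, h3, h4, fun u => ?_⟩
  have h5 : S M (inc u) = S M (jn (q u) u) + S M (jn u (q.symm u)) + S M (longAt q u) := by
    rw [← S_lin, ← S_lin]
    exact congrArg (S M) (funext (inc_eq q hq1 hq2 u))
  have h6 := hcr (q u) u (hq1 u)
  have h7 := hcr u (q.symm u) (fun h => hq1 u (by rw [Equiv.eq_symm_apply] at h; exact h))
  have h8 := h4 u
  have h9 := hlongAt u
  omega

/-- every pair occurs at most once -/
lemma jn_le_one (q : Equiv.Perm (Fin n)) (M : Multiset (Fin n × Fin n))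
    (h0 : S M (long q) = 0) (h1 : ∀ u, S M (jn (q u) u) = 1) (x y : Fin n) (hxy : x ≠ y) :
    S M (jn x y) ≤ 1 := by
  by_cases hx : x = q y
  · subst hx
    exact (h1 y).le
  · by_cases hy : y = q x
    · subst hy
      rw [show jn x (q x) = jn (q x) x from funext (jn_symm x (q x))]
      exact (h1 x).le
    · have h2 : S M (jn x y) ≤ S M (long q) := S_mono M fun e => by
        unfold jn long
        split_ifs with h3 h4 h4
        · exact le_rfl
        · exfalso
          apply h4
          rcases h3 with ⟨h3, h5⟩ | ⟨h3, h5⟩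
          · rw [h3, h5]; exact ⟨hxy, hx, hy⟩
          · rw [h3, h5]; exact ⟨hxy.symm, hy, hx⟩
        · exact Nat.zero_le _
        · exact le_rfl
      omega
end

/-- the cyclic order is determined by the sides, one vertex and the side where it starts -/
lemma perm_det {m : ℕ} {E : Finset (Sym2 (Fin (m + 1)))} {σ σ' : Equiv.Perm (Fin (m + 1))}
    (h : ∀ x y, s(x, y) ∈ E → x = prd σ y ∨ y = prd σ x) (h' : ∀ i : Fin (m + 1),
      s(σ'.symm i, σ'.symm (i + 1)) ∈ E) (h0 : σ.symm 0 = σ'.symm 0)
    (h1 : σ.symm 1 = σ'.symm 1) (hm : 7 ≤ m) : σ = σ' := by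
  have h2 : ∀ k : Fin (m + 1), σ.symm k = σ'.symm k ∧ σ.symm (k + 1) = σ'.symm (k + 1) := by
    intro k
    induction k using Fin.induction with
    | zero => exact ⟨h0, by rw [zero_add]; exact h1⟩
    | succ k ih =>
      rw [← Fin.coeSucc_eq_succ]
      obtain ⟨i1, i2⟩ := ih
      refine ⟨i2, ?_⟩
      set j := k.castSucc with hj
      have h3 := h' (j + 1)
      rcases h _ _ h3 with h4 | h4
      · rw [prd_apply, ← i2, Equiv.symm_apply_eq] at h4
        rw [Equiv.apply_symm_apply] at h4
        have h5 : σ (σ'.symm (j + 1 + 1)) = j + 1 + 1 := sub_eq_iff_eq_add.1 h4.symm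
        rw [Equiv.symm_apply_eq]
        exact h5.symm
      · rw [prd_apply, ← i2, Equiv.apply_symm_apply, add_sub_cancel_right] at h4
        rw [i1] at h4
        have h5 := σ'.symm.injective h4
        exfalso
        have h6 := congrArg Fin.val h5
        rw [val_succ', val_succ'] at h6
        split_ifs at h6 <;> omega
  have h3 : σ.symm = σ'.symm := by
    ext1 k
    exact (h2 k).1
  have h4 := congrArg Equiv.symm h3
  simpa using h4

end Pool.Agent.T9h48.TSP
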