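import Pool.Agent.T9h48.TSP.Exact

/-!
# The exact lower bound: the main theorem
-/

open Finset
open scoped ENNReal

set_option autoImplicit false

namespace Pool.Agent.T9h48.TSP

open Pool.Agent.T9h48.SC

section
variable {m : ℕ}

lemma mem_ed_of_jn {M : Multiset (Fin (m + 1) × Fin (m + 1))} {x y : Fin (m + 1)} (hxy : x ≠ y)
    (h : 1 ≤ S M (jn x y)) : s(x, y) ∈ ed M := by
  obtain ⟨p, hp, h1⟩ := exists_of_S_pos h
  rw [mem_ed]
  refine ⟨p, hp, ?_⟩
  unfold jn at h1
  split_ifs at h1 with h2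
  · rcases h2 with ⟨h2, h3⟩ | ⟨h2, h3⟩
    · rw [h2, h3]; exact ⟨hxy, rfl⟩
    · rw [h2, h3]; exact ⟨hxy.symm, Sym2.eq_swap⟩
  · omega

lemma side_of_mem_ed {M : Multiset (Fin (m + 1) × Fin (m + 1))}
    {q : Equiv.Perm (Fin (m + 1))} (h : S M (long q) = 0) {x y : Fin (m + 1)}
    (hxy : s(x, y) ∈ ed M) : x = q y ∨ y = q x := by
  rw [mem_ed] at hxy
  obtain ⟨p, hp, h1, h2⟩ := hxy
  by_contra hcon
  push Not at hcon
  have h3 : 1 ≤ long q p := by
    unfold long
    rw [if_pos]
    rw [Sym2.eq_iff] at h2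
    rcases h2 with ⟨h2, h3⟩ | ⟨h2, h3⟩
    · rw [h2, h3]
      rw [h2, h3] at h1
      exact ⟨h1, hcon.1, hcon.2⟩
    · rw [h2, h3]
      rw [h2, h3] at h1
      exact ⟨h1, hcon.2, hcon.1⟩
  have h4 := S_pos_of_mem hp h3
  omega

lemma ed_add (X Y : Multiset (Fin (m + 1) × Fin (m + 1))) (e : Sym2 (Fin (m + 1))) :
    e ∈ ed (X + Y) ↔ e ∈ ed X ∨ e ∈ ed Y := by
  simp only [mem_ed, Multiset.mem_add]
  constructor
  · rintro ⟨p, hp | hp, h⟩
    · exact Or.inl ⟨p, hp, h⟩
    · exact Or.inr ⟨p, hp, h⟩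
  · rintro (⟨p, hp, h⟩ | ⟨p, hp, h⟩)
    · exact ⟨p, Or.inl hp, h⟩
    · exact ⟨p, Or.inr hp, h⟩

end

/-- **The exact lower bound.** -/
theorem exact_bound {m : ℕ} (hm : 7 ≤ m) (C : TropCircuit (Fin (m + 1) × Fin (m + 1)))
    (hC : Solves C (4 * (m + 1) ^ 2) 1) :
    (m + 1).choose ((m + 2) / 2) ≤ 2 * (m + 1) * C.numAdd := by
  classical
  set T := (m + 2) / 2 with hT
  choose M c hM hc hlight using light2 hm (N := 4 * (m + 1) ^ 2) (by nlinarith) hC
  set ρ : ℝ := 2 * (m + 1) + 1 / 2 with hρ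
  have hρ0 : 0 ≤ ρ := by positivity
  -- cuts
  have hcut : ∀ X x, PC C C.out X x → S X nl ≤ 3 * (m + 1) →
      x ≤ ENNReal.ofReal (ρ + ρ + ρ) → ∀ χ : Fin (m + 1) → Bool, (∃ u, χ u = true) →
      (∃ u, χ u = false) → 2 ≤ S X (cross χ) := by
    intro X x hX hX1 hX2 χ ⟨_, h0⟩ ⟨_, h1⟩
    refine cut_lemma hC hX (by positivity) hX2 (D := 4 * (m + 1) ^ 2) le_rfl (by nlinarith) ?_ χ
      h0 h1
    have e1 : (S X nl : ℝ) ≤ 3 * (m + 1) := by exact_mod_cast hX1
    have e3 : (7 : ℝ) ≤ m := by exact_mod_cast hm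
    have e5 : (S X nl : ℝ) * (m + 1) ≤ (3 * (m + 1)) * (m + 1) :=
      mul_le_mul_of_nonneg_right e1 (by positivity)
    push_cast
    rw [hρ]
    nlinarith
  have hinc : ∀ X x, PC C C.out X x → S X nl ≤ 3 * (m + 1) →
      x ≤ ENNReal.ofReal (ρ + ρ + ρ) → ∀ u, 2 ≤ S X (inc u) := by
    intro X x hX hX1 hX2 u
    rw [show inc u = cross (fun x => decide (x = u)) from funext (inc_eq_cross u)]
    refine hcut X x hX hX1 hX2 _ ⟨u, by simp⟩ ⟨u + 1, ?_⟩
    rw [decide_eq_false_iff_not]
    intro h1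
    have h2 := congrArg Fin.val h1
    rw [val_succ'] at h2
    split_ifs at h2 <;> omega
  have hpair : ∀ X x, PC C C.out X x → S X nl ≤ 3 * (m + 1) →
      x ≤ ENNReal.ofReal (ρ + ρ + ρ) → ∀ u v : Fin (m + 1), u ≠ v →
      2 ≤ S X (cross (fun x => decide (x = u ∨ x = v))) := by
    intro X x hX hX1 hX2 u v _
    refine hcut X x hX hX1 hX2 _ ⟨u, by simp⟩ ?_
    have h1 : ({u, v} : Finset (Fin (m + 1))).card < (univ : Finset (Fin (m + 1))).card := by
      rw [card_univ, Fintype.card_fin]
      exact lt_of_le_of_lt (card_le_two) (by omega)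
    obtain ⟨x, _, hx⟩ := exists_mem_notMem_of_card_lt_card h1
    refine ⟨x, ?_⟩
    rw [mem_insert, mem_singleton] at hx
    simpa using hx
  have hMnl' : ∀ σ, S (M σ) nl ≤ 3 * (m + 1) := fun σ => by
    have := hlight σ
    omega
  have hMc : ∀ σ, c σ ≤ ENNReal.ofReal (ρ + ρ + ρ) := fun σ =>
    (hc σ).trans (ENNReal.ofReal_le_ofReal (by linarith))
  have hstr := fun σ => tour_structure (prd σ) (prd_ne hm σ) (prd_prd_ne hm σ) (M σ)
    (hinc _ _ (hM σ) (hMnl' σ) (hMc σ)) (hpair _ _ (hM σ) (hMnl' σ) (hMc σ)) (hlight σ)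
  have hMnl := fun σ => (hstr σ).1
  have hMlong := fun σ => (hstr σ).2.1
  have hMinc := fun σ => (hstr σ).2.2.1
  have hMside := fun σ => (hstr σ).2.2.2
  have hsplit := fun σ => PC.heavy nl (fun v => by unfold nl; split_ifs <;> omega) (hM σ)
    (τ := T) (by omega) 0 0 CC.out (show T < S (M σ) nl by rw [hMnl σ]; omega)
  choose g hg M1 M2 R c1 c2 c3 h1 h2 h3 h4 h4' h5 h6 h7 using hsplit
  simp only [add_zero] at h4 h4'
  -- the parts
  set P : Equiv.Perm (Fin (m + 1)) → Fin 3 → Multiset (Fin (m + 1) × Fin (m + 1)) :=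
    fun σ => ![M1 σ, M2 σ, R σ] with hP
  set k : Equiv.Perm (Fin (m + 1)) → Fin 3 → ℝ≥0∞ := fun σ => ![c1 σ, c2 σ, c3 σ] with hk
  have hPM : ∀ σ, P σ 0 + P σ 1 + P σ 2 = M σ := fun σ => h4 σ
  have hkc : ∀ σ, k σ 0 + k σ 1 + k σ 2 = c σ := fun σ => h4' σ
  have hSM : ∀ σ f, S (P σ 0) f + S (P σ 1) f + S (P σ 2) f = S (M σ) f := by
    intro σ f
    rw [← hPM, S_add, S_add]
  have hSle : ∀ σ j f, S (P σ j) f ≤ S (M σ) f := by
    intro σ j f
    have := hSM σ f
    fin_cases j
    · change S (P σ 0) f ≤ _; omega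
    · change S (P σ 1) f ≤ _; omega
    · change S (P σ 2) f ≤ _; omega
  have hsize : ∀ σ j, S (P σ j) nl ≤ T := by
    intro σ j
    have e1 := hSM σ nl
    have e2 : S (P σ 0) nl ≤ T := h5 σ
    have e3 : S (P σ 1) nl ≤ T := h6 σ
    have e4 : T < S (P σ 0) nl + S (P σ 1) nl := h7 σ
    have e5 := hMnl σ
    fin_cases j
    · exact e2
    · exact e3
    · change S (P σ 2) nl ≤ T; omega
  have hjn : ∀ σ j x y, x ≠ y → S (P σ j) (jn x y) ≤ 1 := fun σ j x y hxy =>
    (hSle σ j _).trans (jn_le_one (prd σ) (M σ) (hMlong σ) (hMside σ) x y hxy)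
  -- a class
  have hclass : ∀ i : {i : Fin C.size // C.isAdd i = true},
      (univ.filter fun σ => (⟨g σ, hg σ⟩ : {i : Fin C.size // C.isAdd i = true}) = i).card ≤
        2 * (m + 1) * (T.factorial * (m + 1 - T).factorial) := by
    intro i
    set G := univ.filter fun σ => (⟨g σ, hg σ⟩ : {i : Fin C.size // C.isAdd i = true}) = i with hG
    have hmem : ∀ σ ∈ G, g σ = i.1 := fun σ hσ => congrArg Subtype.val (mem_filter.1 hσ).2
    rcases G.eq_empty_or_nonempty with h0 | ⟨σ0, hσ0⟩
    · rw [h0, card_empty]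
      exact Nat.zero_le _
    have hexch : ∀ s : Fin 3 → Equiv.Perm (Fin (m + 1)), (∀ j, s j ∈ G) →
        PC C C.out (P (s 0) 0 + P (s 1) 1 + P (s 2) 2) (k (s 0) 0 + k (s 1) 1 + k (s 2) 2) := by
      intro s hs
      have e1 := h1 (s 0)
      have e2 := h2 (s 1)
      have e3 := h3 (s 2)
      rw [hmem _ (hs 0)] at e1
      rw [hmem _ (hs 1)] at e2
      rw [hmem _ (hs 2)] at e3
      exact e3.produces _ _ (PC.add i.1 _ _ _ _ i.2 e1 e2)
    have hexnl : ∀ s : Fin 3 → Equiv.Perm (Fin (m + 1)),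
        S (P (s 0) 0 + P (s 1) 1 + P (s 2) 2) nl ≤ 3 * (m + 1) := by
      intro s
      rw [S_add, S_add]
      have e0 := hSle (s 0) 0 nl
      have e1 := hSle (s 1) 1 nl
      have e2 := hSle (s 2) 2 nl
      rw [hMnl] at e0 e1 e2
      omega
    have hexc : ∀ s : Fin 3 → Equiv.Perm (Fin (m + 1)),
        k (s 0) 0 + k (s 1) 1 + k (s 2) 2 ≤ ENNReal.ofReal (ρ + ρ + ρ) := by
      intro s
      rw [ENNReal.ofReal_add (by linarith) hρ0, ENNReal.ofReal_add hρ0 hρ0]
      refine add_le_add (add_le_add ?_ ?_) ?_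
      · refine le_trans ?_ (hc (s 0))
        rw [← hkc (s 0), add_assoc]
        exact le_self_add
      · refine le_trans ?_ (hc (s 1))
        rw [← hkc (s 1), add_comm (k (s 1) 0), add_assoc]
        exact le_self_add
      · refine le_trans ?_ (hc (s 2))
        rw [← hkc (s 2)]
        exact le_add_self
    have hexinc : ∀ s : Fin 3 → Equiv.Perm (Fin (m + 1)), (∀ j, s j ∈ G) → ∀ u,
        2 ≤ S (P (s 0) 0) (inc u) + S (P (s 1) 1) (inc u) + S (P (s 2) 2) (inc u) := by
      intro s hs u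
      rw [← S_add, ← S_add]
      exact hinc _ _ (hexch s hs) (hexnl s) (hexc s) u
    set d : Fin 3 → Fin (m + 1) → ℕ := fun j u => S (P σ0 j) (inc u) with hd
    have hle : ∀ σ ∈ G, ∀ σ' ∈ G, ∀ j u, S (P σ j) (inc u) ≤ S (P σ' j) (inc u) := by
      intro σ hσ σ' hσ' j u
      have e1 := hSM σ (inc u)
      rw [hMinc] at e1
      fin_cases j
      · have e2 := hexinc ![σ', σ, σ] (by
          intro j; fin_cases j
          · exact hσ'
          · exact hσ
          · exact hσ) u
        change 2 ≤ S (P σ' 0) (inc u) + S (P σ 1) (inc u) + S (P σ 2) (inc u) at e2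
        change S (P σ 0) (inc u) ≤ S (P σ' 0) (inc u)
        omega
      · have e2 := hexinc ![σ, σ', σ] (by
          intro j; fin_cases j
          · exact hσ
          · exact hσ'
          · exact hσ) u
        change 2 ≤ S (P σ 0) (inc u) + S (P σ' 1) (inc u) + S (P σ 2) (inc u) at e2
        change S (P σ 1) (inc u) ≤ S (P σ' 1) (inc u)
        omega
      · have e2 := hexinc ![σ, σ, σ'] (by
          intro j; fin_cases j
          · exact hσ
          · exact hσ
          · exact hσ') u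
        change 2 ≤ S (P σ 0) (inc u) + S (P σ 1) (inc u) + S (P σ' 2) (inc u) at e2
        change S (P σ 2) (inc u) ≤ S (P σ' 2) (inc u)
        omega
    have hdeg : ∀ σ ∈ G, ∀ j u, S (P σ j) (inc u) = d j u := fun σ hσ j u =>
      le_antisymm (hle σ hσ σ0 hσ0 j u) (hle σ0 hσ0 σ hσ j u)
    set 𝒜 : Fin 3 → Finset (Finset (Sym2 (Fin (m + 1)))) := fun j =>
      G.image fun σ => ed (P σ j) with h𝒜
    have htwo : ∀ u, ∑ j, d j u = 2 := by
      intro u
      rw [Fin.sum_univ_three, hd]
      exact (hSM σ0 (inc u)).trans (hMinc σ0 u)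
    have hdsum : ∀ j, ∑ u, d j u ≤ 2 * T := by
      intro j
      have e1 : ∑ u, S (P σ0 j) (inc u) = 2 * S (P σ0 j) nl := by
        rw [S_sum, ← S_mul]
        exact congrArg (S (P σ0 j)) (funext sum_inc)
      have e2 := hsize σ0 j
      rw [hd]
      dsimp only
      omega
    have hconn : ∀ A : Fin 3 → Finset (Sym2 (Fin (m + 1))), (∀ j, A j ∈ 𝒜 j) →
        ∀ X ⊆ (univ : Finset (Fin (m + 1))), X.Nonempty → X ≠ univ →
        ∃ j, ∃ x ∈ X, ∃ y, y ∉ X ∧ s(x, y) ∈ A j := by
      intro A hA X _ hX1 hX2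
      have hA' : ∀ j, ∃ σ ∈ G, ed (P σ j) = A j := fun j => mem_image.1 (hA j)
      choose s hs hsA using hA'
      obtain ⟨x0, hx0⟩ := hX1
      obtain ⟨y0, hy0⟩ : ∃ y, y ∉ X := by
        by_contra hcon
        push Not at hcon
        exact hX2 (eq_univ_iff_forall.2 hcon)
      have e1 := hcut _ _ (hexch s hs) (hexnl s) (hexc s) (fun x => decide (x ∈ X))
        ⟨x0, by simpa using hx0⟩ ⟨y0, by simpa using hy0⟩
      obtain ⟨p, hp, hp1⟩ := exists_of_S_pos (by omega : 1 ≤ S (P (s 0) 0 + P (s 1) 1 + P (s 2) 2)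
        (cross fun x => decide (x ∈ X)))
      have hp2 : ∃ j, p ∈ P (s j) j := by
        rw [Multiset.mem_add, Multiset.mem_add] at hp
        rcases hp with (hp | hp) | hp
        · exact ⟨0, hp⟩
        · exact ⟨1, hp⟩
        · exact ⟨2, hp⟩
      obtain ⟨j, hj⟩ := hp2
      unfold cross at hp1
      split_ifs at hp1 with h8
      · omega
      have hne : p.1 ≠ p.2 := fun h9 => h8 (by rw [h9])
      have hedge : s(p.1, p.2) ∈ A j := by
        rw [← hsA j, mem_ed]
        exact ⟨p, hj, hne, rfl⟩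
      by_cases h9 : p.1 ∈ X
      · refine ⟨j, p.1, h9, p.2, fun h10 => h8 (by simp [h9, h10]), hedge⟩
      · have h10 : p.2 ∈ X := by
          by_contra h10
          exact h8 (by simp [h9, h10])
        exact ⟨j, p.2, h10, p.1, h9, by rw [Sym2.eq_swap]; exact hedge⟩
    have hrect : Rect univ 𝒜 d := by
      refine ⟨fun _ _ _ _ _ x _ => mem_univ x, ?_, ?_, fun u _ => htwo u, hconn⟩
      · intro j A hA e he
        obtain ⟨σ, hσ, rfl⟩ := mem_image.1 hA
        obtain ⟨p, _, hp1, rfl⟩ := mem_ed.1 he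
        rw [Sym2.mk_isDiag_iff]
        exact hp1
      · intro j A hA u _
        obtain ⟨σ, hσ, rfl⟩ := mem_image.1 hA
        rw [ed_dg (hjn σ j) u, hdeg σ hσ]
    -- a mixed vertex
    have hmixed : ∃ x ∈ (univ : Finset (Fin (m + 1))), ∀ j, d j x ≤ 1 := by
      by_contra hcon
      push Not at hcon
      have hpure : ∀ x, ∃ j, d j x = 2 := by
        intro x
        obtain ⟨j, hj⟩ := hcon x (mem_univ x)
        refine ⟨j, le_antisymm ?_ hj⟩
        rw [← htwo x]
        exact single_le_sum (f := fun j => d j x) (fun _ _ => Nat.zero_le _) (mem_univ j)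
      obtain ⟨j, hj⟩ := hpure 0
      obtain ⟨j', x, hx, y, hy, he⟩ := hconn (fun j => ed (P σ0 j))
        (fun j => mem_image_of_mem _ hσ0) (univ.filter fun x => d j x = 2) (subset_univ _)
        ⟨0, mem_filter.2 ⟨mem_univ _, hj⟩⟩ (by
          intro h8
          have h9 : ∀ u, d j u = 2 := fun u => by
            have h10 : u ∈ univ.filter fun x => d j x = 2 := by rw [h8]; exact mem_univ u
            exact (mem_filter.1 h10).2
          have h11 := hdsum j
          rw [sum_congr rfl fun u _ => h9 u, sum_const, card_univ, Fintype.card_fin,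
            smul_eq_mul] at h11
          omega)
      rw [mem_filter] at hx hy
      have e1 : 1 ≤ dg (ed (P σ0 j')) x := one_le_dg he
      have e2 : 1 ≤ dg (ed (P σ0 j')) y := by
        rw [Sym2.eq_swap] at he
        exact one_le_dg he
      rw [ed_dg (hjn σ0 j')] at e1 e2
      have hjj : j' = j := by
        by_contra hne
        have := d_le_of_two (htwo x) hx.2 hne
        rw [hd] at this
        dsimp only at this
        omega
      subst hjj
      obtain ⟨l, hl⟩ := hpure y
      have hlj : l = j' := by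
        by_contra hne
        have := d_le_of_two (htwo y) hl (Ne.symm hne)
        rw [hd] at this
        dsimp only at this
        omega
      subst hlj
      exact hy ⟨mem_univ _, hl⟩
    have hbound := rect_bound (m + 1) univ 𝒜 d T hrect (by rw [card_univ, Fintype.card_fin])
      hmixed (by omega) (by omega) (fun j => hdsum j)
    -- the class is determined by the edge sets, a vertex and a direction
    have hedM : ∀ σ e, e ∈ ed (M σ) ↔ ∃ j, e ∈ ed (P σ j) := by
      intro σ e
      rw [← hPM, ed_add, ed_add]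
      constructor
      · rintro ((h8 | h8) | h8)
        · exact ⟨0, h8⟩
        · exact ⟨1, h8⟩
        · exact ⟨2, h8⟩
      · rintro ⟨j, hj⟩
        fin_cases j
        · exact Or.inl (Or.inl hj)
        · exact Or.inl (Or.inr hj)
        · exact Or.inr hj
    have hside : ∀ σ (u : Fin (m + 1)), s(prd σ u, u) ∈ ed (M σ) := fun σ u =>
      mem_ed_of_jn (prd_ne hm σ u) (hMside σ u).ge
    have hinj : G.card ≤ ((Fintype.piFinset 𝒜) ×ˢ ((univ : Finset (Fin (m + 1))) ×ˢ
        (univ : Finset Bool))).card := by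
      refine card_le_card_of_injOn (fun σ => (fun j => ed (P σ j), σ.symm 0,
        decide (σ.symm 1 < prd σ (σ.symm 0)))) ?_ ?_
      · intro σ hσ
        rw [mem_coe] at hσ
        rw [mem_coe, mem_product, mem_product]
        refine ⟨Fintype.mem_piFinset.2 fun j => mem_image_of_mem _ hσ, mem_univ _, mem_univ _⟩
      · intro σ _ σ' _ h8
        simp only [Prod.mk.injEq] at h8
        obtain ⟨h9, h10, h11⟩ := h8
        have hE : ed (M σ) = ed (M σ') := by
          ext e
          rw [hedM, hedM]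
          constructor
          · rintro ⟨j, hj⟩
            exact ⟨j, (congrFun h9 j) ▸ hj⟩
          · rintro ⟨j, hj⟩
            exact ⟨j, (congrFun h9 j).symm ▸ hj⟩
        have hs1 : ∀ τ : Equiv.Perm (Fin (m + 1)), prd τ (τ.symm 1) = τ.symm 0 := by
          intro τ
          rw [prd_apply, Equiv.apply_symm_apply, sub_self]
        have hs2 : ∀ (τ : Equiv.Perm (Fin (m + 1))) (x : Fin (m + 1)), τ.symm 0 = prd τ x →
            x = τ.symm 1 := by
          intro τ x hx
          rw [← hs1 τ] at hx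
          exact ((prd τ).injective hx).symm
        have hs : σ.symm 1 = σ'.symm 1 := by
          have e1 : s(σ.symm 0, σ'.symm 1) ∈ ed (M σ) := by
            rw [hE, h10, ← hs1 σ']
            exact hside σ' _
          rcases side_of_mem_ed (hMlong σ) e1 with e2 | e2
          · exact (hs2 σ _ e2).symm
          · exfalso
            have e3 : s(prd σ' (σ.symm 0), σ.symm 0) ∈ ed (M σ) := by
              rw [hE]
              exact hside σ' _
            rcases side_of_mem_ed (hMlong σ) e3 with e4 | e4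
            · rw [← e2] at e4
              have e5 := hs1 σ'
              rw [← e4, ← h10] at e5
              exact prd_prd_ne hm σ' _ e5
            · have e5 := hs2 σ _ e4
              rw [← h10, e5, e2] at h11
              rcases lt_trichotomy (σ.symm 1) (prd σ (σ.symm 0)) with h12 | h12 | h12
              · rw [decide_eq_true h12, eq_comm, decide_eq_true_iff] at h11
                exact absurd (h11.trans h12) (lt_irrefl _)
              · have e6 := hs1 σ
                rw [h12] at e6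
                exact prd_prd_ne hm σ _ e6
              · rw [eq_comm, decide_eq_true h12, eq_comm, decide_eq_true_iff] at h11
                exact absurd (h11.trans h12) (lt_irrefl _)
        refine perm_det (E := ed (M σ)) (fun x y hxy => side_of_mem_ed (hMlong σ) hxy) ?_ h10 hs hm
        intro i
        rw [hE]
        have e1 := hside σ' (σ'.symm (i + 1))
        rw [prd_apply, Equiv.apply_symm_apply, add_sub_cancel_right] at e1
        exact e1
    rw [card_product, card_product, Fintype.card_piFinset, card_univ, card_univ, Fintype.card_fin,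
      Fintype.card_bool] at hinj
    calc G.card ≤ (∏ j, (𝒜 j).card) * ((m + 1) * 2) := hinj
      _ ≤ (T.factorial * (m + 1 - T).factorial) * ((m + 1) * 2) := Nat.mul_le_mul_right _ hbound
      _ = _ := by ring
  have hcard : (m + 1).factorial = ∑ i : {i : Fin C.size // C.isAdd i = true},
      (univ.filter fun σ => (⟨g σ, hg σ⟩ : {i : Fin C.size // C.isAdd i = true}) = i).card := by
    rw [← card_eq_sum_card_fiberwise (s := (univ : Finset (Equiv.Perm (Fin (m + 1)))))
      (t := univ) (fun σ _ => mem_coe.2 (mem_univ _)), card_univ, Fintype.card_perm,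
      Fintype.card_fin]
  have hI : Fintype.card {i : Fin C.size // C.isAdd i = true} = C.numAdd := by
    rw [Fintype.card_subtype]
    rfl
  have hfin : (m + 1).factorial ≤
      C.numAdd * (2 * (m + 1) * (T.factorial * (m + 1 - T).factorial)) := by
    rw [hcard, ← hI, ← card_univ]
    refine (sum_le_sum fun i _ => hclass i).trans ?_
    rw [sum_const, smul_eq_mul]
  have hTle : T ≤ m + 1 := by omega
  rw [← Nat.choose_mul_factorial_mul_factorial hTle] at hfin
  have hpos : 0 < T.factorial * (m + 1 - T).factorial :=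
    Nat.mul_pos (Nat.factorial_pos _) (Nat.factorial_pos _)
  refine Nat.le_of_mul_le_mul_right (?_ : _ * (T.factorial * (m + 1 - T).factorial) ≤ _) hpos
  calc _ = (m + 1).choose T * T.factorial * (m + 1 - T).factorial := by ring
    _ ≤ _ := hfin
    _ = _ := by ring

end Pool.Agent.T9h48.TSP
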