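import Mathlib

/-!
# Exchangeable families of matchings whose union is always a path
-/

open Finset

set_option autoImplicit false

namespace Pool.Agent.T9h48.TSP

variable {α : Type} [DecidableEq α]

/-- the functions in `F` are fixed-point free involutions of `W` and agree outside of `W` -/
structure Mt (W : Finset α) (F : Finset (α → α)) : Prop where
  mem : ∀ f ∈ F, ∀ v ∈ W, f v ∈ W
  ne : ∀ f ∈ F, ∀ v ∈ W, f v ≠ v
  inv : ∀ f ∈ F, ∀ v ∈ W, f (f v) = v
  agree : ∀ f ∈ F, ∀ g ∈ F, ∀ v, v ∉ W → f v = g v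

lemma Mt.restrict {W : Finset α} {F : Finset (α → α)} (h : Mt W F) {e y : α} (he : e ∈ W)
    (_hy : y ∈ W) : Mt ((W.erase e).erase y) (F.filter fun f => f e = y) := by
  refine ⟨?_, ?_, ?_, ?_⟩
  · intro f hf v hv
    rw [mem_filter] at hf
    rw [mem_erase, mem_erase] at hv ⊢
    refine ⟨?_, ?_, h.mem f hf.1 v hv.2.2⟩
    · intro h1
      apply hv.2.1
      have h2 := h.inv f hf.1 v hv.2.2
      rw [h1, ← hf.2, h.inv f hf.1 e he] at h2
      exact h2.symm
    · intro h1
      apply hv.1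
      have h2 := h.inv f hf.1 v hv.2.2
      rw [h1, hf.2] at h2
      exact h2.symm
  · intro f hf v hv
    rw [mem_filter] at hf
    rw [mem_erase, mem_erase] at hv
    exact h.ne f hf.1 v hv.2.2
  · intro f hf v hv
    rw [mem_filter] at hf
    rw [mem_erase, mem_erase] at hv
    exact h.inv f hf.1 v hv.2.2
  · intro f hf g hg v hv
    rw [mem_filter] at hf hg
    by_cases h1 : v = y
    · rw [h1, ← hf.2, h.inv f hf.1 e he, hf.2, ← hg.2, h.inv g hg.1 e he]
    · by_cases h2 : v = e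
      · rw [h2, hf.2, hg.2]
      · exact h.agree f hf.1 g hg.1 v fun h3 => hv (mem_erase.2 ⟨h1, mem_erase.2 ⟨h2, h3⟩⟩)

lemma Mt.small {W : Finset α} {F : Finset (α → α)} (h : Mt W F) (hW : W.card ≤ 3) :
    F.card ≤ 1 := by
  rw [card_le_one]
  intro f hf g hg
  funext v
  by_cases hv : v ∈ W
  · by_contra hne
    have h1 : ({v, f v, g v} : Finset α) ⊆ W := by
      intro x hx
      simp only [mem_insert, mem_singleton] at hx
      rcases hx with rfl | rfl | rfl
      · exact hv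
      · exact h.mem f hf _ hv
      · exact h.mem g hg _ hv
    have h2 : ({v, f v, g v} : Finset α).card = 3 := by
      rw [card_eq_three]
      exact ⟨v, f v, g v, (h.ne f hf v hv).symm, (h.ne g hg v hv).symm, hne, rfl⟩
    have h3 : ({v, f v, g v} : Finset α) = W := eq_of_subset_of_card_le h1 (by rw [h2]; exact hW)
    have h4 := h.mem f hf (g v) (h.mem g hg v hv)
    rw [← h3] at h4
    simp only [mem_insert, mem_singleton] at h4
    rcases h4 with h5 | h5 | h5
    · have h6 := h.inv f hf (g v) (h.mem g hg v hv)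
      rw [h5] at h6
      exact hne h6
    · have h6 := h.inv f hf (g v) (h.mem g hg v hv)
      rw [h5, h.inv f hf v hv] at h6
      exact h.ne g hg v hv h6.symm
    · exact h.ne f hf (g v) (h.mem g hg v hv) h5
  · exact h.agree f hf g hg v hv

/-- The state of the exploration. The vertices in `A` have an edge of the first and an edge of the
second matching, those in `B` of the first and the third, those in `C` of the second and the third.
The first matching also covers the end `e1` of the explored path, the second one the other end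
`e2`. -/
structure St (A B C : Finset α) (e1 e2 : α) (F G H : Finset (α → α)) : Prop where
  dAB : Disjoint A B
  dAC : Disjoint A C
  dBC : Disjoint B C
  n1 : e1 ∉ A ∪ B ∪ C
  n2 : e2 ∉ A ∪ B ∪ C
  mF : Mt (insert e1 (A ∪ B)) F
  mG : Mt (insert e2 (A ∪ C)) G
  mH : Mt (B ∪ C) H
  iF : ∀ f ∈ F, ∀ v ∈ C, f v = v
  iG : ∀ g ∈ G, ∀ v ∈ B, g v = v
  iH : ∀ h ∈ H, ∀ v ∈ A, h v = v
  conn : ∀ f ∈ F, ∀ g ∈ G, ∀ h ∈ H, ∀ S ⊆ A ∪ B ∪ C, S.Nonempty →
    ∃ v ∈ S, f v ∉ S ∨ g v ∉ S ∨ h v ∉ S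

lemma St.swap {A B C : Finset α} {e1 e2 : α} {F G H : Finset (α → α)}
    (h : St A B C e1 e2 F G H) : St A C B e2 e1 G F H := by
  have e : A ∪ C ∪ B = A ∪ B ∪ C := by rw [union_assoc, union_comm C B, ← union_assoc]
  refine ⟨h.dAC, h.dAB, h.dBC.symm, by rw [e]; exact h.n2, by rw [e]; exact h.n1, h.mG, h.mF,
    by rw [union_comm]; exact h.mH, h.iG, h.iF, h.iH, ?_⟩
  intro g hg f hf k hk S hS hne
  rw [e] at hS
  obtain ⟨v, hv, h1⟩ := h.conn f hf g hg k hk S hS hne
  exact ⟨v, hv, by tauto⟩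

/-- both ends are extended, the new vertices are in `A` -/
lemma St.stepAA {A B C : Finset α} {e1 e2 y z : α} {F G H : Finset (α → α)}
    (h : St A B C e1 e2 F G H) (hy : y ∈ A) (hz : z ∈ A) (hyz : y ≠ z) :
    St ((A.erase y).erase z) B C z y (F.filter fun f => f e1 = y) (G.filter fun g => g e2 = z) H := by
  have hyB : y ∉ B := fun h1 => (disjoint_left.1 h.dAB) hy h1
  have hzB : z ∉ B := fun h1 => (disjoint_left.1 h.dAB) hz h1
  have hyC : y ∉ C := fun h1 => (disjoint_left.1 h.dAC) hy h1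
  have hzC : z ∉ C := fun h1 => (disjoint_left.1 h.dAC) hz h1
  have hn1 := h.n1
  have hn2 := h.n2
  simp only [mem_union, not_or] at hn1 hn2
  have hsub : (A.erase y).erase z ⊆ A := (erase_subset _ _).trans (erase_subset _ _)
  refine ⟨h.dAB.mono_left hsub, h.dAC.mono_left hsub, h.dBC, ?_, ?_, ?_, ?_, h.mH, ?_, ?_, ?_, ?_⟩
  · simp [hzB, hzC]
  · simp [hyB, hyC]
  · have h1 := h.mF.restrict (mem_insert_self e1 (A ∪ B)) (mem_insert_of_mem (mem_union_left B hy))
    convert h1 using 1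
    ext v
    simp only [mem_insert, mem_union, mem_erase]
    constructor
    · rintro (rfl | ⟨h2, h3, h4⟩ | h2)
      · exact ⟨Ne.symm hyz, fun h5 => hn1.1.1 (h5 ▸ hz), Or.inr (Or.inl hz)⟩
      · exact ⟨h3, fun h5 => hn1.1.1 (h5 ▸ h4), Or.inr (Or.inl h4)⟩
      · exact ⟨fun h5 => hyB (h5 ▸ h2), fun h5 => hn1.1.2 (h5 ▸ h2), Or.inr (Or.inr h2)⟩
    · rintro ⟨h2, h3, h4 | h4 | h4⟩
      · exact absurd h4 h3
      · by_cases h5 : v = z
        · exact Or.inl h5
        · exact Or.inr (Or.inl ⟨h5, h2, h4⟩)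
      · exact Or.inr (Or.inr h4)
  · have h1 := h.mG.restrict (mem_insert_self e2 (A ∪ C)) (mem_insert_of_mem (mem_union_left C hz))
    convert h1 using 1
    ext v
    simp only [mem_insert, mem_union, mem_erase]
    constructor
    · rintro (rfl | ⟨h2, h3, h4⟩ | h2)
      · exact ⟨hyz, fun h5 => hn2.1.1 (h5 ▸ hy), Or.inr (Or.inl hy)⟩
      · exact ⟨h2, fun h5 => hn2.1.1 (h5 ▸ h4), Or.inr (Or.inl h4)⟩
      · exact ⟨fun h5 => hzC (h5 ▸ h2), fun h5 => hn2.2 (h5 ▸ h2), Or.inr (Or.inr h2)⟩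
    · rintro ⟨h2, h3, h4 | h4 | h4⟩
      · exact absurd h4 h3
      · by_cases h5 : v = y
        · exact Or.inl h5
        · exact Or.inr (Or.inl ⟨h2, h5, h4⟩)
      · exact Or.inr (Or.inr h4)
  · exact fun f hf => h.iF f (mem_filter.1 hf).1
  · exact fun g hg => h.iG g (mem_filter.1 hg).1
  · exact fun k hk v hv => h.iH k hk v (hsub hv)
  · intro f hf g hg k hk S hS hne
    exact h.conn f (mem_filter.1 hf).1 g (mem_filter.1 hg).1 k hk S
      (hS.trans (union_subset_union (union_subset_union hsub (Subset.refl _)) (Subset.refl _))) hne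

/-- the first end goes to `A`, the second one to `C` -/
lemma St.stepAC {A B C : Finset α} {e1 e2 y z : α} {F G H : Finset (α → α)}
    (h : St A B C e1 e2 F G H) (hy : y ∈ A) (hz : z ∈ C) :
    St (C.erase z) (A.erase y) B y z (G.filter fun g => g e2 = z) H
      (F.filter fun f => f e1 = y) := by
  have hyB : y ∉ B := fun h1 => (disjoint_left.1 h.dAB) hy h1
  have hyC : y ∉ C := fun h1 => (disjoint_left.1 h.dAC) hy h1
  have hzA : z ∉ A := fun h1 => (disjoint_left.1 h.dAC) h1 hz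
  have hzB : z ∉ B := fun h1 => (disjoint_left.1 h.dBC) h1 hz
  have hn1 := h.n1
  have hn2 := h.n2
  simp only [mem_union, not_or] at hn1 hn2
  have hsA : A.erase y ⊆ A := erase_subset _ _
  have hsC : C.erase z ⊆ C := erase_subset _ _
  refine ⟨(h.dAC.mono hsA hsC).symm, (h.dBC.mono_right hsC).symm, h.dAB.mono_left hsA,
    ?_, ?_, ?_, ?_, ?_, ?_, ?_, ?_, ?_⟩
  · simp [hyB, hyC]
  · simp [hzA, hzB]
  · have h1 := h.mG.restrict (mem_insert_self e2 (A ∪ C)) (mem_insert_of_mem (mem_union_right A hz))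
    convert h1 using 1
    ext v
    simp only [mem_insert, mem_union, mem_erase]
    constructor
    · rintro (rfl | ⟨h2, h3⟩ | ⟨h2, h3⟩)
      · exact ⟨fun h5 => hyC (h5 ▸ hz), fun h5 => hn2.1.1 (h5 ▸ hy), Or.inr (Or.inl hy)⟩
      · exact ⟨h2, fun h5 => hn2.2 (h5 ▸ h3), Or.inr (Or.inr h3)⟩
      · exact ⟨fun h5 => hzA (h5 ▸ h3), fun h5 => hn2.1.1 (h5 ▸ h3), Or.inr (Or.inl h3)⟩
    · rintro ⟨h2, h3, h4 | h4 | h4⟩
      · exact absurd h4 h3
      · by_cases h5 : v = y
        · exact Or.inl h5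
        · exact Or.inr (Or.inr ⟨h5, h4⟩)
      · exact Or.inr (Or.inl ⟨h2, h4⟩)
  · convert h.mH using 1
    ext v
    simp only [mem_insert, mem_union, mem_erase]
    constructor
    · rintro (rfl | ⟨h2, h3⟩ | h3)
      · exact Or.inr hz
      · exact Or.inr h3
      · exact Or.inl h3
    · rintro (h4 | h4)
      · exact Or.inr (Or.inr h4)
      · by_cases h5 : v = z
        · exact Or.inl h5
        · exact Or.inr (Or.inl ⟨h5, h4⟩)
  · have h1 := h.mF.restrict (mem_insert_self e1 (A ∪ B)) (mem_insert_of_mem (mem_union_left B hy))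
    convert h1 using 1
    ext v
    simp only [mem_insert, mem_union, mem_erase]
    constructor
    · rintro (⟨h2, h3⟩ | h3)
      · exact ⟨h2, fun h5 => hn1.1.1 (h5 ▸ h3), Or.inr (Or.inl h3)⟩
      · exact ⟨fun h5 => hyB (h5 ▸ h3), fun h5 => hn1.1.2 (h5 ▸ h3), Or.inr (Or.inr h3)⟩
    · rintro ⟨h2, h3, h4 | h4 | h4⟩
      · exact absurd h4 h3
      · exact Or.inl ⟨h2, h4⟩
      · exact Or.inr h4
  · exact fun g hg => h.iG g (mem_filter.1 hg).1
  · exact fun k hk v hv => h.iH k hk v (hsA hv)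
  · exact fun f hf v hv => h.iF f (mem_filter.1 hf).1 v (hsC hv)
  · intro g hg k hk f hf S hS hne
    obtain ⟨v, hv, h1⟩ := h.conn f (mem_filter.1 hf).1 g (mem_filter.1 hg).1 k hk S (by
      refine hS.trans ?_
      intro v hv
      simp only [mem_union, mem_erase] at hv ⊢
      tauto) hne
    exact ⟨v, hv, by tauto⟩

/-- the first end goes to `B` and then to `B`, the second end goes to `C` -/
lemma St.stepBB {A B C : Finset α} {e1 e2 y z a : α} {F G H : Finset (α → α)}
    (h : St A B C e1 e2 F G H) (hy : y ∈ B) (hz : z ∈ C) (ha : a ∈ B) (hay : a ≠ y) :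
    St ((B.erase y).erase a) A (C.erase z) a z (F.filter fun f => f e1 = y)
      (H.filter fun k => k y = a) (G.filter fun g => g e2 = z) := by
  have hyA : y ∉ A := fun h1 => (disjoint_left.1 h.dAB) h1 hy
  have hyC : y ∉ C := fun h1 => (disjoint_left.1 h.dBC) hy h1
  have haA : a ∉ A := fun h1 => (disjoint_left.1 h.dAB) h1 ha
  have haC : a ∉ C := fun h1 => (disjoint_left.1 h.dBC) ha h1
  have hzA : z ∉ A := fun h1 => (disjoint_left.1 h.dAC) h1 hz
  have hzB : z ∉ B := fun h1 => (disjoint_left.1 h.dBC) h1 hz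
  have hn1 := h.n1
  have hn2 := h.n2
  simp only [mem_union, not_or] at hn1 hn2
  have hsB : (B.erase y).erase a ⊆ B := (erase_subset _ _).trans (erase_subset _ _)
  have hsC : C.erase z ⊆ C := erase_subset _ _
  refine ⟨(h.dAB.mono_right hsB).symm, h.dBC.mono hsB hsC, h.dAC.mono_right hsC,
    ?_, ?_, ?_, ?_, ?_, ?_, ?_, ?_, ?_⟩
  · simp [haA, haC]
  · simp [hzA, hzB]
  · have h1 := h.mF.restrict (mem_insert_self e1 (A ∪ B)) (mem_insert_of_mem (mem_union_right A hy))
    convert h1 using 1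
    ext v
    simp only [mem_insert, mem_union, mem_erase]
    constructor
    · rintro (rfl | ⟨h2, h3, h4⟩ | h3)
      · exact ⟨hay, fun h5 => hn1.1.2 (h5 ▸ ha), Or.inr (Or.inr ha)⟩
      · exact ⟨h3, fun h5 => hn1.1.2 (h5 ▸ h4), Or.inr (Or.inr h4)⟩
      · exact ⟨fun h5 => hyA (h5 ▸ h3), fun h5 => hn1.1.1 (h5 ▸ h3), Or.inr (Or.inl h3)⟩
    · rintro ⟨h2, h3, h4 | h4 | h4⟩
      · exact absurd h4 h3
      · exact Or.inr (Or.inr h4)
      · by_cases h5 : v = a
        · exact Or.inl h5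
        · exact Or.inr (Or.inl ⟨h5, h2, h4⟩)
  · have h1 := h.mH.restrict (mem_union_left C hy) (mem_union_left C ha)
    convert h1 using 1
    ext v
    simp only [mem_insert, mem_union, mem_erase]
    constructor
    · rintro (rfl | ⟨h2, h3, h4⟩ | ⟨h2, h3⟩)
      · exact ⟨fun h5 => haC (h5 ▸ hz), fun h5 => hyC (h5 ▸ hz), Or.inr hz⟩
      · exact ⟨h2, h3, Or.inl h4⟩
      · exact ⟨fun h5 => haC (h5 ▸ h3), fun h5 => hyC (h5 ▸ h3), Or.inr h3⟩
    · rintro ⟨h2, h3, h4 | h4⟩
      · exact Or.inr (Or.inl ⟨h2, h3, h4⟩)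
      · by_cases h5 : v = z
        · exact Or.inl h5
        · exact Or.inr (Or.inr ⟨h5, h4⟩)
  · have h1 := h.mG.restrict (mem_insert_self e2 (A ∪ C)) (mem_insert_of_mem (mem_union_right A hz))
    convert h1 using 1
    ext v
    simp only [mem_insert, mem_union, mem_erase]
    constructor
    · rintro (h3 | ⟨h2, h3⟩)
      · exact ⟨fun h5 => hzA (h5 ▸ h3), fun h5 => hn2.1.1 (h5 ▸ h3), Or.inr (Or.inl h3)⟩
      · exact ⟨h2, fun h5 => hn2.2 (h5 ▸ h3), Or.inr (Or.inr h3)⟩
    · rintro ⟨h2, h3, h4 | h4 | h4⟩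
      · exact absurd h4 h3
      · exact Or.inl h4
      · exact Or.inr ⟨h2, h4⟩
  · exact fun f hf v hv => h.iF f (mem_filter.1 hf).1 v (hsC hv)
  · exact fun k hk v hv => h.iH k (mem_filter.1 hk).1 v hv
  · exact fun g hg v hv => h.iG g (mem_filter.1 hg).1 v (hsB hv)
  · intro f hf k hk g hg S hS hne
    obtain ⟨v, hv, h1⟩ := h.conn f (mem_filter.1 hf).1 g (mem_filter.1 hg).1 k (mem_filter.1 hk).1 S
      (by
        refine hS.trans ?_
        intro v hv
        simp only [mem_union, mem_erase] at hv ⊢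
        tauto) hne
    exact ⟨v, hv, by tauto⟩

/-- the first end goes to `B` and then to `C`, the second end goes to `C` -/
lemma St.stepBC {A B C : Finset α} {e1 e2 y z a : α} {F G H : Finset (α → α)}
    (h : St A B C e1 e2 F G H) (hy : y ∈ B) (hz : z ∈ C) (ha : a ∈ C) (haz : a ≠ z) :
    St ((C.erase z).erase a) A (B.erase y) a z (G.filter fun g => g e2 = z)
      (H.filter fun k => k y = a) (F.filter fun f => f e1 = y) := by
  have hyA : y ∉ A := fun h1 => (disjoint_left.1 h.dAB) h1 hy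
  have hyC : y ∉ C := fun h1 => (disjoint_left.1 h.dBC) hy h1
  have haA : a ∉ A := fun h1 => (disjoint_left.1 h.dAC) h1 ha
  have haB : a ∉ B := fun h1 => (disjoint_left.1 h.dBC) h1 ha
  have hzA : z ∉ A := fun h1 => (disjoint_left.1 h.dAC) h1 hz
  have hzB : z ∉ B := fun h1 => (disjoint_left.1 h.dBC) h1 hz
  have hn1 := h.n1
  have hn2 := h.n2
  simp only [mem_union, not_or] at hn1 hn2
  have hsC : (C.erase z).erase a ⊆ C := (erase_subset _ _).trans (erase_subset _ _)
  have hsB : B.erase y ⊆ B := erase_subset _ _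
  refine ⟨(h.dAC.mono_right hsC).symm, (h.dBC.mono hsB hsC).symm, h.dAB.mono_right hsB,
    ?_, ?_, ?_, ?_, ?_, ?_, ?_, ?_, ?_⟩
  · simp [haA, haB]
  · simp [hzA, hzB]
  · have h1 := h.mG.restrict (mem_insert_self e2 (A ∪ C)) (mem_insert_of_mem (mem_union_right A hz))
    convert h1 using 1
    ext v
    simp only [mem_insert, mem_union, mem_erase]
    constructor
    · rintro (rfl | ⟨h2, h3, h4⟩ | h3)
      · exact ⟨haz, fun h5 => hn2.2 (h5 ▸ ha), Or.inr (Or.inr ha)⟩
      · exact ⟨h3, fun h5 => hn2.2 (h5 ▸ h4), Or.inr (Or.inr h4)⟩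
      · exact ⟨fun h5 => hzA (h5 ▸ h3), fun h5 => hn2.1.1 (h5 ▸ h3), Or.inr (Or.inl h3)⟩
    · rintro ⟨h2, h3, h4 | h4 | h4⟩
      · exact absurd h4 h3
      · exact Or.inr (Or.inr h4)
      · by_cases h5 : v = a
        · exact Or.inl h5
        · exact Or.inr (Or.inl ⟨h5, h2, h4⟩)
  · have h1 := h.mH.restrict (mem_union_left C hy) (mem_union_right B ha)
    convert h1 using 1
    ext v
    simp only [mem_insert, mem_union, mem_erase]
    constructor
    · rintro (rfl | ⟨h2, h3, h4⟩ | ⟨h2, h3⟩)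
      · exact ⟨Ne.symm haz, fun h5 => hyC (h5 ▸ hz), Or.inr hz⟩
      · exact ⟨h2, fun h5 => hyC (h5 ▸ h4), Or.inr h4⟩
      · exact ⟨fun h5 => haB (h5 ▸ h3), h2, Or.inl h3⟩
    · rintro ⟨h2, h3, h4 | h4⟩
      · exact Or.inr (Or.inr ⟨h3, h4⟩)
      · by_cases h5 : v = z
        · exact Or.inl h5
        · exact Or.inr (Or.inl ⟨h2, h5, h4⟩)
  · have h1 := h.mF.restrict (mem_insert_self e1 (A ∪ B)) (mem_insert_of_mem (mem_union_right A hy))
    convert h1 using 1
    ext v
    simp only [mem_insert, mem_union, mem_erase]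
    constructor
    · rintro (h3 | ⟨h2, h3⟩)
      · exact ⟨fun h5 => hyA (h5 ▸ h3), fun h5 => hn1.1.1 (h5 ▸ h3), Or.inr (Or.inl h3)⟩
      · exact ⟨h2, fun h5 => hn1.1.2 (h5 ▸ h3), Or.inr (Or.inr h3)⟩
    · rintro ⟨h2, h3, h4 | h4 | h4⟩
      · exact absurd h4 h3
      · exact Or.inl h4
      · exact Or.inr ⟨h2, h4⟩
  · exact fun g hg v hv => h.iG g (mem_filter.1 hg).1 v (hsB hv)
  · exact fun k hk v hv => h.iH k (mem_filter.1 hk).1 v hv
  · exact fun f hf v hv => h.iF f (mem_filter.1 hf).1 v (hsC hv)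
  · intro g hg k hk f hf S hS hne
    obtain ⟨v, hv, h1⟩ := h.conn f (mem_filter.1 hf).1 g (mem_filter.1 hg).1 k (mem_filter.1 hk).1 S
      (by
        refine hS.trans ?_
        intro v hv
        simp only [mem_union, mem_erase] at hv ⊢
        tauto) hne
    exact ⟨v, hv, by tauto⟩

end Pool.Agent.T9h48.TSP
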