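import Pool.Agent.T9h48.TSP.Explore

/-!
# Exchangeable families of matchings whose union is always a path: the bound
-/

open Finset

set_option autoImplicit false

namespace Pool.Agent.T9h48.TSP

/-- the bound -/
def Bd (n : ℕ) : ℕ := (n / 2).factorial * ((n + 1) / 2).factorial

lemma Bd_pos (n : ℕ) : 1 ≤ Bd n := Nat.mul_pos (Nat.factorial_pos _) (Nat.factorial_pos _)

lemma Bd_succ (w : ℕ) : Bd (w + 1) = (w / 2 + 1) * Bd w := by
  unfold Bd
  rw [show (w + 1 + 1) / 2 = w / 2 + 1 by omega, Nat.factorial_succ]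
  ring

lemma Bd_add_three (w : ℕ) :
    Bd (w + 3) = ((w + 1) / 2 + 1) * ((w + 2) / 2 + 1) * Bd (w + 1) := by
  rw [show w + 3 = w + 1 + 1 + 1 by ring, Bd_succ, Bd_succ]
  rw [show w + 1 + 1 = w + 2 by ring]
  ring

lemma arith_aux (u p p' q q' κ r β M : ℤ) (hp : 0 ≤ p) (hp' : 0 ≤ p') (hq : 0 ≤ q)
    (hq' : 0 ≤ q') (h1 : p + q ≤ u - κ) (h2 : p' + q' ≤ κ) (hr0 : 0 ≤ r)
    (hr : 2 * r + 2 + p' + q' ≤ 2 * κ) (hβ : u - 1 ≤ 2 * β) (hβ0 : 0 ≤ β)
    (hM : u ^ 2 ≤ 4 * M) (hu : 1 ≤ u) :
    (p * q + p * q' + p' * q) * β + p' * q' * r ≤ β * M := by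
  have e1 : 0 ≤ p' * q' := mul_nonneg hp' hq'
  have e2 : 4 * ((p + p') * (q + q')) ≤ ((p + p') + (q + q')) ^ 2 := by
    nlinarith [sq_nonneg ((p + p') - (q + q'))]
  have e3 : 4 * (p' * q') ≤ (p' + q') ^ 2 := by nlinarith [sq_nonneg (p' - q')]
  set X := p + p' with hX
  set Y := q + q' with hY
  have hXY0 : 0 ≤ X + Y := by linarith
  have key : (p * q + p * q' + p' * q) = X * Y - p' * q' := by rw [hX, hY]; ring
  rw [key]
  rcases le_total r β with h | h
  · have e4 : (X + Y) ^ 2 ≤ u ^ 2 := by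
      apply pow_le_pow_left₀ hXY0
      linarith
    have e5 : X * Y ≤ M := by linarith
    have e6 : X * Y * β ≤ M * β := mul_le_mul_of_nonneg_right e5 hβ0
    have e7 : p' * q' * r ≤ p' * q' * β := mul_le_mul_of_nonneg_left h e1
    nlinarith
  · set d := κ - (p' + q') with hd
    have hd0 : 0 ≤ d := by linarith
    have f1 : X + Y ≤ u - d := by rw [hX, hY, hd]; linarith
    have f2 : (X + Y) ^ 2 ≤ (u - d) ^ 2 := pow_le_pow_left₀ hXY0 f1 2
    have f3 : (p' + q') ^ 2 ≤ (u - d) ^ 2 := by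
      apply pow_le_pow_left₀ (by linarith)
      rw [hd]; linarith
    have f4 : 4 * (X * Y) * β ≤ (u - d) ^ 2 * β :=
      mul_le_mul_of_nonneg_right (by linarith) hβ0
    have f5 : 4 * (p' * q') * (r - β) ≤ (u - d) ^ 2 * (r - β) :=
      mul_le_mul_of_nonneg_right (by linarith) (by linarith)
    have f6 : 4 * ((X * Y - p' * q') * β + p' * q' * r) ≤ (u - d) ^ 2 * r := by nlinarith
    have f7 : 2 * r ≤ u + d - 2 := by rw [hd]; linarith
    have f8 : (u - d) ^ 2 * (2 * r) ≤ (u - d) ^ 2 * (u + d - 2) :=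
      mul_le_mul_of_nonneg_left f7 (sq_nonneg _)
    have f9 : (u - d) * (u + d - 2) ≤ (u - 1) ^ 2 := by nlinarith [sq_nonneg (d - 1)]
    have hud : 0 ≤ u - d := hXY0.trans f1
    have f10 : (u - d) * ((u - d) * (u + d - 2)) ≤ u * (u - 1) ^ 2 := by
      calc (u - d) * ((u - d) * (u + d - 2)) ≤ (u - d) * (u - 1) ^ 2 :=
            mul_le_mul_of_nonneg_left f9 hud
        _ ≤ u * (u - 1) ^ 2 := mul_le_mul_of_nonneg_right (by linarith) (sq_nonneg _)
    have f11 : u * (u - 1) ^ 2 ≤ u ^ 2 * (u - 1) := by nlinarith [mul_nonneg (by linarith : 0 ≤ u) (by linarith : (0 : ℤ) ≤ u - 1)]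
    have f12 : u ^ 2 * (u - 1) ≤ u ^ 2 * (2 * β) := mul_le_mul_of_nonneg_left hβ (sq_nonneg _)
    have f13 : u ^ 2 * (2 * β) ≤ 4 * M * (2 * β) := mul_le_mul_of_nonneg_right hM (by linarith)
    have f14 : 8 * ((X * Y - p' * q') * β + p' * q' * r) ≤ 8 * (β * M) := by
      calc 8 * ((X * Y - p' * q') * β + p' * q' * r)
          = 2 * (4 * ((X * Y - p' * q') * β + p' * q' * r)) := by ring
        _ ≤ 2 * ((u - d) ^ 2 * r) := by linarith
        _ = (u - d) ^ 2 * (2 * r) := by ring
        _ ≤ (u - d) ^ 2 * (u + d - 2) := f8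
        _ = (u - d) * ((u - d) * (u + d - 2)) := by ring
        _ ≤ u * (u - 1) ^ 2 := f10
        _ ≤ u ^ 2 * (u - 1) := f11
        _ ≤ u ^ 2 * (2 * β) := f12
        _ ≤ 4 * M * (2 * β) := f13
        _ = 8 * (β * M) := by ring
    linarith

lemma arith_M (w : ℕ) : (w + 2) ^ 2 ≤ 4 * (((w + 1) / 2 + 1) * ((w + 2) / 2 + 1)) := by
  rcases Nat.even_or_odd' w with ⟨k, rfl | rfl⟩
  · rw [show (2 * k + 1) / 2 = k by omega, show (2 * k + 2) / 2 = k + 1 by omega]
    nlinarith
  · rw [show (2 * k + 1 + 1) / 2 = k + 1 by omega, show (2 * k + 1 + 2) / 2 = k + 1 by omega]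
    nlinarith

lemma arith_zero (w X Y : ℕ) (h : X + Y ≤ w + 2) :
    X * Y ≤ ((w + 1) / 2 + 1) * ((w + 2) / 2 + 1) := by
  have h1 := arith_M w
  have h2 : 4 * (X * Y) ≤ (X + Y) ^ 2 := by
    zify
    nlinarith [sq_nonneg ((X : ℤ) - Y)]
  have h3 : (X + Y) ^ 2 ≤ (w + 2) ^ 2 := Nat.pow_le_pow_left h 2
  omega

lemma arith_main (w p p' q q' κ r : ℕ) (h1 : p + q + κ ≤ w + 2) (h2 : p' + q' ≤ κ)
    (hr : 2 * r + 2 + p' + q' ≤ 2 * κ) :
    (p * q + p * q' + p' * q) * (w / 2 + 1) + p' * q' * r ≤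
      (w / 2 + 1) * (((w + 1) / 2 + 1) * ((w + 2) / 2 + 1)) := by
  have hM := arith_M w
  have hβ : w + 1 ≤ 2 * (w / 2 + 1) := by omega
  generalize w / 2 + 1 = β at hβ ⊢
  generalize ((w + 1) / 2 + 1) * ((w + 2) / 2 + 1) = M at hM ⊢
  zify at h1 h2 hr hM hβ ⊢
  exact arith_aux (w + 2) p p' q q' κ r β M (Int.natCast_nonneg _) (Int.natCast_nonneg _)
    (Int.natCast_nonneg _) (Int.natCast_nonneg _) (by linarith) (by linarith)
    (Int.natCast_nonneg _) (by linarith) (by linarith) (Int.natCast_nonneg _) (by linarith)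
    (by linarith [Int.natCast_nonneg w])

variable {α : Type} [DecidableEq α]

/-- the two new vertices are different -/
lemma St.disj {A B C : Finset α} {e1 e2 : α} {F G H : Finset (α → α)}
    (h : St A B C e1 e2 F G H) (hN : 2 ≤ A.card + B.card + C.card) (hH : H.Nonempty) :
    Disjoint (F.image fun f => f e1) (G.image fun g => g e2) := by
  rw [disjoint_left]
  intro y hyF hyG
  obtain ⟨f, hf, hfy⟩ := mem_image.1 hyF
  obtain ⟨g, hg, hgy⟩ := mem_image.1 hyG
  obtain ⟨k, hk⟩ := hH
  have hn1 := h.n1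
  have hn2 := h.n2
  simp only [mem_union, not_or] at hn1 hn2
  have h1 := h.mF.mem f hf e1 (mem_insert_self _ _)
  have h1' := h.mF.ne f hf e1 (mem_insert_self _ _)
  have h2 := h.mG.mem g hg e2 (mem_insert_self _ _)
  have h2' := h.mG.ne g hg e2 (mem_insert_self _ _)
  rw [hfy] at h1 h1'
  rw [hgy] at h2 h2'
  rw [mem_insert, mem_union] at h1 h2
  have hyA : y ∈ A := by
    rcases h1 with h1 | h1 | h1
    · exact absurd h1 h1'
    · exact h1
    · rcases h2 with h2 | h2 | h2
      · exact absurd h2 h2'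
      · exact h2
      · exact absurd h2 (disjoint_left.1 h.dBC h1)
  have hyB : y ∉ B := fun h3 => (disjoint_left.1 h.dAB) hyA h3
  have hyC : y ∉ C := fun h3 => (disjoint_left.1 h.dAC) hyA h3
  set S := (A ∪ B ∪ C).erase y with hS
  have hSne : S.Nonempty := by
    rw [← card_pos, hS, card_erase_of_mem (mem_union_left _ (mem_union_left _ hyA)),
      card_union_of_disjoint (disjoint_union_left.2 ⟨h.dAC, h.dBC⟩),
      card_union_of_disjoint h.dAB]
    omega
  obtain ⟨v, hv, h3⟩ := h.conn f hf g hg k hk S (erase_subset _ _) hSne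
  have hmem : ∀ w, w ∈ S ↔ w ≠ y ∧ (w ∈ A ∨ w ∈ B ∨ w ∈ C) := by
    intro w
    rw [hS, mem_erase, mem_union, mem_union, or_assoc]
  rw [hmem] at hv
  have hvV := hv.2
  -- the first matching
  have k1 : f v ∈ S := by
    by_cases hvC : v ∈ C
    · rw [h.iF f hf v hvC, hmem]
      exact hv
    · have hvW : v ∈ insert e1 (A ∪ B) := by
        rw [mem_insert, mem_union]
        exact Or.inr (hvV.imp_right fun h9 => h9.resolve_right hvC)
      have g1 := h.mF.mem f hf v hvW
      have g2 := h.mF.inv f hf v hvW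
      have g3 : f v ≠ e1 := by
        intro g4
        rw [g4, hfy] at g2
        exact hv.1 g2.symm
      have g5 : f v ≠ y := by
        intro g4
        rw [g4, ← hfy, h.mF.inv f hf e1 (mem_insert_self _ _)] at g2
        rcases hv.2 with g6 | g6 | g6
        · exact hn1.1.1 (g2 ▸ g6)
        · exact hn1.1.2 (g2 ▸ g6)
        · exact hvC g6
      rw [hmem]
      rw [mem_insert, mem_union] at g1
      rcases g1 with g1 | g1 | g1
      · exact absurd g1 g3
      · exact ⟨g5, Or.inl g1⟩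
      · exact ⟨g5, Or.inr (Or.inl g1)⟩
  have k2 : g v ∈ S := by
    by_cases hvB : v ∈ B
    · rw [h.iG g hg v hvB, hmem]
      exact hv
    · have hvW : v ∈ insert e2 (A ∪ C) := by
        rw [mem_insert, mem_union]
        exact Or.inr (hvV.imp_right fun h9 => h9.resolve_left hvB)
      have g1 := h.mG.mem g hg v hvW
      have g2 := h.mG.inv g hg v hvW
      have g3 : g v ≠ e2 := by
        intro g4
        rw [g4, hgy] at g2
        exact hv.1 g2.symm
      have g5 : g v ≠ y := by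
        intro g4
        rw [g4, ← hgy, h.mG.inv g hg e2 (mem_insert_self _ _)] at g2
        rcases hv.2 with g6 | g6 | g6
        · exact hn2.1.1 (g2 ▸ g6)
        · exact hvB g6
        · exact hn2.2 (g2 ▸ g6)
      rw [hmem]
      rw [mem_insert, mem_union] at g1
      rcases g1 with g1 | g1 | g1
      · exact absurd g1 g3
      · exact ⟨g5, Or.inl g1⟩
      · exact ⟨g5, Or.inr (Or.inr g1)⟩
  have k3 : k v ∈ S := by
    by_cases hvA : v ∈ A
    · rw [h.iH k hk v hvA, hmem]
      exact hv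
    · have hvW : v ∈ B ∪ C := by
        rw [mem_union]
        exact hvV.resolve_left hvA
      have g1 := h.mH.mem k hk v hvW
      rw [mem_union] at g1
      rw [hmem]
      refine ⟨?_, Or.inr g1⟩
      rintro g4
      rw [g4] at g1
      exact g1.elim hyB hyC
  rcases h3 with h3 | h3 | h3
  · exact h3 k1
  · exact h3 k2
  · exact h3 k3

/-- the third new vertex -/
lemma St.disj3 {A B C : Finset α} {e1 e2 : α} {F G H : Finset (α → α)}
    (h : St A B C e1 e2 F G H) (hN : 3 ≤ A.card + B.card + C.card) {y : α} (hy : y ∈ B)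
    (hyF : y ∈ F.image fun f => f e1) :
    Disjoint (H.image fun k => k y) ((G.image fun g => g e2) ∩ C) := by
  rw [disjoint_left]
  intro z hzH hzG
  rw [mem_inter] at hzG
  obtain ⟨f, hf, hfy⟩ := mem_image.1 hyF
  obtain ⟨g, hg, hgz⟩ := mem_image.1 hzG.1
  obtain ⟨k, hk, hkz⟩ := mem_image.1 hzH
  have hz := hzG.2
  have hn1 := h.n1
  have hn2 := h.n2
  simp only [mem_union, not_or] at hn1 hn2
  have hyA : y ∉ A := fun h3 => (disjoint_left.1 h.dAB) h3 hy
  have hyC : y ∉ C := fun h3 => (disjoint_left.1 h.dBC) hy h3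
  have hzA : z ∉ A := fun h3 => (disjoint_left.1 h.dAC) h3 hz
  have hzB : z ∉ B := fun h3 => (disjoint_left.1 h.dBC) h3 hz
  have hyz : z ≠ y := fun h3 => hyC (h3 ▸ hz)
  set S := ((A ∪ B ∪ C).erase y).erase z with hS
  have hSne : S.Nonempty := by
    have e1 : z ∈ (A ∪ B ∪ C).erase y := mem_erase.2 ⟨hyz, mem_union_right _ hz⟩
    have e2 : y ∈ A ∪ B ∪ C := mem_union_left _ (mem_union_right _ hy)
    rw [← card_pos, hS, card_erase_of_mem e1, card_erase_of_mem e2,
      card_union_of_disjoint (disjoint_union_left.2 ⟨h.dAC, h.dBC⟩),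
      card_union_of_disjoint h.dAB]
    omega
  obtain ⟨v, hv, h3⟩ := h.conn f hf g hg k hk S ((erase_subset _ _).trans (erase_subset _ _)) hSne
  have hmem : ∀ w, w ∈ S ↔ w ≠ z ∧ w ≠ y ∧ (w ∈ A ∨ w ∈ B ∨ w ∈ C) := by
    intro w
    rw [hS, mem_erase, mem_erase, mem_union, mem_union, or_assoc]
  rw [hmem] at hv
  have hvV := hv.2.2
  have k1 : f v ∈ S := by
    by_cases hvC : v ∈ C
    · rw [h.iF f hf v hvC, hmem]
      exact hv
    · have hvW : v ∈ insert e1 (A ∪ B) := by
        rw [mem_insert, mem_union]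
        exact Or.inr (hvV.imp_right fun h9 => h9.resolve_right hvC)
      have g1 := h.mF.mem f hf v hvW
      have g2 := h.mF.inv f hf v hvW
      have g3 : f v ≠ e1 := by
        intro g4
        rw [g4, hfy] at g2
        exact hv.2.1 g2.symm
      have g5 : f v ≠ y := by
        intro g4
        rw [g4, ← hfy, h.mF.inv f hf e1 (mem_insert_self _ _)] at g2
        rcases hv.2.2 with g6 | g6 | g6
        · exact hn1.1.1 (g2 ▸ g6)
        · exact hn1.1.2 (g2 ▸ g6)
        · exact hvC g6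
      have g6 : f v ≠ z := by
        intro g7
        rw [g7, mem_insert, mem_union] at g1
        rcases g1 with g1 | g1 | g1
        · exact hn1.2 (g1 ▸ hz)
        · exact hzA g1
        · exact hzB g1
      rw [hmem]
      rw [mem_insert, mem_union] at g1
      rcases g1 with g1 | g1 | g1
      · exact absurd g1 g3
      · exact ⟨g6, g5, Or.inl g1⟩
      · exact ⟨g6, g5, Or.inr (Or.inl g1)⟩
  have k2 : g v ∈ S := by
    by_cases hvB : v ∈ B
    · rw [h.iG g hg v hvB, hmem]
      exact hv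
    · have hvW : v ∈ insert e2 (A ∪ C) := by
        rw [mem_insert, mem_union]
        exact Or.inr (hvV.imp_right fun h9 => h9.resolve_left hvB)
      have g1 := h.mG.mem g hg v hvW
      have g2 := h.mG.inv g hg v hvW
      have g3 : g v ≠ e2 := by
        intro g4
        rw [g4, hgz] at g2
        exact hv.1 g2.symm
      have g5 : g v ≠ z := by
        intro g4
        rw [g4, ← hgz, h.mG.inv g hg e2 (mem_insert_self _ _)] at g2
        rcases hv.2.2 with g6 | g6 | g6
        · exact hn2.1.1 (g2 ▸ g6)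
        · exact hvB g6
        · exact hn2.2 (g2 ▸ g6)
      have g6 : g v ≠ y := by
        intro g7
        rw [g7, mem_insert, mem_union] at g1
        rcases g1 with g1 | g1 | g1
        · exact hn2.1.2 (g1 ▸ hy)
        · exact hyA g1
        · exact hyC g1
      rw [hmem]
      rw [mem_insert, mem_union] at g1
      rcases g1 with g1 | g1 | g1
      · exact absurd g1 g3
      · exact ⟨g5, g6, Or.inl g1⟩
      · exact ⟨g5, g6, Or.inr (Or.inr g1)⟩
  have k3 : k v ∈ S := by
    by_cases hvA : v ∈ A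
    · rw [h.iH k hk v hvA, hmem]
      exact hv
    · have hvW : v ∈ B ∪ C := by
        rw [mem_union]
        exact hvV.resolve_left hvA
      have g1 := h.mH.mem k hk v hvW
      have g2 := h.mH.inv k hk v hvW
      have g3 := h.mH.inv k hk y (mem_union_left _ hy)
      rw [mem_union] at g1
      rw [hmem]
      refine ⟨?_, ?_, Or.inr g1⟩
      · intro g4
        rw [g4, ← hkz, g3] at g2
        exact hv.2.1 g2.symm
      · intro g4
        rw [g4, hkz] at g2
        exact hv.1 g2.symm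
  rcases h3 with h3 | h3 | h3
  · exact h3 k1
  · exact h3 k2
  · exact h3 k3

/-- the case of three steps -/
lemma St.three {A B C : Finset α} {e1 e2 y z : α} {F G H : Finset (α → α)}
    (h : St A B C e1 e2 F G H) (w : ℕ) (hN : A.card + B.card + C.card = w + 3) (hy : y ∈ B)
    (hyF : y ∈ F.image fun f => f e1) (hz : z ∈ C) (hzG : z ∈ G.image fun g => g e2)
    (ih : ∀ (A B C : Finset α) (e1 e2 : α) (F G H : Finset (α → α)), St A B C e1 e2 F G H →
      A.card + B.card + C.card = w → F.card * G.card * H.card ≤ Bd (w + 1)) :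
    (F.filter fun f => f e1 = y).card * (G.filter fun g => g e2 = z).card * H.card ≤
      (B.card + C.card - 1 - ((G.image fun g => g e2) ∩ C).card) * Bd (w + 1) := by
  have hyC : y ∉ C := fun h3 => (disjoint_left.1 h.dBC) hy h3
  have hzB : z ∉ B := fun h3 => (disjoint_left.1 h.dBC) h3 hz
  set Q := H.image fun k => k y with hQ
  have hcard : H.card = ∑ a ∈ Q, (H.filter fun k => k y = a).card := card_eq_sum_card_image _ _
  have hQsub : Q ⊆ (B ∪ C).erase y := by
    intro a ha
    obtain ⟨k, hk, rfl⟩ := mem_image.1 ha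
    exact mem_erase.2 ⟨h.mH.ne k hk y (mem_union_left _ hy), h.mH.mem k hk y (mem_union_left _ hy)⟩
  have hdisj : Disjoint Q ((G.image fun g => g e2) ∩ C) := h.disj3 (by omega) hy hyF
  have hQcard : Q.card ≤ B.card + C.card - 1 - ((G.image fun g => g e2) ∩ C).card := by
    have h1 : Q ∪ ((G.image fun g => g e2) ∩ C) ⊆ (B ∪ C).erase y := by
      refine union_subset hQsub ?_
      intro v hv
      rw [mem_inter] at hv
      exact mem_erase.2 ⟨fun h4 => hyC (h4 ▸ hv.2), mem_union_right _ hv.2⟩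
    have h2 := card_le_card h1
    rw [card_union_of_disjoint hdisj, card_erase_of_mem (mem_union_left _ hy),
      card_union_of_disjoint h.dBC] at h2
    omega
  have hterm : ∀ a ∈ Q, (F.filter fun f => f e1 = y).card * (G.filter fun g => g e2 = z).card *
      (H.filter fun k => k y = a).card ≤ Bd (w + 1) := by
    intro a ha
    have ha1 := hQsub ha
    rw [mem_erase, mem_union] at ha1
    rcases ha1.2 with haB | haC
    · have h1 := ih _ _ _ _ _ _ _ _ (h.stepBB hy hz haB ha1.1) (by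
        rw [card_erase_of_mem (mem_erase.2 ⟨ha1.1, haB⟩), card_erase_of_mem hy,
          card_erase_of_mem hz]
        have e1 := card_pos.2 ⟨y, hy⟩
        have e2 := card_pos.2 ⟨z, hz⟩
        have e3 : 1 < B.card := one_lt_card.2 ⟨a, haB, y, hy, ha1.1⟩
        omega)
      calc _ = _ := by ring
        _ ≤ _ := h1
    · have haz : a ≠ z := by
        rintro rfl
        exact (disjoint_left.1 hdisj) ha (mem_inter.2 ⟨hzG, hz⟩)
      have h1 := ih _ _ _ _ _ _ _ _ (h.stepBC hy hz haC haz) (by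
        rw [card_erase_of_mem (mem_erase.2 ⟨haz, haC⟩), card_erase_of_mem hy,
          card_erase_of_mem hz]
        have e1 := card_pos.2 ⟨y, hy⟩
        have e2 := card_pos.2 ⟨z, hz⟩
        have e3 : 1 < C.card := one_lt_card.2 ⟨a, haC, z, hz, haz⟩
        omega)
      calc _ = _ := by ring
        _ ≤ _ := h1
  rw [hcard, mul_sum]
  calc _ ≤ ∑ a ∈ Q, Bd (w + 1) := sum_le_sum hterm
    _ = Q.card * Bd (w + 1) := by rw [sum_const, smul_eq_mul]
    _ ≤ _ := Nat.mul_le_mul_right _ hQcard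

/-- **The bound** for the number of configurations. -/
theorem St.bound (N : ℕ) : ∀ (A B C : Finset α) (e1 e2 : α) (F G H : Finset (α → α)),
    St A B C e1 e2 F G H → A.card + B.card + C.card = N →
    F.card * G.card * H.card ≤ Bd (N + 1) := by
  induction N using Nat.strong_induction_on with
  | _ N IH =>
  intro A B C e1 e2 F G H h hN
  have hAB := card_union_of_disjoint h.dAB
  have hAC := card_union_of_disjoint h.dAC
  have hBC := card_union_of_disjoint h.dBC
  rcases Nat.lt_or_ge N 3 with hN3 | hN3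
  · have h1 := h.mF.small ((card_insert_le _ _).trans (by omega))
    have h2 := h.mG.small ((card_insert_le _ _).trans (by omega))
    have h3 := h.mH.small (by omega)
    calc F.card * G.card * H.card ≤ 1 * 1 * 1 := Nat.mul_le_mul (Nat.mul_le_mul h1 h2) h3
      _ ≤ _ := Bd_pos _
  obtain ⟨w, rfl⟩ : ∃ w, N = w + 3 := ⟨N - 3, by omega⟩
  rcases H.eq_empty_or_nonempty with hH | hH
  · rw [hH, card_empty, mul_zero]
    exact Nat.zero_le _
  set P := F.image fun f => f e1 with hP
  set Q := G.image fun g => g e2 with hQ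
  have hdisj : Disjoint P Q := h.disj (by omega) hH
  have hn1 := h.n1
  have hn2 := h.n2
  simp only [mem_union, not_or] at hn1 hn2
  have hPsub : ∀ y ∈ P, y ∈ A ∨ y ∈ B := by
    intro y hy
    obtain ⟨f, hf, rfl⟩ := mem_image.1 hy
    have h1 := h.mF.mem f hf e1 (mem_insert_self _ _)
    have h2 := h.mF.ne f hf e1 (mem_insert_self _ _)
    rw [mem_insert, mem_union] at h1
    tauto
  have hQsub : ∀ z ∈ Q, z ∈ A ∨ z ∈ C := by
    intro z hz
    obtain ⟨g, hg, rfl⟩ := mem_image.1 hz
    have h1 := h.mG.mem g hg e2 (mem_insert_self _ _)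
    have h2 := h.mG.ne g hg e2 (mem_insert_self _ _)
    rw [mem_insert, mem_union] at h1
    tauto
  -- the two step bound
  have two : ∀ y ∈ P, ∀ z ∈ Q, y ∈ A ∨ z ∈ A →
      (F.filter fun f => f e1 = y).card * (G.filter fun g => g e2 = z).card * H.card ≤
        Bd (w + 2) := by
    intro y hy z hz hyz
    have hne : y ≠ z := fun h1 => (disjoint_left.1 hdisj) hy (h1 ▸ hz)
    rcases hPsub y hy with hyA | hyB
    · rcases hQsub z hz with hzA | hzC
      · have h1 := IH (w + 1) (by omega) _ _ _ _ _ _ _ _ (h.stepAA hyA hzA hne) (by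
          rw [card_erase_of_mem (mem_erase.2 ⟨hne.symm, hzA⟩), card_erase_of_mem hyA]
          have e3 : 1 < A.card := one_lt_card.2 ⟨y, hyA, z, hzA, hne⟩
          omega)
        exact h1
      · have h1 := IH (w + 1) (by omega) _ _ _ _ _ _ _ _ (h.stepAC hyA hzC) (by
          rw [card_erase_of_mem hzC, card_erase_of_mem hyA]
          have e1 := card_pos.2 ⟨y, hyA⟩
          have e2 := card_pos.2 ⟨z, hzC⟩
          omega)
        calc _ = _ := by ring
          _ ≤ _ := h1
    · rcases hQsub z hz with hzA | hzC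
      · have h1 := IH (w + 1) (by omega) _ _ _ _ _ _ _ _ (h.swap.stepAC hzA hyB) (by
          rw [card_erase_of_mem hyB, card_erase_of_mem hzA]
          have e1 := card_pos.2 ⟨y, hyB⟩
          have e2 := card_pos.2 ⟨z, hzA⟩
          omega)
        calc _ = _ := by ring
          _ ≤ _ := h1
      · exfalso
        rcases hyz with h1 | h1
        · exact (disjoint_left.1 h.dAB) h1 hyB
        · exact (disjoint_left.1 h.dAC) h1 hzC
  -- the three step bound
  set r := B.card + C.card - 1 - max (P ∩ B).card (Q ∩ C).card with hr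
  have three : ∀ y ∈ P, ∀ z ∈ Q, y ∈ B → z ∈ C →
      (F.filter fun f => f e1 = y).card * (G.filter fun g => g e2 = z).card * H.card ≤
        r * Bd (w + 1) := by
    intro y hy z hz hyB hzC
    have ih := IH w (by omega)
    have h1 := h.three w hN hyB hy hzC hz ih
    have h2 := h.swap.three w (by omega) hzC hz hyB hy ih
    rcases le_total (P ∩ B).card (Q ∩ C).card with h3 | h3
    · rw [hr, max_eq_right h3]
      exact h1
    · rw [hr, max_eq_left h3]
      calc _ = _ := by ring
        _ ≤ _ := h2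
        _ = _ := by rw [add_comm C.card B.card]
  -- splitting the sums
  have hFc : F.card = ∑ y ∈ P, (F.filter fun f => f e1 = y).card := card_eq_sum_card_image _ _
  have hGc : G.card = ∑ z ∈ Q, (G.filter fun g => g e2 = z).card := card_eq_sum_card_image _ _
  have hPsplit : P = (P ∩ A) ∪ (P ∩ B) := by
    ext y
    rw [mem_union, mem_inter, mem_inter]
    constructor
    · intro hy
      rcases hPsub y hy with h1 | h1
      · exact Or.inl ⟨hy, h1⟩
      · exact Or.inr ⟨hy, h1⟩
    · rintro (h1 | h1)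
      · exact h1.1
      · exact h1.1
  have hQsplit : Q = (Q ∩ A) ∪ (Q ∩ C) := by
    ext y
    rw [mem_union, mem_inter, mem_inter]
    constructor
    · intro hy
      rcases hQsub y hy with h1 | h1
      · exact Or.inl ⟨hy, h1⟩
      · exact Or.inr ⟨hy, h1⟩
    · rintro (h1 | h1)
      · exact h1.1
      · exact h1.1
  have hPd : Disjoint (P ∩ A) (P ∩ B) := h.dAB.mono inter_subset_right inter_subset_right
  have hQd : Disjoint (Q ∩ A) (Q ∩ C) := h.dAC.mono inter_subset_right inter_subset_right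
  have hsum : F.card * G.card * H.card = ∑ y ∈ P, ∑ z ∈ Q,
      (F.filter fun f => f e1 = y).card * (G.filter fun g => g e2 = z).card * H.card := by
    rw [hFc, hGc, sum_mul_sum, sum_mul]
    refine sum_congr rfl fun y _ => ?_
    rw [sum_mul]
  set Φ : α → α → ℕ := fun y z =>
    (F.filter fun f => f e1 = y).card * (G.filter fun g => g e2 = z).card * H.card with hΦ
  have hbig : ∑ y ∈ P, ∑ z ∈ Q, Φ y z ≤
      ((P ∩ A).card * (Q ∩ A).card + (P ∩ A).card * (Q ∩ C).card +
        (P ∩ B).card * (Q ∩ A).card) * Bd (w + 2) + (P ∩ B).card * (Q ∩ C).card * r * Bd (w + 1) := by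
    have e1 : ∑ y ∈ P, ∑ z ∈ Q, Φ y z = (∑ y ∈ P ∩ A, ∑ z ∈ Q ∩ A, Φ y z +
        ∑ y ∈ P ∩ A, ∑ z ∈ Q ∩ C, Φ y z) + (∑ y ∈ P ∩ B, ∑ z ∈ Q ∩ A, Φ y z +
        ∑ y ∈ P ∩ B, ∑ z ∈ Q ∩ C, Φ y z) := by
      rw [← sum_add_distrib, ← sum_add_distrib]
      conv_lhs => rw [hPsplit]
      rw [sum_union hPd]
      congr 1
      · refine sum_congr rfl fun y _ => ?_
        conv_lhs => rw [hQsplit]
        rw [sum_union hQd]
      · refine sum_congr rfl fun y _ => ?_
        conv_lhs => rw [hQsplit]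
        rw [sum_union hQd]
    rw [e1]
    have b1 : ∑ y ∈ P ∩ A, ∑ z ∈ Q ∩ A, Φ y z ≤ (P ∩ A).card * ((Q ∩ A).card * Bd (w + 2)) := by
      refine (sum_le_card_nsmul _ _ _ fun y hy => ?_).trans (le_of_eq (smul_eq_mul _ _))
      refine (sum_le_card_nsmul _ _ _ fun z hz => ?_).trans (le_of_eq (smul_eq_mul _ _))
      rw [mem_inter] at hy hz
      exact two y hy.1 z hz.1 (Or.inl hy.2)
    have b2 : ∑ y ∈ P ∩ A, ∑ z ∈ Q ∩ C, Φ y z ≤ (P ∩ A).card * ((Q ∩ C).card * Bd (w + 2)) := by
      refine (sum_le_card_nsmul _ _ _ fun y hy => ?_).trans (le_of_eq (smul_eq_mul _ _))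
      refine (sum_le_card_nsmul _ _ _ fun z hz => ?_).trans (le_of_eq (smul_eq_mul _ _))
      rw [mem_inter] at hy hz
      exact two y hy.1 z hz.1 (Or.inl hy.2)
    have b3 : ∑ y ∈ P ∩ B, ∑ z ∈ Q ∩ A, Φ y z ≤ (P ∩ B).card * ((Q ∩ A).card * Bd (w + 2)) := by
      refine (sum_le_card_nsmul _ _ _ fun y hy => ?_).trans (le_of_eq (smul_eq_mul _ _))
      refine (sum_le_card_nsmul _ _ _ fun z hz => ?_).trans (le_of_eq (smul_eq_mul _ _))
      rw [mem_inter] at hy hz
      exact two y hy.1 z hz.1 (Or.inr hz.2)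
    have b4 : ∑ y ∈ P ∩ B, ∑ z ∈ Q ∩ C, Φ y z ≤
        (P ∩ B).card * ((Q ∩ C).card * (r * Bd (w + 1))) := by
      refine (sum_le_card_nsmul _ _ _ fun y hy => ?_).trans (le_of_eq (smul_eq_mul _ _))
      refine (sum_le_card_nsmul _ _ _ fun z hz => ?_).trans (le_of_eq (smul_eq_mul _ _))
      rw [mem_inter] at hy hz
      exact three y hy.1 z hz.1 hy.2 hz.2
    calc _ ≤ ((P ∩ A).card * ((Q ∩ A).card * Bd (w + 2)) +
        (P ∩ A).card * ((Q ∩ C).card * Bd (w + 2))) +
        ((P ∩ B).card * ((Q ∩ A).card * Bd (w + 2)) +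
        (P ∩ B).card * ((Q ∩ C).card * (r * Bd (w + 1)))) :=
          add_le_add (add_le_add b1 b2) (add_le_add b3 b4)
      _ = _ := by ring
  rw [hsum]
  refine hbig.trans ?_
  -- the inequality
  have hpq : (P ∩ A).card + (Q ∩ A).card ≤ A.card := by
    rw [← card_union_of_disjoint (hdisj.mono inter_subset_left inter_subset_left)]
    exact card_le_card (union_subset inter_subset_right inter_subset_right)
  have hp' : (P ∩ B).card ≤ B.card := card_le_card inter_subset_right
  have hq' : (Q ∩ C).card ≤ C.card := card_le_card inter_subset_right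
  rw [show w + 3 + 1 = w + 1 + 3 by ring, Bd_add_three (w + 1), show w + 1 + 1 = w + 2 by ring,
    show w + 2 = w + 1 + 1 by ring, Bd_succ (w + 1)]
  have hmul : (((P ∩ A).card * (Q ∩ A).card + (P ∩ A).card * (Q ∩ C).card +
        (P ∩ B).card * (Q ∩ A).card) * ((w + 1) / 2 + 1) + (P ∩ B).card * (Q ∩ C).card * r) ≤
      ((w + 1) / 2 + 1) * (((w + 1 + 1) / 2 + 1) * ((w + 1 + 2) / 2 + 1)) := by
    rcases Nat.eq_zero_or_pos ((P ∩ B).card * (Q ∩ C).card) with h0 | h0
    · have h1 := arith_zero (w + 1) ((P ∩ A).card + (P ∩ B).card) ((Q ∩ A).card + (Q ∩ C).card)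
        (by omega)
      rw [h0, zero_mul, add_zero, mul_comm _ ((w + 1) / 2 + 1)]
      refine Nat.mul_le_mul_left _ (le_trans (le_of_eq ?_) h1)
      calc _ = (P ∩ A).card * (Q ∩ A).card + (P ∩ A).card * (Q ∩ C).card +
          (P ∩ B).card * (Q ∩ A).card + (P ∩ B).card * (Q ∩ C).card := by rw [h0, add_zero]
        _ = _ := by ring
    · have h1 : 1 ≤ (P ∩ B).card := Nat.pos_of_mul_pos_right h0
      have h2 : 1 ≤ (Q ∩ C).card := Nat.pos_of_mul_pos_left h0
      refine arith_main (w + 1) _ _ _ _ (B.card + C.card) r (by omega) (by omega) ?_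
      omega
  calc _ = (((P ∩ A).card * (Q ∩ A).card + (P ∩ A).card * (Q ∩ C).card +
        (P ∩ B).card * (Q ∩ A).card) * ((w + 1) / 2 + 1) + (P ∩ B).card * (Q ∩ C).card * r) *
          Bd (w + 1) := by ring
    _ ≤ _ := Nat.mul_le_mul_right _ hmul
    _ = _ := by ring

end Pool.Agent.T9h48.TSP
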