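import Mathlib

/-!
# Light multigraphs with all cuts of size at least two are locally a cycle
-/

open Finset

set_option autoImplicit false

namespace Pool.Agent.T9h48.TSP

variable {n : ℕ}

/-- the total weight of a multiset of pairs -/
def S {V : Type} (M : Multiset V) (f : V → ℕ) : ℕ := (M.map f).sum

section
variable {V : Type}

lemma S_add (M N : Multiset V) (f : V → ℕ) : S (M + N) f = S M f + S N f := by
  simp [S]

lemma S_mono (M : Multiset V) {f g : V → ℕ} (h : ∀ e, f e ≤ g e) : S M f ≤ S M g :=
  Multiset.sum_map_le_sum_map _ _ fun e _ => h e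

lemma S_lin (M : Multiset V) (f g : V → ℕ) : S M (fun e => f e + g e) = S M f + S M g := by
  simp [S, Multiset.sum_map_add]

lemma S_mul (M : Multiset V) (c : ℕ) (f : V → ℕ) : S M (fun e => c * f e) = c * S M f := by
  simp [S, Multiset.sum_map_mul_left]

lemma S_sum {ι : Type} (s : Finset ι) (M : Multiset V) (f : ι → V → ℕ) :
    ∑ u ∈ s, S M (f u) = S M (fun e => ∑ u ∈ s, f u e) := by
  induction M using Multiset.induction with
  | empty => simp [S]
  | cons a M ih =>
    simp only [S, Multiset.map_cons, Multiset.sum_cons, sum_add_distrib] at ih ⊢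
    rw [ih]
end

/-- the pair crosses the cut `χ` -/
def cross (χ : Fin n → Bool) (e : Fin n × Fin n) : ℕ := if χ e.1 = χ e.2 then 0 else 1

/-- the pair is not a loop -/
def nl (e : Fin n × Fin n) : ℕ := if e.1 = e.2 then 0 else 1

/-- the pair is not a loop and contains `u` -/
def inc (u : Fin n) (e : Fin n × Fin n) : ℕ := if e.1 ≠ e.2 ∧ (e.1 = u ∨ e.2 = u) then 1 else 0

/-- the pair joins `u` and `v` -/
def jn (u v : Fin n) (e : Fin n × Fin n) : ℕ :=
  if (e.1 = u ∧ e.2 = v) ∨ (e.1 = v ∧ e.2 = u) then 1 else 0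

/-- the pair is neither a loop nor a side of the cyclic order -/
def long (q : Equiv.Perm (Fin n)) (e : Fin n × Fin n) : ℕ :=
  if e.1 ≠ e.2 ∧ e.1 ≠ q e.2 ∧ e.2 ≠ q e.1 then 1 else 0

/-- the same, and contains `u` -/
def longAt (q : Equiv.Perm (Fin n)) (u : Fin n) (e : Fin n × Fin n) : ℕ :=
  if (e.1 ≠ e.2 ∧ e.1 ≠ q e.2 ∧ e.2 ≠ q e.1) ∧ (e.1 = u ∨ e.2 = u) then 1 else 0

lemma sum_two (x y : Fin n) (h : x ≠ y) : ∑ u, (if x = u ∨ y = u then 1 else 0) = 2 := by
  have h1 : ∀ u : Fin n, (if x = u ∨ y = u then 1 else 0) =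
      (if x = u then 1 else 0) + (if y = u then 1 else 0) := by
    intro u
    by_cases h1 : x = u
    · have h2 : ¬ y = u := fun h2 => h (h1.trans h2.symm)
      simp [h1, h2]
    · simp [h1]
  rw [sum_congr rfl fun u _ => h1 u, sum_add_distrib]
  simp

lemma sum_inc (e : Fin n × Fin n) : ∑ u, inc u e = 2 * nl e := by
  unfold inc nl
  by_cases h : e.1 = e.2
  · simp [h]
  · simp only [ne_eq, h, not_false_eq_true, true_and]
    rw [sum_two _ _ h]
    simp

lemma sum_longAt (q : Equiv.Perm (Fin n)) (e : Fin n × Fin n) :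
    ∑ u, longAt q u e = 2 * long q e := by
  unfold longAt long
  by_cases h : e.1 ≠ e.2 ∧ e.1 ≠ q e.2 ∧ e.2 ≠ q e.1
  · rw [if_pos h, sum_congr rfl (fun u _ => if_congr (and_iff_right h) rfl rfl), sum_two _ _ h.1]
  · rw [if_neg h]
    simp only [h, false_and]
    simp

lemma inc_eq_cross (u : Fin n) (e : Fin n × Fin n) :
    inc u e = cross (fun x => decide (x = u)) e := by
  unfold inc cross
  by_cases h1 : e.1 = u <;> by_cases h2 : e.2 = u
  · simp [h1, h2]
  · simp [h1, h2, Ne.symm h2]
  · simp [h1, h2]
  · simp [h1, h2]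

lemma cross_two {u v : Fin n} (huv : u ≠ v) (e : Fin n × Fin n) :
    cross (fun x => decide (x = u ∨ x = v)) e + 2 * jn u v e = inc u e + inc v e := by
  unfold inc cross jn
  obtain ⟨x, y⟩ := e
  dsimp only
  by_cases h1 : x = u <;> by_cases h2 : y = u <;> by_cases h3 : x = v <;> by_cases h4 : y = v
  all_goals first
    | (exfalso; exact huv (h1.symm.trans h3))
    | (exfalso; exact huv (h2.symm.trans h4))
    | (subst_vars; simp_all [eq_comm])

lemma inc_eq (q : Equiv.Perm (Fin n)) (hq1 : ∀ w, q w ≠ w) (hq2 : ∀ w, q (q w) ≠ w) (w : Fin n)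
    (e : Fin n × Fin n) :
    inc w e = jn (q w) w e + jn w (q.symm w) e + longAt q w e := by
  unfold inc jn longAt
  obtain ⟨x, y⟩ := e
  dsimp only
  have hq3 : q.symm w ≠ w := fun h => hq1 w (by rw [Equiv.symm_apply_eq] at h; exact h.symm)
  have hq4 : q.symm w ≠ q w := fun h => hq2 w (by rw [Equiv.symm_apply_eq] at h; exact h.symm)
  by_cases hx : x = w
  · subst hx
    by_cases hy : y = x
    · subst hy
      simp [Ne.symm (hq1 _), Ne.symm hq3]
    · by_cases h1 : y = q x
      · subst h1
        have h2 : ¬ q x = x := hq1 x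
        have h3 : ¬ x = q x := Ne.symm h2
        have h4 : ¬ q x = q.symm x := Ne.symm hq4
        simp [h2, h3, h4]
      · by_cases h5 : y = q.symm x
        · subst h5
          have h6 : ¬ q.symm x = x := hq3
          have h7 : ¬ x = q.symm x := Ne.symm h6
          have h8 : ¬ q.symm x = q x := hq4
          simp [h6, h7, h8]
        · have h6 : ¬ x = q y := fun h => h5 (by rw [h, Equiv.symm_apply_apply])
          have h7 : ¬ x = y := Ne.symm hy
          simp [h1, h5, h6, h7, hy]
  · by_cases hy : y = w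
    · subst hy
      by_cases h1 : x = q y
      · subst h1
        have h2 : ¬ q y = y := hq1 y
        have h3 : ¬ y = q y := Ne.symm h2
        have h4 : ¬ q y = q.symm y := Ne.symm hq4
        simp [h2, h3, h4]
      · by_cases h5 : x = q.symm y
        · subst h5
          have h6 : ¬ q.symm y = y := hq3
          have h7 : ¬ y = q.symm y := Ne.symm h6
          have h8 : ¬ q.symm y = q y := hq4
          simp [h6, h7, h8]
        · have h6 : ¬ y = q x := fun h => h5 (by rw [h, Equiv.symm_apply_apply])
          simp [h1, h5, h6, hx]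
    · simp [hx, hy]

lemma longAt_le_inc (q : Equiv.Perm (Fin n)) (w : Fin n) (e : Fin n × Fin n) :
    longAt q w e ≤ inc w e := by
  unfold longAt inc
  split_ifs with h1 h2 h2
  · exact le_rfl
  · exact absurd ⟨h1.1.1, h1.2⟩ h2
  · exact Nat.zero_le _
  · exact le_rfl

/-- **The local structure** of a light product. -/
theorem local_structure (q : Equiv.Perm (Fin n)) (hq1 : ∀ w, q w ≠ w) (hq2 : ∀ w, q (q w) ≠ w)
    (A B : Multiset (Fin n × Fin n)) (hcut1 : ∀ u, 2 ≤ S (A + B) (inc u))
    (hcut2 : ∀ u v, u ≠ v → 2 ≤ S (A + B) (cross (fun x => decide (x = u ∨ x = v))))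
    (a b : Fin n → ℕ) (ha : ∀ u, a u ≤ S A (inc u)) (hb : ∀ u, b u ≤ S B (inc u))
    (hab : ∀ u, 2 ≤ a u + b u) (h : ℕ)
    (hlight : 5 * S (A + B) nl + 2 * S (A + B) (long q) ≤ 5 * n + h) :
    ∃ (O : Fin n → Bool) (Y : Finset (Fin n)), Y.card ≤ h ∧
      (∀ w, w ∉ Y → a w = (if O w = true then 1 else 0) + (if O (q w) = true then 1 else 0)) ∧
      S A nl ≤ (univ.filter fun u => O u = true).card + h ∧
      (univ.filter fun u => O u = true).card ≤ S A nl + h := by
  classical
  set M := A + B with hM
  set ω := S M nl with hω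
  set z := S M (long q) with hz
  have hsumM : ∑ u, S M (inc u) = 2 * ω := by
    rw [S_sum, hω, ← S_mul]
    exact congrArg (S M) (funext sum_inc)
  have hsumA : ∑ u, S A (inc u) = 2 * S A nl := by
    rw [S_sum, ← S_mul]
    exact congrArg (S A) (funext sum_inc)
  have hsumL : ∑ u, S M (longAt q u) = 2 * z := by
    rw [S_sum, hz, ← S_mul]
    exact congrArg (S M) (funext (sum_longAt q))
  set X := univ.filter fun u => a u ≠ S A (inc u) ∨ b u ≠ S B (inc u) ∨ a u + b u ≠ 2 ∨
    S M (longAt q u) ≠ 0 with hX
  set X4 := univ.filter fun u => 4 ≤ S M (inc u) with hX4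
  have hMAB : ∀ u, S M (inc u) = S A (inc u) + S B (inc u) := fun u => S_add _ _ _
  have hXcard : 2 * n + X.card ≤ 2 * ω + 2 * z := by
    have h1 : ∀ u, 2 + (if u ∈ X then 1 else 0) ≤ S M (inc u) + S M (longAt q u) := by
      intro u
      have e1 := ha u
      have e2 := hb u
      have e3 := hab u
      have e4 := hMAB u
      split_ifs with hu
      · rw [hX, mem_filter] at hu
        rcases hu.2 with h2 | h2 | h2 | h2 <;> omega
      · omega
    have h2 := sum_le_sum fun u (_ : u ∈ (univ : Finset (Fin n))) => h1 u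
    rw [sum_add_distrib, sum_add_distrib, hsumM, hsumL, sum_const, card_univ, Fintype.card_fin,
      smul_eq_mul, sum_ite_mem, univ_inter, sum_const, smul_eq_mul] at h2
    omega
  have hX4card : 2 * n + 2 * X4.card ≤ 2 * ω := by
    have h1 : ∀ u, 2 + (if u ∈ X4 then 2 else 0) ≤ S M (inc u) := by
      intro u
      have e1 := hcut1 u
      split_ifs with hu
      · rw [hX4, mem_filter] at hu
        exact hu.2
      · omega
    have h2 := sum_le_sum fun u (_ : u ∈ (univ : Finset (Fin n))) => h1 u
    rw [sum_add_distrib, hsumM, sum_const, card_univ, Fintype.card_fin,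
      smul_eq_mul, sum_ite_mem, univ_inter, sum_const, smul_eq_mul] at h2
    omega
  set Y := X ∪ (X4.image q ∪ X4.image q.symm) with hY
  have hYcard : Y.card ≤ X.card + 2 * X4.card := by
    have h1 : Y.card ≤ _ := card_union_le X (X4.image q ∪ X4.image q.symm)
    have h2 := card_union_le (X4.image q) (X4.image q.symm)
    have h3 := card_image_le (s := X4) (f := q)
    have h4 := card_image_le (s := X4) (f := q.symm)
    omega
  have hYh : Y.card + (ω - n) ≤ h := by omega
  have hωn : n ≤ ω := by omega
  set O : Fin n → Bool := fun u => decide (S A (jn u (q.symm u)) ≠ 0) with hO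
  -- the structure at a good vertex
  have hgood : ∀ w, w ∉ Y → a w = S A (inc w) ∧
      a w = (if O w = true then 1 else 0) + (if O (q w) = true then 1 else 0) := by
    intro w hw
    rw [hY, mem_union, mem_union, not_or, not_or] at hw
    obtain ⟨hwX, hw1, hw2⟩ := hw
    rw [hX, mem_filter] at hwX
    push Not at hwX
    obtain ⟨g1, g2, g3, g4⟩ := hwX (mem_univ _)
    have g5 : S M (inc w) = 2 := by rw [hMAB, ← g1, ← g2, g3]
    have g6 : S M (inc (q w)) ≤ 3 := by
      by_contra hcon
      apply hw2
      rw [mem_image]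
      exact ⟨q w, by rw [hX4, mem_filter]; exact ⟨mem_univ _, by omega⟩, by simp⟩
    have g7 : S M (inc (q.symm w)) ≤ 3 := by
      by_contra hcon
      apply hw1
      rw [mem_image]
      exact ⟨q.symm w, by rw [hX4, mem_filter]; exact ⟨mem_univ _, by omega⟩, by simp⟩
    have hq3 : w ≠ q.symm w := fun h => hq1 w (by rw [Equiv.eq_symm_apply] at h; exact h)
    have hcr : ∀ u v, u ≠ v → S M (cross (fun x => decide (x = u ∨ x = v))) + 2 * S M (jn u v) =
        S M (inc u) + S M (inc v) := by
      intro u v huv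
      rw [← S_mul, ← S_lin, ← S_lin]
      exact congrArg (S M) (funext (cross_two huv))
    have g8 := hcr (q w) w (hq1 w)
    have g9 := hcr w (q.symm w) hq3
    have g10 := hcut2 (q w) w (hq1 w)
    have g11 := hcut2 w (q.symm w) hq3
    have hinc : ∀ N : Multiset (Fin n × Fin n), S N (inc w) =
        S N (jn (q w) w) + S N (jn w (q.symm w)) + S N (longAt q w) := by
      intro N
      rw [← S_lin, ← S_lin]
      exact congrArg (S N) (funext (inc_eq q hq1 hq2 w))
    have g12 := hinc M
    have g13 := hinc A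
    have g14 : S M (jn (q w) w) = S A (jn (q w) w) + S B (jn (q w) w) := S_add _ _ _
    have g15 : S M (jn w (q.symm w)) = S A (jn w (q.symm w)) + S B (jn w (q.symm w)) := S_add _ _ _
    have g16 : S M (longAt q w) = S A (longAt q w) + S B (longAt q w) := S_add _ _ _
    have g17 : (if O w = true then 1 else 0) = S A (jn w (q.symm w)) := by
      rw [hO]
      simp only [decide_eq_true_eq]
      split_ifs with h1
      · omega
      · omega
    have g18 : (if O (q w) = true then 1 else 0) = S A (jn (q w) w) := by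
      rw [hO]
      simp only [decide_eq_true_eq, Equiv.symm_apply_apply]
      split_ifs with h1
      · omega
      · omega
    refine ⟨g1, ?_⟩
    rw [g17, g18]
    omega
  obtain ⟨F, hF⟩ : ∃ F : Fin n → ℕ, ∀ w, F w =
      (if O w = true then 1 else 0) + (if O (q w) = true then 1 else 0) := ⟨_, fun _ => rfl⟩
  have hcardO : ∑ w, F w = 2 * (univ.filter fun u => O u = true).card := by
    rw [sum_congr rfl fun w _ => hF w, sum_add_distrib, Equiv.sum_comp q (fun w => if O w = true then 1 else 0), card_filter,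
      two_mul]
  refine ⟨O, Y, by omega, fun w hw => (hgood w hw).2, ?_, ?_⟩
  · have h1 : ∀ w, S A (inc w) + 2 ≤ F w + ((if w ∈ Y then 2 else 0) + S M (inc w)) := by
      intro w
      have hFw := hF w
      by_cases hw : w ∈ Y
      · rw [if_pos hw, hMAB]
        omega
      · have h2 := hgood w hw
        have h3 := hcut1 w
        rw [if_neg hw]
        omega
    have h2 := sum_le_sum fun u (_ : u ∈ (univ : Finset (Fin n))) => h1 u
    rw [sum_add_distrib, sum_add_distrib, sum_add_distrib, hcardO, hsumA, hsumM, sum_const,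
      card_univ, Fintype.card_fin, smul_eq_mul, sum_ite_mem, univ_inter, sum_const,
      smul_eq_mul] at h2
    omega
  · have h1 : ∀ w, F w ≤ S A (inc w) + (if w ∈ Y then 2 else 0) := by
      intro w
      have hFw := hF w
      by_cases hw : w ∈ Y
      · rw [if_pos hw, hFw]
        split_ifs <;> omega
      · have h2 := hgood w hw
        rw [if_neg hw]
        omega
    have h2 := sum_le_sum fun u (_ : u ∈ (univ : Finset (Fin n))) => h1 u
    rw [hcardO, sum_add_distrib, hsumA, sum_ite_mem, univ_inter, sum_const,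
      smul_eq_mul] at h2
    omega

end Pool.Agent.T9h48.TSP
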