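import Pool.Agent.T9h48.TSP.Defs
import Pool.Agent.T9h48.TSP.Circ
import Pool.Agent.T9h48.TSP.Local
import Pool.Agent.T9h48.TSP.Count

/-!
# Cuts and the polygon
-/

open Finset
open scoped ENNReal

set_option autoImplicit false

namespace Pool.Agent.T9h48.TSP

open Pool.Agent.T9h48.SC

lemma eucl_nonneg (a b : ℤ × ℤ) : 0 ≤ eucl a b := Real.sqrt_nonneg _

lemma le_eucl {a b : ℤ × ℤ} {r : ℝ}
    (h : r ^ 2 ≤ ((a.1 - b.1 : ℤ) : ℝ) ^ 2 + ((a.2 - b.2 : ℤ) : ℝ) ^ 2) : r ≤ eucl a b :=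
  Real.le_sqrt_of_sq_le h

lemma eucl_le {a b : ℤ × ℤ} {r : ℝ} (hr : 0 ≤ r)
    (h : ((a.1 - b.1 : ℤ) : ℝ) ^ 2 + ((a.2 - b.2 : ℤ) : ℝ) ^ 2 ≤ r ^ 2) : eucl a b ≤ r :=
  Real.sqrt_le_iff.2 ⟨hr, h⟩

lemma tsp_le {n : ℕ} (p : Fin n → ℤ × ℤ) (τ : Equiv.Perm (Fin n)) : tsp p ≤ tourLen p τ :=
  ciInf_le (Set.finite_range _).bddBelow τ

lemma le_tsp {n : ℕ} (p : Fin n → ℤ × ℤ) {r : ℝ} (h : ∀ τ, r ≤ tourLen p τ) : r ≤ tsp p :=
  le_ciInf h

/-- the total of the distances of a multiset of pairs -/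
lemma sum_dists {n : ℕ} (p : Fin n → ℤ × ℤ) (M : Multiset (Fin n × Fin n)) :
    (M.map (dists p)).sum = ENNReal.ofReal (M.map fun e => eucl (p e.1) (p e.2)).sum := by
  induction M using Multiset.induction with
  | empty => simp
  | cons a M ih =>
    rw [Multiset.map_cons, Multiset.sum_cons, Multiset.map_cons, Multiset.sum_cons, ih,
      ENNReal.ofReal_add (eucl_nonneg _ _)]
    · rfl
    · refine Multiset.sum_nonneg fun x hx => ?_
      obtain ⟨e, _, rfl⟩ := Multiset.mem_map.1 hx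
      exact eucl_nonneg _ _

lemma exists_step {m : ℕ} (f : Fin (m + 1) → Bool) {i0 j0 : Fin (m + 1)} (h0 : f i0 = true)
    (h1 : f j0 = false) : ∃ i, f i = true ∧ f (i + 1) = false := by
  by_contra hcon
  push Not at hcon
  have h2 : ∀ k : Fin (m + 1), f (i0 + k) = true := by
    intro k
    induction k using Fin.induction with
    | zero => simpa using h0
    | succ k ih =>
      have h3 := hcon _ ih
      rw [← Fin.coeSucc_eq_succ, ← add_assoc]
      simpa using h3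
  have h3 := h2 (j0 - i0)
  rw [add_sub_cancel, h1] at h3
  exact Bool.false_ne_true h3

lemma two_steps {m : ℕ} (f : Fin (m + 1) → Bool) {i0 j0 : Fin (m + 1)} (h0 : f i0 = true)
    (h1 : f j0 = false) : 2 ≤ ∑ i, cross f (i, i + 1) := by
  obtain ⟨i, h2, h3⟩ := exists_step f h0 h1
  obtain ⟨j, h4, h5⟩ := exists_step (fun i => !(f i)) (i0 := j0) (j0 := i0) (by simp [h1])
    (by simp [h0])
  have hij : i ≠ j := by
    rintro rfl
    simp [h2] at h4
  calc 2 = ∑ k ∈ {i, j}, cross f (k, k + 1) := by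
        rw [sum_pair hij]
        simp only [Bool.not_eq_true', Bool.not_eq_false'] at h4 h5
        simp [cross, h2, h3, h4, h5]
    _ ≤ _ := sum_le_sum_of_subset (subset_univ _)

/-- two clusters at distance about `D` -/
def clu {m : ℕ} (χ : Fin (m + 1) → Bool) (D : ℕ) (v : Fin (m + 1)) : ℤ × ℤ :=
  (if χ v = true then (D : ℤ) else 0, ((v : ℕ) : ℤ))

lemma clu_inj {m : ℕ} (χ : Fin (m + 1) → Bool) (D : ℕ) : Function.Injective (clu χ D) := by
  intro v w h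
  have h1 := congrArg Prod.snd h
  simp only [clu] at h1
  exact Fin.ext (by exact_mod_cast h1)

lemma clu_fst {m : ℕ} (χ : Fin (m + 1) → Bool) (D : ℕ) (e : Fin (m + 1) × Fin (m + 1)) :
    (((clu χ D e.1).1 - (clu χ D e.2).1 : ℤ) : ℝ) ^ 2 = ((cross χ e : ℕ) * (D : ℝ)) ^ 2 := by
  unfold clu cross
  cases h1 : χ e.1 <;> cases h2 : χ e.2 <;> simp

lemma clu_le {m : ℕ} (χ : Fin (m + 1) → Bool) (D : ℕ) (e : Fin (m + 1) × Fin (m + 1)) :
    eucl (clu χ D e.1) (clu χ D e.2) ≤ (cross χ e : ℕ) * (D : ℝ) + (nl e : ℕ) * (m + 1 : ℝ) := by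
  refine eucl_le (by positivity) ?_
  rw [clu_fst]
  have h1 : (((clu χ D e.1).2 - (clu χ D e.2).2 : ℤ) : ℝ) ^ 2 ≤ ((nl e : ℕ) * (m + 1 : ℝ)) ^ 2 := by
    unfold nl
    split_ifs with he
    · rw [he]
      simp
    have e1 : ((e.1 : ℕ) : ℝ) ≤ m := by exact_mod_cast Nat.lt_succ_iff.1 e.1.2
    have e2 : ((e.2 : ℕ) : ℝ) ≤ m := by exact_mod_cast Nat.lt_succ_iff.1 e.2.2
    have e3 : (0 : ℝ) ≤ ((e.1 : ℕ) : ℝ) := by positivity
    have e4 : (0 : ℝ) ≤ ((e.2 : ℕ) : ℝ) := by positivity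
    apply sq_le_sq'
    · simp only [clu]
      push_cast
      linarith
    · simp only [clu]
      push_cast
      linarith
  have h2 : (0 : ℝ) ≤ (cross χ e : ℕ) * (D : ℝ) * ((nl e : ℕ) * (m + 1)) := by positivity
  calc _ ≤ ((cross χ e : ℕ) * (D : ℝ)) ^ 2 + ((nl e : ℕ) * (m + 1 : ℝ)) ^ 2 := by linarith
    _ ≤ ((cross χ e : ℕ) * (D : ℝ)) ^ 2 + 2 * ((cross χ e : ℕ) * (D : ℝ) * ((nl e : ℕ) * (m + 1))) +
        ((nl e : ℕ) * (m + 1 : ℝ)) ^ 2 := by linarith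
    _ = _ := by ring

lemma le_clu {m : ℕ} (χ : Fin (m + 1) → Bool) (D : ℕ) (e : Fin (m + 1) × Fin (m + 1)) :
    (cross χ e : ℕ) * (D : ℝ) ≤ eucl (clu χ D e.1) (clu χ D e.2) := by
  refine le_eucl ?_
  rw [clu_fst]
  have := sq_nonneg (((clu χ D e.1).2 - (clu χ D e.2).2 : ℤ) : ℝ)
  linarith

lemma clu_tsp {m : ℕ} (χ : Fin (m + 1) → Bool) (D : ℕ) {u v : Fin (m + 1)} (h0 : χ u = true)
    (h1 : χ v = false) : 2 * (D : ℝ) ≤ tsp (clu χ D) := by
  refine le_tsp _ fun τ => ?_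
  have h2 := two_steps (fun i => χ (τ i)) (i0 := τ.symm u) (j0 := τ.symm v) (by simpa using h0)
    (by simpa using h1)
  have h3 : (2 : ℝ) ≤ ∑ i, ((cross (fun i => χ (τ i)) (i, i + 1) : ℕ) : ℝ) := by
    exact_mod_cast h2
  calc 2 * (D : ℝ) ≤ (∑ i, ((cross (fun i => χ (τ i)) (i, i + 1) : ℕ) : ℝ)) * D :=
        mul_le_mul_of_nonneg_right h3 (Nat.cast_nonneg _)
    _ = ∑ i, ((cross (fun i => χ (τ i)) (i, i + 1) : ℕ) : ℝ) * D := by rw [sum_mul]
    _ ≤ _ := by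
        refine sum_le_sum fun i _ => ?_
        rw [finRotate_apply]
        exact le_clu χ D (τ i, τ (i + 1))

/-- **Cuts**: the light monomials of a correct circuit cross every cut at least twice. -/
theorem cut_lemma {m : ℕ} {C : TropCircuit (Fin (m + 1) × Fin (m + 1))} {N : ℕ} {ρ : ℝ}
    (hC : Solves C N ρ) {M : Multiset (Fin (m + 1) × Fin (m + 1))} {c : ℝ≥0∞}
    (hM : PC C C.out M c) {r : ℝ} (hr : 0 ≤ r) (hc : c ≤ ENNReal.ofReal r) {D : ℕ} (hDN : D ≤ N)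
    (hmN : m ≤ N) (hD : (S M nl : ℝ) * (m + 1) + r < D)
    (χ : Fin (m + 1) → Bool) {u v : Fin (m + 1)} (h0 : χ u = true) (h1 : χ v = false) :
    2 ≤ S M (cross χ) := by
  by_contra hcon
  obtain ⟨val, hrun, hlow, _⟩ := hC (clu χ D) (clu_inj χ D) (by
    intro v
    have hv := v.2
    simp only [clu]
    refine ⟨?_, ?_, ?_, ?_⟩
    · split_ifs <;> omega
    · split_ifs <;> omega
    · omega
    · omega)
  have h2 := hM.le hrun
  rw [sum_dists] at h2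
  have h3 : (M.map fun e => eucl (clu χ D e.1) (clu χ D e.2)).sum ≤
      (S M (cross χ) : ℝ) * D + (S M nl : ℝ) * (m + 1) := by
    have h4 : (M.map fun e => eucl (clu χ D e.1) (clu χ D e.2)).sum ≤
        (M.map fun e => (cross χ e : ℕ) * (D : ℝ) + (nl e : ℕ) * (m + 1 : ℝ)).sum :=
      Multiset.sum_map_le_sum_map _ _ fun e _ => clu_le χ D e
    refine h4.trans (le_of_eq ?_)
    rw [Multiset.sum_map_add, Multiset.sum_map_mul_right, Multiset.sum_map_mul_right]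
    unfold S
    rw [Nat.cast_multiset_sum, Multiset.map_map, Nat.cast_multiset_sum, Multiset.map_map]
    rfl
  have h5 : ENNReal.ofReal (2 * (D : ℝ)) ≤ ENNReal.ofReal ((S M (cross χ) : ℝ) * D +
      (S M nl : ℝ) * (m + 1) + r) := by
    rw [ENNReal.ofReal_add (by positivity) hr]
    calc ENNReal.ofReal (2 * (D : ℝ)) ≤ ENNReal.ofReal (tsp (clu χ D)) :=
          ENNReal.ofReal_le_ofReal (clu_tsp χ D h0 h1)
      _ ≤ _ := hlow
      _ ≤ _ := h2
      _ ≤ _ := add_le_add (ENNReal.ofReal_le_ofReal h3) hc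
  rw [ENNReal.ofReal_le_ofReal_iff (by positivity)] at h5
  have h6 : (S M (cross χ) : ℝ) ≤ 1 := by exact_mod_cast (by omega : S M (cross χ) ≤ 1)
  have h7 : (S M (cross χ) : ℝ) * D ≤ 1 * D := mul_le_mul_of_nonneg_right h6 (Nat.cast_nonneg _)
  linarith

/-- a lattice polygon with `m + 1` vertices and sides of length one, but perhaps one side -/
def poly (m : ℕ) (i : Fin (m + 1)) : ℤ × ℤ :=
  if (i : ℕ) < m / 2 then ((i : ℕ), 0)
  else if (i : ℕ) = m / 2 then ((m / 2 : ℕ) - 1, 1)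
  else if (i : ℕ) < m then ((m : ℤ) - 1 - (i : ℕ), 2)
  else (0, 1)

lemma poly_far {m : ℕ} (hm : 7 ≤ m) (i j : Fin (m + 1)) (h : i ≠ j) (h1 : i ≠ j + 1)
    (h2 : j ≠ i + 1) :
    2 ≤ ((poly m i).1 - (poly m j).1) ^ 2 + ((poly m i).2 - (poly m j).2) ^ 2 := by
  by_contra hcon
  push Not at hcon
  set dx := (poly m i).1 - (poly m j).1 with hdx
  set dy := (poly m i).2 - (poly m j).2 with hdy
  have e1 : dx ≤ 1 := by nlinarith
  have e2 : -1 ≤ dx := by nlinarith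
  have e3 : dy ≤ 1 := by nlinarith
  have e4 : -1 ≤ dy := by nlinarith
  have e5 : dx = 0 ∨ dy = 0 := by
    by_contra hh
    push Not at hh
    have f1 : 1 ≤ dx ^ 2 := by have := sq_pos_of_ne_zero hh.1; omega
    have f2 : 1 ≤ dy ^ 2 := by have := sq_pos_of_ne_zero hh.2; omega
    omega
  have hi := i.2
  have hj := j.2
  have g : (i : ℕ) ≠ j := fun g => h (Fin.ext g)
  have g1 : (i : ℕ) ≠ if (j : ℕ) = m then 0 else (j : ℕ) + 1 := by
    intro g
    apply h1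
    apply Fin.ext
    rw [g, Fin.val_add_one]
    simp [Fin.ext_iff]
  have g2 : (j : ℕ) ≠ if (i : ℕ) = m then 0 else (i : ℕ) + 1 := by
    intro g
    apply h2
    apply Fin.ext
    rw [g, Fin.val_add_one]
    simp [Fin.ext_iff]
  clear hcon h h1 h2
  unfold poly at hdx hdy
  split_ifs at hdx hdy g1 g2 <;> simp only at hdx hdy <;> omega

lemma poly_inj {m : ℕ} (hm : 7 ≤ m) (i j : Fin (m + 1)) (h : i ≠ j) :
    1 ≤ ((poly m i).1 - (poly m j).1) ^ 2 + ((poly m i).2 - (poly m j).2) ^ 2 := by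
  by_contra hcon
  push Not at hcon
  set dx := (poly m i).1 - (poly m j).1 with hdx
  set dy := (poly m i).2 - (poly m j).2 with hdy
  have e1 : dx = 0 := by nlinarith [sq_nonneg dx, sq_nonneg dy]
  have e2 : dy = 0 := by nlinarith [sq_nonneg dx, sq_nonneg dy]
  have hi := i.2
  have hj := j.2
  have g : (i : ℕ) ≠ j := fun g => h (Fin.ext g)
  clear hcon h
  unfold poly at hdx hdy
  split_ifs at hdx hdy <;> simp only at hdx hdy <;> omega

lemma poly_side {m : ℕ} (hm : 7 ≤ m) (i : Fin (m + 1)) :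
    ((poly m i).1 - (poly m (i + 1)).1) ^ 2 + ((poly m i).2 - (poly m (i + 1)).2) ^ 2 ≤
      if (i : ℕ) = m / 2 then 2 else 1 := by
  set j := i + 1 with hj'
  set dx := (poly m i).1 - (poly m j).1 with hdx
  set dy := (poly m i).2 - (poly m j).2 with hdy
  have hi := i.2
  have g1 : (j : ℕ) = if (i : ℕ) = m then 0 else (i : ℕ) + 1 := by
    rw [hj', Fin.val_add_one]
    simp [Fin.ext_iff]
  have key : (dx = 0 ∧ (dy = 1 ∨ dy = -1)) ∨ (dy = 0 ∧ (dx = 1 ∨ dx = -1)) ∨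
      ((i : ℕ) = m / 2 ∧ (dx = 1 ∨ dx = 0) ∧ dy = -1) := by
    clear hj'
    unfold poly at hdx hdy
    split_ifs at hdx hdy g1 <;> simp only at hdx hdy <;> omega
  clear_value dx dy
  rcases key with ⟨h1, h2 | h2⟩ | ⟨h1, h2 | h2⟩ | ⟨h1, h2 | h2, h3⟩ <;> subst_vars <;> split_ifs <;>
    simp_all

end Pool.Agent.T9h48.TSP
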