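import Pool.Agent.T9h48.TSP.Geom

/-!
# The lower bound, explicit form
-/

open Finset
open scoped ENNReal

set_option autoImplicit false

namespace Pool.Agent.T9h48.TSP

open Pool.Agent.T9h48.SC

/-- the points of the polygon in the order `σ` -/
def pts {m : ℕ} (σ : Equiv.Perm (Fin (m + 1))) (v : Fin (m + 1)) : ℤ × ℤ := poly m (σ v)

lemma pts_inj {m : ℕ} (hm : 7 ≤ m) (σ : Equiv.Perm (Fin (m + 1))) :
    Function.Injective (pts σ) := by
  intro v w h
  by_contra hvw
  have h1 := poly_inj hm (σ v) (σ w) fun h' => hvw (σ.injective h')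
  unfold pts at h
  rw [h] at h1
  simp at h1

lemma one_side {m : ℕ} : ∑ i : Fin (m + 1), (if (i : ℕ) = m / 2 then (1 : ℝ) else 0) ≤ 1 := by
  have h : ∀ i : Fin (m + 1), (if (i : ℕ) = m / 2 then (1 : ℝ) else 0) =
      if i = ⟨m / 2, by omega⟩ then 1 else 0 := by
    intro i
    congr 1
    simp [Fin.ext_iff]
  rw [sum_congr rfl fun i _ => h i, sum_ite_eq']
  simp

lemma tsp_pts {m : ℕ} (hm : 7 ≤ m) (σ : Equiv.Perm (Fin (m + 1))) : tsp (pts σ) ≤ m + 2 := by
  refine (tsp_le _ σ.symm).trans ?_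
  have h1 : ∀ i : Fin (m + 1), eucl (pts σ (σ.symm i)) (pts σ (σ.symm (finRotate (m + 1) i))) ≤
      1 + if (i : ℕ) = m / 2 then 1 else 0 := by
    intro i
    have h2 := poly_side hm i
    unfold pts
    rw [finRotate_apply, Equiv.apply_symm_apply, Equiv.apply_symm_apply]
    refine eucl_le (by split_ifs <;> norm_num) ?_
    have h3 : (((poly m i).1 - (poly m (i + 1)).1 : ℤ) : ℝ) ^ 2 +
        (((poly m i).2 - (poly m (i + 1)).2 : ℤ) : ℝ) ^ 2 ≤
        ((if (i : ℕ) = m / 2 then 2 else 1 : ℤ) : ℝ) := by exact_mod_cast h2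
    refine h3.trans ?_
    split_ifs <;> norm_num
  calc tourLen (pts σ) σ.symm ≤ ∑ i : Fin (m + 1), (1 + if (i : ℕ) = m / 2 then (1 : ℝ) else 0) :=
        sum_le_sum fun i _ => h1 i
    _ = (m + 1) + ∑ i : Fin (m + 1), (if (i : ℕ) = m / 2 then (1 : ℝ) else 0) := by
        rw [sum_add_distrib, sum_const, card_univ, Fintype.card_fin, nsmul_eq_mul, mul_one]
        push_cast
        ring
    _ ≤ _ := by linarith [one_side (m := m)]

lemma five_eucl {m : ℕ} (hm : 7 ≤ m) (σ : Equiv.Perm (Fin (m + 1)))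
    (e : Fin (m + 1) × Fin (m + 1)) :
    ((5 * nl e + 2 * long (prd σ) e : ℕ) : ℝ) ≤ 5 * eucl (pts σ e.1) (pts σ e.2) := by
  obtain ⟨x, y⟩ := e
  unfold nl long pts
  dsimp only
  by_cases h : x = y
  · subst h
    have := eucl_nonneg (poly m (σ x)) (poly m (σ x))
    simpa using this
  · have hσ : σ x ≠ σ y := fun h' => h (σ.injective h')
    by_cases h1 : x ≠ prd σ y ∧ y ≠ prd σ x
    · have h2 := poly_far hm (σ y) (σ x) hσ.symm (fun h' => h1.1 (by
        rw [prd_apply, h', add_sub_cancel_right, Equiv.symm_apply_apply])) (fun h' => h1.2 (by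
        rw [prd_apply, h', add_sub_cancel_right, Equiv.symm_apply_apply]))
      have h3 : (7 / 5 : ℝ) ≤ eucl (poly m (σ x)) (poly m (σ y)) := by
        refine le_eucl ?_
        have h4 : (2 : ℝ) ≤ (((poly m (σ y)).1 - (poly m (σ x)).1 : ℤ) : ℝ) ^ 2 +
            (((poly m (σ y)).2 - (poly m (σ x)).2 : ℤ) : ℝ) ^ 2 := by exact_mod_cast h2
        push_cast at h4 ⊢
        nlinarith
      simp only [h, if_false, ne_eq, not_false_eq_true, true_and]
      rw [if_pos h1]
      push_cast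
      linarith
    · have h2 := poly_inj hm (σ x) (σ y) hσ
      have h3 : (1 : ℝ) ≤ eucl (poly m (σ x)) (poly m (σ y)) := by
        refine le_eucl ?_
        rw [one_pow]
        exact_mod_cast h2
      simp only [h, if_false, ne_eq, not_false_eq_true, true_and]
      rw [if_neg h1]
      push_cast
      linarith

lemma pts_mem {m : ℕ} (hm : 7 ≤ m) {N : ℕ} (hN : m ≤ N) (σ : Equiv.Perm (Fin (m + 1)))
    (v : Fin (m + 1)) : 0 ≤ (pts σ v).1 ∧ (pts σ v).1 ≤ N ∧ 0 ≤ (pts σ v).2 ∧ (pts σ v).2 ≤ N := by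
  unfold pts
  generalize σ v = i
  have hi := i.2
  have hb : (1 : ℤ) ≤ (m / 2 : ℕ) := by omega
  have hb2 : ((m / 2 : ℕ) : ℤ) ≤ m := by omega
  unfold poly
  split_ifs with h1 h2 h3 <;> simp only <;> refine ⟨?_, ?_, ?_, ?_⟩ <;> omega

/-- a light monomial for every order of the vertices of the polygon -/
lemma light {m : ℕ} (hm : 7 ≤ m) {C : TropCircuit (Fin (m + 1) × Fin (m + 1))} {N : ℕ} {ρ : ℝ}
    (hρ : 0 ≤ ρ) (hN : m ≤ N) (hC : Solves C N ρ) (h : ℕ)
    (hh : 5 * ρ * (m + 2) < 5 * (m + 1) + h + 1) (σ : Equiv.Perm (Fin (m + 1))) :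
    ∃ M c, PC C C.out M c ∧ c ≤ ENNReal.ofReal (ρ * (m + 2)) ∧
      5 * S M nl + 2 * S M (long (prd σ)) ≤ 5 * (m + 1) + h := by
  obtain ⟨val, hrun, _, hup⟩ := hC (pts σ) (pts_inj hm σ) (pts_mem hm hN σ)
  have h1 : TropCircuit.nodeVal (dists (pts σ)) val C.out ≤ ENNReal.ofReal (ρ * (m + 2)) :=
    hup.trans (ENNReal.ofReal_le_ofReal (mul_le_mul_of_nonneg_left (tsp_pts hm σ) hρ))
  obtain ⟨M, c, hM, hM'⟩ := attainC hrun C.out
  refine ⟨M, c, hM, le_trans le_add_self (hM'.trans h1), ?_⟩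
  have h2 := le_trans le_self_add (hM'.trans h1)
  rw [sum_dists, ENNReal.ofReal_le_ofReal_iff (by positivity)] at h2
  have h3 : ((5 * S M nl + 2 * S M (long (prd σ)) : ℕ) : ℝ) ≤
      5 * (M.map fun e => eucl (pts σ e.1) (pts σ e.2)).sum := by
    rw [← S_mul, ← S_mul, ← S_lin]
    unfold S
    rw [Nat.cast_multiset_sum, Multiset.map_map, ← Multiset.sum_map_mul_left]
    exact Multiset.sum_map_le_sum_map _ _ fun e _ => five_eucl hm σ e
  have h4 : ((5 * S M nl + 2 * S M (long (prd σ)) : ℕ) : ℝ) < ((5 * (m + 1) + h + 1 : ℕ) : ℝ) := by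
    push_cast at h3 ⊢
    linarith
  have h5 : 5 * S M nl + 2 * S M (long (prd σ)) < 5 * (m + 1) + h + 1 := by exact_mod_cast h4
  omega

lemma val_succ' {m : ℕ} (i : Fin (m + 1)) :
    ((i + 1 : Fin (m + 1)) : ℕ) = if (i : ℕ) = m then 0 else (i : ℕ) + 1 := by
  rw [Fin.val_add_one]
  simp [Fin.ext_iff]

lemma prd_ne {m : ℕ} (hm : 7 ≤ m) (σ : Equiv.Perm (Fin (m + 1))) (w : Fin (m + 1)) :
    prd σ w ≠ w := by
  intro h
  rw [prd_apply, Equiv.symm_apply_eq] at h
  have h1 : σ w = σ w + 1 := by rw [sub_eq_iff_eq_add] at h; exact h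
  have h2 := congrArg Fin.val h1
  rw [val_succ'] at h2
  split_ifs at h2 with h3
  · omega
  · omega

lemma prd_prd_ne {m : ℕ} (hm : 7 ≤ m) (σ : Equiv.Perm (Fin (m + 1))) (w : Fin (m + 1)) :
    prd σ (prd σ w) ≠ w := by
  intro h
  rw [prd_apply, prd_apply, Equiv.apply_symm_apply, Equiv.symm_apply_eq, sub_eq_iff_eq_add,
    sub_eq_iff_eq_add] at h
  have h2 := congrArg Fin.val h
  rw [val_succ', val_succ'] at h2
  split_ifs at h2 <;> omega

/-- **The lower bound**, explicit form. -/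
theorem main_bound {m : ℕ} (hm : 7 ≤ m) (C : TropCircuit (Fin (m + 1) × Fin (m + 1))) {N : ℕ}
    {ρ : ℝ} (hN : 3 * (m + 1) ^ 2 ≤ N) (hρ : 0 ≤ ρ) (hC : Solves C N ρ) (h : ℕ)
    (hh : 5 * ρ * (m + 2) < 5 * (m + 1) + h + 1)
    (τ : ℕ) (hτ : 1 ≤ τ) (h5 : 5 * (2 * τ + h) ≤ m + 1) (K : ℕ) (hK : 1 ≤ K) :
    (m + 1).choose (τ - h) * (K ^ (m + 1 - h)) ^ 2 ≤
      2 * C.numAdd * (4 ^ (τ - h) * 2 ^ h * (m + 1) * ((K + 1) * (K + 2)) ^ (m + 1)) := by
  classical
  have hmN : m ≤ N := by nlinarith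
  choose M c hM hc hlight using light hm hρ hmN hC h hh
  -- cuts
  have hcut : ∀ X x, PC C C.out X x → S X nl ≤ 2 * (m + 1) + h →
      x ≤ ENNReal.ofReal (2 * (ρ * (m + 2))) → ∀ χ : Fin (m + 1) → Bool, (∃ u, χ u = true) →
      (∃ u, χ u = false) → 2 ≤ S X (cross χ) := by
    intro X x hX hX1 hX2 χ ⟨_, h0⟩ ⟨_, h1⟩
    refine cut_lemma hC hX (by positivity) hX2 hN hmN ?_ χ h0 h1
    have e1 : (S X nl : ℝ) ≤ 2 * (m + 1) + h := by exact_mod_cast hX1
    have e2 : (5 * (2 * τ + h) : ℝ) ≤ m + 1 := by exact_mod_cast h5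
    have e3 : (7 : ℝ) ≤ m := by exact_mod_cast hm
    have e4 : (0 : ℝ) ≤ τ := by positivity
    have e5 : (S X nl : ℝ) * (m + 1) ≤ (2 * (m + 1) + h) * (m + 1) :=
      mul_le_mul_of_nonneg_right e1 (by positivity)
    have e6 : (h : ℝ) * (m + 1) ≤ (m + 1) / 5 * (m + 1) :=
      mul_le_mul_of_nonneg_right (by linarith) (by positivity)
    push_cast
    nlinarith
  have hinc : ∀ X x, PC C C.out X x → S X nl ≤ 2 * (m + 1) + h →
      x ≤ ENNReal.ofReal (2 * (ρ * (m + 2))) → ∀ u, 2 ≤ S X (inc u) := by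
    intro X x hX hX1 hX2 u
    rw [show inc u = cross (fun x => decide (x = u)) from funext (inc_eq_cross u)]
    refine hcut X x hX hX1 hX2 _ ⟨u, by simp⟩ ⟨u + 1, ?_⟩
    rw [decide_eq_false_iff_not]
    intro h1
    have h2 := congrArg Fin.val h1
    rw [val_succ'] at h2
    split_ifs at h2 <;> omega
  have hpair : ∀ X x, PC C C.out X x → S X nl ≤ 2 * (m + 1) + h →
      x ≤ ENNReal.ofReal (2 * (ρ * (m + 2))) → ∀ u v : Fin (m + 1), u ≠ v →
      2 ≤ S X (cross (fun x => decide (x = u ∨ x = v))) := by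
    intro X x hX hX1 hX2 u v _
    refine hcut X x hX hX1 hX2 _ ⟨u, by simp⟩ ?_
    have h1 : ({u, v} : Finset (Fin (m + 1))).card < (univ : Finset (Fin (m + 1))).card := by
      rw [card_univ, Fintype.card_fin]
      exact lt_of_le_of_lt (card_le_two) (by omega)
    obtain ⟨x, _, hx⟩ := exists_mem_notMem_of_card_lt_card h1
    refine ⟨x, ?_⟩
    rw [mem_insert, mem_singleton] at hx
    simpa using hx
  have hMnl : ∀ σ, S (M σ) nl ≤ 2 * (m + 1) + h := fun σ => by
    have := hlight σ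
    omega
  have hMc : ∀ σ, c σ ≤ ENNReal.ofReal (2 * (ρ * (m + 2))) := fun σ =>
    (hc σ).trans (ENNReal.ofReal_le_ofReal (by
      have : 0 ≤ ρ * (m + 2) := by positivity
      linarith))
  have hnl : ∀ σ, m + 1 ≤ S (M σ) nl := by
    intro σ
    have h1 : ∑ u, S (M σ) (inc u) = 2 * S (M σ) nl := by
      rw [S_sum, ← S_mul]
      exact congrArg (S (M σ)) (funext sum_inc)
    have h2 : ∑ u : Fin (m + 1), 2 ≤ ∑ u, S (M σ) (inc u) :=
      sum_le_sum fun u _ => hinc _ _ (hM σ) (hMnl σ) (hMc σ) u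
    rw [sum_const, card_univ, Fintype.card_fin, smul_eq_mul] at h2
    omega
  have hsplit := fun σ => PC.child nl (fun v => by unfold nl; split_ifs <;> omega) (hM σ) hτ 0 0
    CC.out (lt_of_lt_of_le (by omega) (hnl σ))
  choose g A B a b h1 h2 h3 h3' h4 h6 using hsplit
  have hAB : ∀ σ, A σ + B σ = M σ := fun σ => by rw [h3, add_zero]
  have hab : ∀ σ, a σ + b σ = c σ := fun σ => by rw [h3', add_zero]
  -- a class
  set Bd := 4 ^ (τ - h) * 2 ^ h * (m + 1) * ((K + 1) * (K + 2)) ^ (m + 1) * (m + 1).factorial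
    with hBd
  have hclass : ∀ i, (m + 1).choose (τ - h) * (K ^ (m + 1 - h)) ^ 2 *
      (univ.filter fun σ => g σ = i).card ≤ Bd := by
    intro i
    set G := univ.filter fun σ => g σ = i with hG
    have hmem : ∀ σ ∈ G, g σ = i := fun σ hσ => (mem_filter.1 hσ).2
    rcases G.eq_empty_or_nonempty with h0 | hne
    · rw [h0, card_empty, mul_zero]
      exact Nat.zero_le _
    have hexch : ∀ σ ∈ G, ∀ σ' ∈ G, PC C C.out (A σ + B σ') (a σ + b σ') := by
      intro σ hσ σ' hσ'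
      have e1 := h1 σ
      have e2 := h2 σ'
      rw [hmem σ hσ] at e1
      rw [hmem σ' hσ'] at e2
      exact e2.produces _ _ e1
    have hexnl : ∀ σ σ', S (A σ + B σ') nl ≤ 2 * (m + 1) + h := by
      intro σ σ'
      have e1 := hlight σ
      have e2 := hlight σ'
      have e3 : S (M σ) nl = S (A σ) nl + S (B σ) nl := by rw [← hAB, S_add]
      have e4 : S (M σ') nl = S (A σ') nl + S (B σ') nl := by rw [← hAB, S_add]
      rw [S_add]
      omega
    have hexc : ∀ σ σ', a σ + b σ' ≤ ENNReal.ofReal (2 * (ρ * (m + 2))) := by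
      intro σ σ'
      have e0 : 0 ≤ ρ * (m + 2) := by positivity
      rw [two_mul, ENNReal.ofReal_add e0 e0]
      refine add_le_add ?_ ?_
      · exact (le_self_add.trans (hab σ).le).trans (hc σ)
      · exact (le_add_self.trans (hab σ').le).trans (hc σ')
    have hmina : ∀ u, ∃ σ ∈ G, ∀ σ' ∈ G, S (A σ) (inc u) ≤ S (A σ') (inc u) := fun u =>
      exists_min_image G (fun σ => S (A σ) (inc u)) hne
    have hminb : ∀ u, ∃ σ ∈ G, ∀ σ' ∈ G, S (B σ) (inc u) ≤ S (B σ') (inc u) := fun u =>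
      exists_min_image G (fun σ => S (B σ) (inc u)) hne
    choose sa hsa hsa' using hmina
    choose sb hsb hsb' using hminb
    have hloc : ∀ σ, ∃ (O : Fin (m + 1) → Bool) (Y : Finset (Fin (m + 1))), σ ∈ G → Y.card ≤ h ∧
      (∀ w, w ∉ Y → S (A (sa w)) (inc w) =
        (if O w = true then 1 else 0) + (if O (prd σ w) = true then 1 else 0)) ∧
      S (A σ) nl ≤ (univ.filter fun u => O u = true).card + h ∧
      (univ.filter fun u => O u = true).card ≤ S (A σ) nl + h := by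
      intro σ
      by_cases hσ : σ ∈ G
      · obtain ⟨O, Y, hOY⟩ := local_structure (prd σ) (prd_ne hm σ) (prd_prd_ne hm σ) (A σ) (B σ)
          (hinc _ _ (hexch σ hσ σ hσ) (hexnl σ σ) (hexc σ σ))
          (hpair _ _ (hexch σ hσ σ hσ) (hexnl σ σ) (hexc σ σ))
          (fun u => S (A (sa u)) (inc u)) (fun u => S (B (sb u)) (inc u))
          (fun u => hsa' u σ hσ) (fun u => hsb' u σ hσ) (fun u => by
            rw [← S_add]
            exact hinc _ _ (hexch _ (hsa u) _ (hsb u)) (hexnl _ _) (hexc _ _) u) h (by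
            rw [hAB]
            exact hlight σ)
        exact ⟨O, Y, fun _ => hOY⟩
      · exact ⟨fun _ => true, ∅, fun h' => absurd h' hσ⟩
    choose O Y hOY using hloc
    exact core_count (fun u => S (A (sa u)) (inc u)) G O Y h (τ - h) (2 * τ + h) K hK
      (fun σ hσ => (hOY σ hσ).1) (fun σ hσ => (hOY σ hσ).2.1)
      (fun σ hσ => by
        have e1 := (hOY σ hσ).2.2.1
        have e2 : τ < S (A σ) nl := h4 σ
        omega)
      (fun σ hσ => by
        have e1 := (hOY σ hσ).2.2.2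
        have e2 : S (A σ) nl ≤ 2 * τ := h6 σ
        omega) h5
  have hcard : (m + 1).factorial = ∑ i, (univ.filter fun σ => g σ = i).card := by
    rw [← card_eq_sum_card_fiberwise (s := (univ : Finset (Equiv.Perm (Fin (m + 1)))))
      (t := univ) (fun σ _ => mem_coe.2 (mem_univ (g σ))), card_univ, Fintype.card_perm,
      Fintype.card_fin]
  have hI : Fintype.card ({i : Fin C.size // C.isAdd i = true} × Bool) = 2 * C.numAdd := by
    rw [Fintype.card_prod, Fintype.card_bool, Fintype.card_subtype, mul_comm]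
    rfl
  have hfin : (m + 1).choose (τ - h) * (K ^ (m + 1 - h)) ^ 2 * (m + 1).factorial ≤
      2 * C.numAdd * Bd := by
    rw [hcard, mul_sum, ← hI, ← card_univ]
    refine (sum_le_sum fun i _ => hclass i).trans ?_
    rw [sum_const, smul_eq_mul]
  refine Nat.le_of_mul_le_mul_right (hfin.trans (le_of_eq ?_)) (Nat.factorial_pos (m + 1))
  rw [hBd]
  ring

end Pool.Agent.T9h48.TSP
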