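import Pool.Agent.T9h48.TSP.Main

/-!
# An almost equilateral lattice polygon with any number of vertices
-/

open Finset
open scoped ENNReal

set_option autoImplicit false

namespace Pool.Agent.T9h48.TSP

open Pool.Agent.T9h48.SC

/-- a lattice polygon with `m + 1` vertices and sides of length two, but perhaps two sides of
length `√5` -/
def poly2 (m : ℕ) (i : Fin (m + 1)) : ℤ × ℤ :=
  if (i : ℕ) < (m - 1) / 2 then (2 * ((i : ℕ) : ℤ), 0)
  else if (i : ℕ) = m then (0, 2)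
  else if m % 2 = 1 then
    (if (i : ℕ) = (m - 1) / 2 then ((m : ℤ) - 3, 2) else (2 * ((m : ℤ) - 1 - (i : ℕ)), 4))
  else
    (if (i : ℕ) = (m - 1) / 2 then ((m : ℤ) - 2, 1)
      else if (i : ℕ) = m / 2 then ((m : ℤ) - 2, 3) else (2 * ((m : ℤ) - 1 - (i : ℕ)), 4))

lemma poly2_far {m : ℕ} (hm : 7 ≤ m) (i j : Fin (m + 1)) (h : i ≠ j) (h1 : i ≠ j + 1)
    (h2 : j ≠ i + 1) :
    8 ≤ ((poly2 m i).1 - (poly2 m j).1) ^ 2 + ((poly2 m i).2 - (poly2 m j).2) ^ 2 := by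
  by_contra hcon
  push Not at hcon
  set dx := (poly2 m i).1 - (poly2 m j).1 with hdx
  set dy := (poly2 m i).2 - (poly2 m j).2 with hdy
  have e1 : dx ≤ 2 := by nlinarith
  have e2 : -2 ≤ dx := by nlinarith
  have e3 : dy ≤ 2 := by nlinarith
  have e4 : -2 ≤ dy := by nlinarith
  have e5 : (dx ≤ 1 ∧ -1 ≤ dx) ∨ (dy ≤ 1 ∧ -1 ≤ dy) := by
    by_contra hh
    have f1 : dx = 2 ∨ dx = -2 := by omega
    have f2 : dy = 2 ∨ dy = -2 := by omega
    rcases f1 with f1 | f1 <;> rcases f2 with f2 | f2 <;> rw [f1, f2] at hcon <;> norm_num at hcon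
  have hi := i.2
  have hj := j.2
  have g : (i : ℕ) ≠ j := fun g => h (Fin.ext g)
  have g1 : (i : ℕ) ≠ if (j : ℕ) = m then 0 else (j : ℕ) + 1 := by
    intro g
    apply h1
    apply Fin.ext
    rw [g, val_succ']
  have g2 : (j : ℕ) ≠ if (i : ℕ) = m then 0 else (i : ℕ) + 1 := by
    intro g
    apply h2
    apply Fin.ext
    rw [g, val_succ']
  clear hcon h h1 h2
  unfold poly2 at hdx hdy
  split_ifs at hdx hdy g1 g2 <;> simp only at hdx hdy <;> omega

lemma poly2_inj {m : ℕ} (hm : 7 ≤ m) (i j : Fin (m + 1)) (h : i ≠ j) :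
    4 ≤ ((poly2 m i).1 - (poly2 m j).1) ^ 2 + ((poly2 m i).2 - (poly2 m j).2) ^ 2 := by
  by_contra hcon
  push Not at hcon
  set dx := (poly2 m i).1 - (poly2 m j).1 with hdx
  set dy := (poly2 m i).2 - (poly2 m j).2 with hdy
  have e1 : dx ≤ 1 := by nlinarith
  have e2 : -1 ≤ dx := by nlinarith
  have e3 : dy ≤ 1 := by nlinarith
  have e4 : -1 ≤ dy := by nlinarith
  have hi := i.2
  have hj := j.2
  have g : (i : ℕ) ≠ j := fun g => h (Fin.ext g)
  clear hcon h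
  unfold poly2 at hdx hdy
  split_ifs at hdx hdy <;> simp only at hdx hdy <;> omega

lemma poly2_side {m : ℕ} (hm : 7 ≤ m) (i : Fin (m + 1)) :
    ((poly2 m i).1 - (poly2 m (i + 1)).1) ^ 2 + ((poly2 m i).2 - (poly2 m (i + 1)).2) ^ 2 ≤
      if (i : ℕ) + 1 = (m - 1) / 2 ∨ (i : ℕ) = m / 2 then 5 else 4 := by
  set j := i + 1 with hj'
  set dx := (poly2 m i).1 - (poly2 m j).1 with hdx
  set dy := (poly2 m i).2 - (poly2 m j).2 with hdy
  have hi := i.2
  have g1 : (j : ℕ) = if (i : ℕ) = m then 0 else (i : ℕ) + 1 := by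
    rw [hj', val_succ']
  have key : (dx = 0 ∧ (dy = 2 ∨ dy = -2)) ∨ (dy = 0 ∧ (dx = 2 ∨ dx = -2)) ∨
      (((i : ℕ) + 1 = (m - 1) / 2 ∨ (i : ℕ) = m / 2) ∧ (dx = 2 ∨ dx = -2) ∧ dy = -1) := by
    clear hj'
    unfold poly2 at hdx hdy
    split_ifs at hdx hdy g1 <;> simp only at hdx hdy <;> omega
  clear_value dx dy
  rcases key with ⟨h1, h2 | h2⟩ | ⟨h1, h2 | h2⟩ | ⟨h1, h2 | h2, h3⟩
  · rw [h1, h2]; split_ifs <;> norm_num
  · rw [h1, h2]; split_ifs <;> norm_num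
  · rw [h1, h2]; split_ifs <;> norm_num
  · rw [h1, h2]; split_ifs <;> norm_num
  · rw [h2, h3, if_pos h1]; norm_num
  · rw [h2, h3, if_pos h1]; norm_num

/-- the points of the polygon in the order `σ` -/
def pts2 {m : ℕ} (σ : Equiv.Perm (Fin (m + 1))) (v : Fin (m + 1)) : ℤ × ℤ := poly2 m (σ v)

lemma pts2_inj {m : ℕ} (hm : 7 ≤ m) (σ : Equiv.Perm (Fin (m + 1))) :
    Function.Injective (pts2 σ) := by
  intro v w h
  by_contra hvw
  have h1 := poly2_inj hm (σ v) (σ w) fun h' => hvw (σ.injective h')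
  unfold pts2 at h
  rw [h] at h1
  simp at h1

lemma pts2_mem {m : ℕ} (hm : 7 ≤ m) {N : ℕ} (hN : 2 * m ≤ N) (σ : Equiv.Perm (Fin (m + 1)))
    (v : Fin (m + 1)) :
    0 ≤ (pts2 σ v).1 ∧ (pts2 σ v).1 ≤ N ∧ 0 ≤ (pts2 σ v).2 ∧ (pts2 σ v).2 ≤ N := by
  unfold pts2
  generalize σ v = i
  have hi := i.2
  unfold poly2
  split_ifs <;> simp only <;> refine ⟨?_, ?_, ?_, ?_⟩ <;> omega

lemma one_val {m : ℕ} (k : ℕ) : ∑ i : Fin (m + 1), (if (i : ℕ) = k then (1 / 4 : ℝ) else 0) ≤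
    1 / 4 := by
  rcases Nat.lt_or_ge k (m + 1) with hk | hk
  · have h : ∀ i : Fin (m + 1), (if (i : ℕ) = k then (1 / 4 : ℝ) else 0) =
        if i = ⟨k, hk⟩ then 1 / 4 else 0 := by
      intro i
      congr 1
      simp [Fin.ext_iff]
    rw [sum_congr rfl fun i _ => h i, sum_ite_eq']
    simp
  · rw [sum_eq_zero]
    · norm_num
    · intro i _
      rw [if_neg]
      have := i.2
      omega

lemma tsp_pts2 {m : ℕ} (hm : 7 ≤ m) (σ : Equiv.Perm (Fin (m + 1))) :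
    tsp (pts2 σ) ≤ 2 * (m + 1) + 1 / 2 := by
  refine (tsp_le _ σ.symm).trans ?_
  have h1 : ∀ i : Fin (m + 1), eucl (pts2 σ (σ.symm i)) (pts2 σ (σ.symm (finRotate (m + 1) i))) ≤
      2 + ((if (i : ℕ) = (m - 1) / 2 - 1 then 1 / 4 else 0) +
        (if (i : ℕ) = m / 2 then 1 / 4 else 0)) := by
    intro i
    have h2 := poly2_side hm i
    unfold pts2
    rw [finRotate_apply, Equiv.apply_symm_apply, Equiv.apply_symm_apply]
    refine eucl_le (by split_ifs <;> norm_num) ?_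
    have h3 : (((poly2 m i).1 - (poly2 m (i + 1)).1 : ℤ) : ℝ) ^ 2 +
        (((poly2 m i).2 - (poly2 m (i + 1)).2 : ℤ) : ℝ) ^ 2 ≤
        ((if (i : ℕ) + 1 = (m - 1) / 2 ∨ (i : ℕ) = m / 2 then 5 else 4 : ℤ) : ℝ) := by
      exact_mod_cast h2
    refine h3.trans ?_
    by_cases c1 : (i : ℕ) + 1 = (m - 1) / 2
    · have c1' : (i : ℕ) = (m - 1) / 2 - 1 := by omega
      rw [if_pos (Or.inl c1), if_pos c1']
      split_ifs <;> norm_num
    · by_cases c2 : (i : ℕ) = m / 2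
      · rw [if_pos (Or.inr c2), if_pos c2]
        split_ifs <;> norm_num
      · rw [if_neg (by tauto)]
        split_ifs <;> norm_num
  calc tourLen (pts2 σ) σ.symm ≤ ∑ i : Fin (m + 1), (2 +
        ((if (i : ℕ) = (m - 1) / 2 - 1 then (1 / 4 : ℝ) else 0) +
        (if (i : ℕ) = m / 2 then 1 / 4 else 0))) := sum_le_sum fun i _ => h1 i
    _ = 2 * (m + 1) + (∑ i : Fin (m + 1), (if (i : ℕ) = (m - 1) / 2 - 1 then (1 / 4 : ℝ) else 0) +
        ∑ i : Fin (m + 1), (if (i : ℕ) = m / 2 then (1 / 4 : ℝ) else 0)) := by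
        rw [sum_add_distrib, sum_add_distrib, sum_const, card_univ, Fintype.card_fin, nsmul_eq_mul]
        push_cast
        ring
    _ ≤ _ := by linarith [one_val (m := m) ((m - 1) / 2 - 1), one_val (m := m) (m / 2)]

lemma ten_eucl {m : ℕ} (hm : 7 ≤ m) (σ : Equiv.Perm (Fin (m + 1)))
    (e : Fin (m + 1) × Fin (m + 1)) :
    ((20 * nl e + 8 * long (prd σ) e : ℕ) : ℝ) ≤ 10 * eucl (pts2 σ e.1) (pts2 σ e.2) := by
  obtain ⟨x, y⟩ := e
  unfold nl long pts2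
  dsimp only
  by_cases h : x = y
  · subst h
    have := eucl_nonneg (poly2 m (σ x)) (poly2 m (σ x))
    simpa using this
  · have hσ : σ x ≠ σ y := fun h' => h (σ.injective h')
    by_cases h1 : x ≠ prd σ y ∧ y ≠ prd σ x
    · have h2 := poly2_far hm (σ y) (σ x) hσ.symm (fun h' => h1.1 (by
        rw [prd_apply, h', add_sub_cancel_right, Equiv.symm_apply_apply])) (fun h' => h1.2 (by
        rw [prd_apply, h', add_sub_cancel_right, Equiv.symm_apply_apply]))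
      have h3 : (14 / 5 : ℝ) ≤ eucl (poly2 m (σ x)) (poly2 m (σ y)) := by
        refine le_eucl ?_
        have h4 : (8 : ℝ) ≤ (((poly2 m (σ y)).1 - (poly2 m (σ x)).1 : ℤ) : ℝ) ^ 2 +
            (((poly2 m (σ y)).2 - (poly2 m (σ x)).2 : ℤ) : ℝ) ^ 2 := by exact_mod_cast h2
        push_cast at h4 ⊢
        nlinarith
      simp only [h, if_false, ne_eq, not_false_eq_true, true_and]
      rw [if_pos h1]
      push_cast
      linarith
    · have h2 := poly2_inj hm (σ x) (σ y) hσ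
      have h3 : (2 : ℝ) ≤ eucl (poly2 m (σ x)) (poly2 m (σ y)) := by
        refine le_eucl ?_
        have h4 : (4 : ℝ) ≤ (((poly2 m (σ x)).1 - (poly2 m (σ y)).1 : ℤ) : ℝ) ^ 2 +
            (((poly2 m (σ x)).2 - (poly2 m (σ y)).2 : ℤ) : ℝ) ^ 2 := by exact_mod_cast h2
        linarith
      simp only [h, if_false, ne_eq, not_false_eq_true, true_and]
      rw [if_neg h1]
      push_cast
      linarith

/-- a light monomial for every order of the vertices of the polygon -/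
lemma light2 {m : ℕ} (hm : 7 ≤ m) {C : TropCircuit (Fin (m + 1) × Fin (m + 1))} {N : ℕ}
    (hN : 2 * m ≤ N) (hC : Solves C N 1) (σ : Equiv.Perm (Fin (m + 1))) :
    ∃ M c, PC C C.out M c ∧ c ≤ ENNReal.ofReal (2 * (m + 1) + 1 / 2) ∧
      20 * S M nl + 8 * S M (long (prd σ)) ≤ 20 * (m + 1) + 5 := by
  obtain ⟨val, hrun, _, hup⟩ := hC (pts2 σ) (pts2_inj hm σ) (pts2_mem hm hN σ)
  rw [one_mul] at hup
  have h1 : TropCircuit.nodeVal (dists (pts2 σ)) val C.out ≤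
      ENNReal.ofReal (2 * (m + 1) + 1 / 2) := hup.trans (ENNReal.ofReal_le_ofReal (tsp_pts2 hm σ))
  obtain ⟨M, c, hM, hM'⟩ := attainC hrun C.out
  refine ⟨M, c, hM, le_trans le_add_self (hM'.trans h1), ?_⟩
  have h2 := le_trans le_self_add (hM'.trans h1)
  rw [sum_dists, ENNReal.ofReal_le_ofReal_iff (by positivity)] at h2
  have h3 : ((20 * S M nl + 8 * S M (long (prd σ)) : ℕ) : ℝ) ≤
      10 * (M.map fun e => eucl (pts2 σ e.1) (pts2 σ e.2)).sum := by
    rw [← S_mul, ← S_mul, ← S_lin]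
    unfold S
    rw [Nat.cast_multiset_sum, Multiset.map_map, ← Multiset.sum_map_mul_left]
    exact Multiset.sum_map_le_sum_map _ _ fun e _ => ten_eucl hm σ e
  have h4 : ((20 * S M nl + 8 * S M (long (prd σ)) : ℕ) : ℝ) ≤ ((20 * (m + 1) + 5 : ℕ) : ℝ) := by
    push_cast at h3 ⊢
    linarith
  exact_mod_cast h4

end Pool.Agent.T9h48.TSP
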