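import Pool.Agent.T9h48.TSP.ExploreBound
import Pool.Agent.T9h48.SC.Perm

/-!
# Exchangeable families of edge sets whose unions are always Hamiltonian cycles
-/

open Finset

set_option autoImplicit false

namespace Pool.Agent.T9h48.TSP

variable {α : Type} [DecidableEq α]

/-- the number of edges at `u` -/
def dg (A : Finset (Sym2 α)) (u : α) : ℕ := (A.filter fun e => u ∈ e).card

/-- the families `𝒜 0`, `𝒜 1`, `𝒜 2` of edge sets on `U` are exchangeable, the union of one member
of each is always a connected graph with all degrees two -/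
structure Rect (U : Finset α) (𝒜 : Fin 3 → Finset (Finset (Sym2 α))) (d : Fin 3 → α → ℕ) :
    Prop where
  sub : ∀ c, ∀ A ∈ 𝒜 c, ∀ e ∈ A, ∀ x ∈ e, x ∈ U
  diag : ∀ c, ∀ A ∈ 𝒜 c, ∀ e ∈ A, ¬ e.IsDiag
  deg : ∀ c, ∀ A ∈ 𝒜 c, ∀ u ∈ U, dg A u = d c u
  two : ∀ u ∈ U, ∑ c, d c u = 2
  conn : ∀ A : Fin 3 → Finset (Sym2 α), (∀ c, A c ∈ 𝒜 c) → ∀ S ⊆ U, S.Nonempty → S ≠ U →
    ∃ c, ∃ x ∈ S, ∃ y, y ∉ S ∧ s(x, y) ∈ A c

lemma dg_eq_sum (A : Finset (Sym2 α)) (u : α) : dg A u = ∑ e ∈ A, if u ∈ e then 1 else 0 := by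
  rw [dg, card_filter]

lemma one_le_dg {A : Finset (Sym2 α)} {u v : α} (h : s(u, v) ∈ A) : 1 ≤ dg A u :=
  card_pos.2 ⟨s(u, v), mem_filter.2 ⟨h, Sym2.mem_mk_left u v⟩⟩

lemma Rect.two_card {U : Finset α} {𝒜 : Fin 3 → Finset (Finset (Sym2 α))} {d : Fin 3 → α → ℕ}
    (h : Rect U 𝒜 d) {c : Fin 3} {A : Finset (Sym2 α)} (hA : A ∈ 𝒜 c) :
    2 * A.card = ∑ u ∈ U, d c u := by
  have h1 : ∑ u ∈ U, d c u = ∑ u ∈ U, ∑ e ∈ A, if u ∈ e then 1 else 0 :=
    sum_congr rfl fun u hu => by rw [← h.deg c A hA u hu, dg_eq_sum]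
  rw [h1, sum_comm, mul_comm, ← smul_eq_mul, ← sum_const]
  refine sum_congr rfl fun e he => ?_
  have hd := h.diag c A hA e he
  have hs := h.sub c A hA e he
  induction e using Sym2.ind with
  | _ x y =>
    rw [Sym2.mk_isDiag_iff] at hd
    have hx := hs x (Sym2.mem_mk_left x y)
    have hy := hs y (Sym2.mem_mk_right x y)
    rw [← card_filter]
    have : U.filter (fun u => u ∈ s(x, y)) = {x, y} := by
      ext u
      rw [mem_filter, Sym2.mem_iff, mem_insert, mem_singleton]
      constructor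
      · exact fun h => h.2
      · rintro (rfl | rfl)
        · exact ⟨hx, Or.inl rfl⟩
        · exact ⟨hy, Or.inr rfl⟩
    rw [this, card_pair hd]

omit [DecidableEq α] in
lemma d_le_of_two {d : Fin 3 → α → ℕ} {u : α} (h : ∑ c, d c u = 2) {i : Fin 3} (hi : d i u = 2)
    {c : Fin 3} (hc : c ≠ i) : d c u = 0 := by
  have h1 : d i u + ∑ c ∈ univ.erase i, d c u = ∑ c, d c u :=
    add_sum_erase univ (fun c => d c u) (mem_univ i)
  rw [h, hi] at h1
  have h2 : ∑ c ∈ univ.erase i, d c u = 0 := by omega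
  rw [sum_eq_zero_iff] at h2
  exact h2 c (mem_erase.2 ⟨hc, mem_univ c⟩)

/-- `a` and `b` are the neighbours of `u` in `A` -/
structure Nb (A : Finset (Sym2 α)) (u a b : α) : Prop where
  ab : a ≠ b
  au : a ≠ u
  bu : b ≠ u
  ea : s(u, a) ∈ A
  eb : s(u, b) ∈ A
  all : ∀ x, s(u, x) ∈ A → x = a ∨ x = b

lemma exists_nb {A : Finset (Sym2 α)} {u : α} (h : dg A u = 2) (hd : ∀ e ∈ A, ¬ e.IsDiag) :
    ∃ a b, Nb A u a b := by
  rw [dg, card_eq_two] at h
  obtain ⟨e1, e2, hne, h⟩ := h
  have h1 : e1 ∈ A.filter fun e => u ∈ e := by rw [h]; simp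
  have h2 : e2 ∈ A.filter fun e => u ∈ e := by rw [h]; simp
  rw [mem_filter] at h1 h2
  obtain ⟨a, ha⟩ := h1.2
  obtain ⟨b, hb⟩ := h2.2
  subst ha hb
  refine ⟨a, b, ?_, ?_, ?_, h1.1, h2.1, ?_⟩
  · rintro rfl; exact hne rfl
  · rintro rfl; exact hd _ h1.1 rfl
  · rintro rfl; exact hd _ h2.1 rfl
  · intro x hx
    have h3 : s(u, x) ∈ A.filter fun e => u ∈ e := mem_filter.2 ⟨hx, Sym2.mem_mk_left u x⟩
    rw [h, mem_insert, mem_singleton] at h3
    rcases h3 with h3 | h3
    · left; exact Sym2.congr_right.1 h3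
    · right; exact Sym2.congr_right.1 h3

/-- remove `u` from its path -/
def sup (u a b : α) (A : Finset (Sym2 α)) : Finset (Sym2 α) :=
  insert s(a, b) (A.filter fun e => u ∉ e)

lemma Nb.filter_mem {A : Finset (Sym2 α)} {u a b : α} (h : Nb A u a b) :
    A.filter (fun e => u ∈ e) = {s(u, a), s(u, b)} := by
  ext e
  rw [mem_filter, mem_insert, mem_singleton]
  constructor
  · rintro ⟨h1, x, rfl⟩
    rcases h.all x h1 with rfl | rfl
    · exact Or.inl rfl
    · exact Or.inr rfl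
  · rintro (rfl | rfl)
    · exact ⟨h.ea, Sym2.mem_mk_left _ _⟩
    · exact ⟨h.eb, Sym2.mem_mk_left _ _⟩

omit [DecidableEq α] in
lemma Nb.ne_edges {A : Finset (Sym2 α)} {u a b : α} (h : Nb A u a b) : s(u, a) ≠ s(u, b) :=
  fun h1 => h.ab (Sym2.congr_right.1 h1)

lemma Nb.sup_card {A : Finset (Sym2 α)} {u a b : α} (h : Nb A u a b) (hn : s(a, b) ∉ A) :
    (sup u a b A).card + 1 = A.card := by
  unfold sup
  rw [card_insert_of_notMem (fun h1 => hn (mem_filter.1 h1).1)]
  have h1 := card_filter_add_card_filter_not (s := A) (fun e => u ∈ e)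
  rw [h.filter_mem, card_pair h.ne_edges] at h1
  omega

lemma Nb.sup_dg {A : Finset (Sym2 α)} {u a b : α} (h : Nb A u a b) (hn : s(a, b) ∉ A) {v : α}
    (hv : v ≠ u) : dg (sup u a b A) v = dg A v := by
  rw [dg_eq_sum, dg_eq_sum, ← sum_filter_add_sum_filter_not A (fun e => u ∈ e), h.filter_mem,
    sum_pair h.ne_edges]
  unfold sup
  rw [sum_insert (fun h1 => hn (mem_filter.1 h1).1)]
  congr 1
  simp only [Sym2.mem_iff]
  have hab := h.ab
  by_cases h1 : v = a
  · subst h1
    simp [hab, hv]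
  · by_cases h2 : v = b
    · subst h2
      simp [hv, h1]
    · simp [h1, h2, hv]

lemma Nb.sup_inj {A A' : Finset (Sym2 α)} {u a b a' b' : α} (h : Nb A u a b) (h' : Nb A' u a' b')
    (hn : s(a, b) ∉ A) (hn' : s(a', b') ∉ A') (h1 : sup u a b A = sup u a' b' A')
    (h2 : s(a, b) = s(a', b')) : A = A' := by
  have h3 : A.filter (fun e => u ∉ e) = A'.filter (fun e => u ∉ e) := by
    have e1 : (sup u a b A).erase s(a, b) = A.filter (fun e => u ∉ e) :=
      erase_insert (fun h1 => hn (mem_filter.1 h1).1)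
    have e2 : (sup u a' b' A').erase s(a', b') = A'.filter (fun e => u ∉ e) :=
      erase_insert (fun h1 => hn' (mem_filter.1 h1).1)
    rw [← e1, ← e2, h1, h2]
  have h4 : A.filter (fun e => u ∈ e) = A'.filter (fun e => u ∈ e) := by
    rw [h.filter_mem, h'.filter_mem]
    rw [Sym2.eq_iff] at h2
    rcases h2 with ⟨rfl, rfl⟩ | ⟨rfl, rfl⟩
    · rfl
    · exact pair_comm _ _
  rw [← filter_union_filter_not_eq (fun e => u ∈ e) A,
    ← filter_union_filter_not_eq (fun e => u ∈ e) A', h3, h4]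

lemma Nb.three {A : Finset (Sym2 α)} {u a b : α} (h : Nb A u a b) {y : α} (h2 : dg A a ≤ 2)
    (hab : s(a, b) ∈ A) (hy : s(a, y) ∈ A) : y = u ∨ y = b := by
  by_contra hcon
  push Not at hcon
  have h3 : ({s(a, u), s(a, b), s(a, y)} : Finset (Sym2 α)) ⊆ A.filter fun e => a ∈ e := by
    intro e he
    simp only [mem_insert, mem_singleton] at he
    rw [mem_filter]
    rcases he with rfl | rfl | rfl
    · exact ⟨by rw [Sym2.eq_swap]; exact h.ea, Sym2.mem_mk_left _ _⟩
    · exact ⟨hab, Sym2.mem_mk_left _ _⟩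
    · exact ⟨hy, Sym2.mem_mk_left _ _⟩
  have h4 := card_le_card h3
  have h5 : ({s(a, u), s(a, b), s(a, y)} : Finset (Sym2 α)).card = 3 := by
    rw [card_eq_three]
    refine ⟨_, _, _, ?_, ?_, ?_, rfl⟩
    · exact fun h6 => h.bu (Sym2.congr_right.1 h6).symm
    · exact fun h6 => hcon.1 (Sym2.congr_right.1 h6).symm
    · exact fun h6 => hcon.2 (Sym2.congr_right.1 h6).symm
  rw [h5] at h4
  unfold dg at h2
  omega

lemma Rect.no_triangle {U : Finset α} {𝒜 : Fin 3 → Finset (Finset (Sym2 α))} {d : Fin 3 → α → ℕ}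
    (h : Rect U 𝒜 d) (hne : ∀ c, (𝒜 c).Nonempty) (hx : ∃ x ∈ U, ∀ c, d c x ≤ 1) {i : Fin 3}
    {A : Finset (Sym2 α)} (hA : A ∈ 𝒜 i) {u a b : α} (hu : u ∈ U) (hui : d i u = 2)
    (hnb : Nb A u a b) : s(a, b) ∉ A := by
  intro hab
  have haU := h.sub i A hA _ hnb.ea a (Sym2.mem_mk_right _ _)
  have hbU := h.sub i A hA _ hnb.eb b (Sym2.mem_mk_right _ _)
  have hle : ∀ v ∈ U, d i v ≤ 2 := by
    intro v hv
    rw [← h.two v hv]
    exact single_le_sum (f := fun c => d c v) (fun _ _ => Nat.zero_le _) (mem_univ i)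
  have hda : d i a = 2 := by
    refine le_antisymm (hle a haU) ?_
    rw [← h.deg i A hA a haU]
    have h1 : ({s(a, u), s(a, b)} : Finset (Sym2 α)) ⊆ A.filter fun e => a ∈ e := by
      intro e he
      simp only [mem_insert, mem_singleton] at he
      rw [mem_filter]
      rcases he with rfl | rfl
      · exact ⟨by rw [Sym2.eq_swap]; exact hnb.ea, Sym2.mem_mk_left _ _⟩
      · exact ⟨hab, Sym2.mem_mk_left _ _⟩
    have h2 := card_le_card h1
    rwa [card_pair (fun h6 => hnb.bu (Sym2.congr_right.1 h6).symm)] at h2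
  have hba : s(b, a) ∈ A := by rw [Sym2.eq_swap]; exact hab
  have hnb' : Nb A u b a := ⟨hnb.ab.symm, hnb.bu, hnb.au, hnb.eb, hnb.ea, fun x hx => (hnb.all x hx).symm⟩
  have hdb : d i b = 2 := by
    refine le_antisymm (hle b hbU) ?_
    rw [← h.deg i A hA b hbU]
    have h1 : ({s(b, u), s(b, a)} : Finset (Sym2 α)) ⊆ A.filter fun e => b ∈ e := by
      intro e he
      simp only [mem_insert, mem_singleton] at he
      rw [mem_filter]
      rcases he with rfl | rfl
      · exact ⟨by rw [Sym2.eq_swap]; exact hnb.eb, Sym2.mem_mk_left _ _⟩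
      · exact ⟨hba, Sym2.mem_mk_left _ _⟩
    have h2 := card_le_card h1
    rwa [card_pair (fun h6 => hnb.au (Sym2.congr_right.1 h6).symm)] at h2
  choose A0 hA0 using hne
  set A' : Fin 3 → Finset (Sym2 α) := Function.update A0 i A with hA'
  have hA'mem : ∀ c, A' c ∈ 𝒜 c := by
    intro c
    by_cases hc : c = i
    · subst hc; rw [hA', Function.update_self]; exact hA
    · rw [hA', Function.update_of_ne hc]; exact hA0 c
  obtain ⟨x, hxU, hx1⟩ := hx
  obtain ⟨c, v, hv, y, hy, he⟩ := h.conn A' hA'mem {u, a, b} (by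
    intro v hv
    simp only [mem_insert, mem_singleton] at hv
    rcases hv with rfl | rfl | rfl
    · exact hu
    · exact haU
    · exact hbU) ⟨u, by simp⟩ (by
    intro h1
    rw [← h1] at hxU
    simp only [mem_insert, mem_singleton] at hxU
    have := hx1 i
    rcases hxU with rfl | rfl | rfl <;> omega)
  simp only [mem_insert, mem_singleton] at hv hy
  push Not at hy
  have hvU : v ∈ U := by
    rcases hv with rfl | rfl | rfl
    · exact hu
    · exact haU
    · exact hbU
  have hdv : d i v = 2 := by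
    rcases hv with rfl | rfl | rfl
    · exact hui
    · exact hda
    · exact hdb
  by_cases hc : c = i
  · subst hc
    rw [hA', Function.update_self] at he
    rcases hv with rfl | rfl | rfl
    · rcases hnb.all y he with h1 | h1
      · exact hy.2.1 h1
      · exact hy.2.2 h1
    · rcases hnb.three (by rw [h.deg c A hA _ haU, hda]) hab he with h1 | h1
      · exact hy.1 h1
      · exact hy.2.2 h1
    · rcases hnb'.three (by rw [h.deg c A hA _ hbU, hdb]) hba he with h1 | h1
      · exact hy.1 h1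
      · exact hy.2.1 h1
  · have h1 := one_le_dg he
    rw [h.deg c _ (hA'mem c) v hvU, d_le_of_two (h.two v hvU) hdv hc] at h1
    omega

/-- **Suppressing a vertex.** -/
lemma Rect.suppress {U : Finset α} {𝒜 : Fin 3 → Finset (Finset (Sym2 α))} {d : Fin 3 → α → ℕ}
    (h : Rect U 𝒜 d) (hne : ∀ c, (𝒜 c).Nonempty) (hx : ∃ x ∈ U, ∀ c, d c x ≤ 1) {i : Fin 3}
    {u : α} (hu : u ∈ U) (hui : d i u = 2) :
    ∃ 𝒜' : Fin 3 → Finset (Finset (Sym2 α)), Rect (U.erase u) 𝒜' d ∧
      2 * ∏ c, (𝒜 c).card ≤ ((∑ v ∈ U, d i v) - 2) * ∏ c, (𝒜' c).card := by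
  classical
  have hnb : ∀ A, ∃ a b, A ∈ 𝒜 i → Nb A u a b := by
    intro A
    by_cases hA : A ∈ 𝒜 i
    · obtain ⟨a, b, hab⟩ := exists_nb (by rw [h.deg i A hA u hu, hui]) (h.diag i A hA)
      exact ⟨a, b, fun _ => hab⟩
    · exact ⟨u, u, fun h' => absurd h' hA⟩
  choose fa fb hnb using hnb
  have hnt : ∀ A ∈ 𝒜 i, s(fa A, fb A) ∉ A := fun A hA =>
    h.no_triangle hne hx hA hu hui (hnb A hA)
  set sp : Finset (Sym2 α) → Finset (Sym2 α) := fun A => sup u (fa A) (fb A) A with hsp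
  set 𝒜' : Fin 3 → Finset (Finset (Sym2 α)) := Function.update 𝒜 i ((𝒜 i).image sp) with h𝒜'
  have hzero : ∀ c, c ≠ i → ∀ A ∈ 𝒜 c, ∀ e ∈ A, u ∉ e := by
    intro c hc A hA e he hue
    obtain ⟨y, rfl⟩ := hue
    have h1 := one_le_dg he
    rw [h.deg c A hA u hu, d_le_of_two (h.two u hu) hui hc] at h1
    omega
  refine ⟨𝒜', ⟨?_, ?_, ?_, ?_, ?_⟩, ?_⟩
  · -- sub
    intro c A' hA' e he x hxe
    by_cases hc : c = i
    · subst hc
      rw [h𝒜', Function.update_self, mem_image] at hA'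
      obtain ⟨A, hA, rfl⟩ := hA'
      have hn := hnb A hA
      rw [hsp] at he
      simp only [sup, mem_insert, mem_filter] at he
      rcases he with rfl | ⟨he, hue⟩
      · rw [Sym2.mem_iff] at hxe
        rcases hxe with rfl | rfl
        · exact mem_erase.2 ⟨hn.au, h.sub c A hA _ hn.ea _ (Sym2.mem_mk_right _ _)⟩
        · exact mem_erase.2 ⟨hn.bu, h.sub c A hA _ hn.eb _ (Sym2.mem_mk_right _ _)⟩
      · exact mem_erase.2 ⟨fun h1 => hue (h1 ▸ hxe), h.sub c A hA e he x hxe⟩
    · rw [h𝒜', Function.update_of_ne hc] at hA'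
      exact mem_erase.2 ⟨fun h1 => hzero c hc A' hA' e he (h1 ▸ hxe), h.sub c A' hA' e he x hxe⟩
  · -- diag
    intro c A' hA' e he
    by_cases hc : c = i
    · subst hc
      rw [h𝒜', Function.update_self, mem_image] at hA'
      obtain ⟨A, hA, rfl⟩ := hA'
      rw [hsp] at he
      simp only [sup, mem_insert, mem_filter] at he
      rcases he with rfl | ⟨he, _⟩
      · rw [Sym2.mk_isDiag_iff]
        exact (hnb A hA).ab
      · exact h.diag c A hA e he
    · rw [h𝒜', Function.update_of_ne hc] at hA'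
      exact h.diag c A' hA' e he
  · -- deg
    intro c A' hA' v hv
    rw [mem_erase] at hv
    by_cases hc : c = i
    · subst hc
      rw [h𝒜', Function.update_self, mem_image] at hA'
      obtain ⟨A, hA, rfl⟩ := hA'
      rw [hsp]
      simp only
      rw [(hnb A hA).sup_dg (hnt A hA) hv.1, h.deg c A hA v hv.2]
    · rw [h𝒜', Function.update_of_ne hc] at hA'
      exact h.deg c A' hA' v hv.2
  · -- two
    intro v hv
    exact h.two v (mem_erase.1 hv).2
  · -- conn
    intro A' hA' S hS hSne hSU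
    have hi := hA' i
    rw [h𝒜', Function.update_self, mem_image] at hi
    obtain ⟨A0, hA0, hA0'⟩ := hi
    have hn := hnb A0 hA0
    set A : Fin 3 → Finset (Sym2 α) := Function.update A' i A0 with hAdef
    have hAmem : ∀ c, A c ∈ 𝒜 c := by
      intro c
      by_cases hc : c = i
      · subst hc; rw [hAdef, Function.update_self]; exact hA0
      · rw [hAdef, Function.update_of_ne hc]
        have := hA' c
        rwa [h𝒜', Function.update_of_ne hc] at this
    have huS : u ∉ S := fun h1 => (mem_erase.1 (hS h1)).1 rfl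
    have hSU' : S ⊆ U := hS.trans (erase_subset _ _)
    have hup : ∀ e ∈ A0, u ∉ e → e ∈ A' i := by
      intro e he hue
      rw [← hA0']
      exact mem_insert_of_mem (mem_filter.2 ⟨he, hue⟩)
    have hab : s(fa A0, fb A0) ∈ A' i := by
      rw [← hA0']
      exact mem_insert_self _ _
    by_cases ha : fa A0 ∈ S
    · obtain ⟨c, x, hxS, y, hyS, he⟩ := h.conn A hAmem (insert u S) (insert_subset hu hSU')
        ⟨u, mem_insert_self _ _⟩ (by
          intro h1
          apply hSU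
          rw [← h1, erase_insert huS])
      rw [mem_insert, not_or] at hyS
      by_cases hc : c = i
      · subst hc
        rw [hAdef, Function.update_self] at he
        rw [mem_insert] at hxS
        rcases hxS with rfl | hxS
        · rcases hn.all y he with h1 | h1
          · exact absurd (h1 ▸ ha) hyS.2
          · exact ⟨c, fa A0, ha, fb A0, h1 ▸ hyS.2, hab⟩
        · refine ⟨c, x, hxS, y, hyS.2, hup _ he ?_⟩
          rw [Sym2.mem_iff, not_or]
          exact ⟨fun h1 => huS (h1 ▸ hxS), fun h1 => hyS.1 h1.symm⟩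
      · have he' := he
        rw [hAdef, Function.update_of_ne hc] at he'
        have hue := hzero c hc (A c) (hAmem c) _ he
        rw [Sym2.mem_iff, not_or] at hue
        rw [mem_insert] at hxS
        exact ⟨c, x, hxS.resolve_left fun h1 => hue.1 h1.symm, y, hyS.2, he'⟩
    · by_cases hb : fb A0 ∈ S
      · exact ⟨i, fb A0, hb, fa A0, ha, by rw [Sym2.eq_swap]; exact hab⟩
      · obtain ⟨c, x, hxS, y, hyS, he⟩ := h.conn A hAmem S hSU' hSne (fun h1 => huS (h1 ▸ hu))
        by_cases hc : c = i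
        · subst hc
          rw [hAdef, Function.update_self] at he
          refine ⟨c, x, hxS, y, hyS, hup _ he ?_⟩
          rw [Sym2.mem_iff, not_or]
          refine ⟨fun h1 => huS (h1 ▸ hxS), fun h1 => ?_⟩
          subst h1
          rw [Sym2.eq_swap] at he
          rcases hn.all x he with h1 | h1
          · exact ha (h1 ▸ hxS)
          · exact hb (h1 ▸ hxS)
        · rw [hAdef, Function.update_of_ne hc] at he
          exact ⟨c, x, hxS, y, hyS, he⟩
  · -- cardinality
    have h1 : (𝒜 i).card ≤ ∑ A' ∈ (𝒜 i).image sp, A'.card := by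
      rw [← card_sigma]
      refine card_le_card_of_injOn (fun A => ⟨sp A, s(fa A, fb A)⟩) ?_ ?_
      · intro A hA
        rw [mem_coe] at hA
        rw [mem_coe, mem_sigma]
        exact ⟨mem_image_of_mem _ hA, mem_insert_self _ _⟩
      · intro A hA B hB hAB
        rw [mem_coe] at hA hB
        simp only [Sigma.mk.injEq, heq_eq_eq] at hAB
        exact (hnb A hA).sup_inj (hnb B hB) (hnt A hA) (hnt B hB) hAB.1 hAB.2
    have h2 : 2 * ∑ A' ∈ (𝒜 i).image sp, A'.card =
        ((𝒜 i).image sp).card * ((∑ v ∈ U, d i v) - 2) := by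
      rw [mul_sum, ← smul_eq_mul (((𝒜 i).image sp).card), ← sum_const]
      refine sum_congr rfl fun A' hA' => ?_
      obtain ⟨A, hA, rfl⟩ := mem_image.1 hA'
      have h3 : (sp A).card + 1 = A.card := (hnb A hA).sup_card (hnt A hA)
      have h4 := h.two_card hA
      omega
    have h3 : ∏ c, (𝒜 c).card = (𝒜 i).card * ∏ c ∈ univ.erase i, (𝒜 c).card :=
      (mul_prod_erase univ (fun c => (𝒜 c).card) (mem_univ i)).symm
    have h4 : ∏ c, (𝒜' c).card = ((𝒜 i).image sp).card * ∏ c ∈ univ.erase i, (𝒜 c).card := by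
      rw [← mul_prod_erase univ (fun c => (𝒜' c).card) (mem_univ i)]
      congr 1
      · simp only [h𝒜', Function.update_self]
      · refine prod_congr rfl fun c hc => ?_
        rw [h𝒜', Function.update_of_ne (mem_erase.1 hc).1]
    rw [h3, h4]
    calc 2 * ((𝒜 i).card * ∏ c ∈ univ.erase i, (𝒜 c).card)
        = (2 * (𝒜 i).card) * ∏ c ∈ univ.erase i, (𝒜 c).card := by ring
      _ ≤ (2 * ∑ A' ∈ (𝒜 i).image sp, A'.card) * ∏ c ∈ univ.erase i, (𝒜 c).card :=
          Nat.mul_le_mul_right _ (Nat.mul_le_mul_left _ h1)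
      _ = _ := by rw [h2]; ring

end Pool.Agent.T9h48.TSP
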